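import Pool.Agent.Helper75.QC.Defs

/-! Project QC: the algebraic closure of a subfield inside a field. -/

set_option autoImplicit false

namespace Pool.Agent.Helper75.QC

open IntermediateField

variable {Ω E : Type} [Field Ω] [Field E] [Algebra Ω E]

/-- `Acl Ω S` as an intermediate field -/
noncomputable def AF (Ω : Type) {E : Type} [Field Ω] [Field E] [Algebra Ω E] (S : Set E) :
    IntermediateField Ω E :=
  (algebraicClosure (adjoin Ω S) E).restrictScalars Ω

theorem mem_AF {S : Set E} {a : E} : a ∈ AF Ω S ↔ a ∈ Acl Ω S := by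
  unfold AF Acl
  rw [mem_restrictScalars, mem_algebraicClosure_iff]
  rfl

theorem coe_AF (S : Set E) : (AF Ω S : Set E) = Acl Ω S := by
  ext a
  exact mem_AF

theorem subset_AF (S : Set E) : S ⊆ AF Ω S := by
  intro a ha
  have : a ∈ Acl Ω S := by
    have h1 : a ∈ adjoin Ω S := subset_adjoin Ω S ha
    exact isAlgebraic_algebraMap (⟨a, h1⟩ : adjoin Ω S)
  exact mem_AF.2 this

/-- `AF` is algebraically closed in `E` -/
theorem AF_closed {S : Set E} {a : E} (h : IsAlgebraic (AF Ω S) a) : a ∈ AF Ω S := by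
  have h1 : IsAlgebraic (algebraicClosure (adjoin Ω S) E) a := h
  have h2 : IsAlgebraic (adjoin Ω S) a := h1.restrictScalars (adjoin Ω S)
  exact mem_AF.2 h2

theorem AF_le {S T : Set E} (h : S ⊆ AF Ω T) : AF Ω S ≤ AF Ω T := by
  intro a ha
  have h1 : adjoin Ω S ≤ AF Ω T := adjoin_le_iff.2 h
  have h2 : IsAlgebraic (adjoin Ω S) a := mem_AF.1 ha
  apply AF_closed
  obtain ⟨P, hP0, hP⟩ := h2
  refine ⟨P.map (IntermediateField.inclusion h1).toRingHom, ?_, ?_⟩
  · rw [Ne, Polynomial.map_eq_zero]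
    exact hP0
  · rw [Polynomial.aeval_def, Polynomial.eval₂_map]
    rw [Polynomial.aeval_def] at hP
    exact hP

theorem AF_mono {S T : Set E} (h : S ⊆ T) : AF Ω S ≤ AF Ω T :=
  AF_le (h.trans (subset_AF T))

/-- closed under roots of monic equations, in the form used for square roots -/
theorem AF_root {S : Set E} {a : E} {n : ℕ} (hn : 0 < n) (h : a ^ n ∈ AF Ω S) : a ∈ AF Ω S := by
  apply AF_closed
  refine IsAlgebraic.of_pow hn ?_
  exact isAlgebraic_algebraMap (⟨a ^ n, h⟩ : AF Ω S)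

/-- the value at `(x, y)` of the polynomial with the coefficients `c i j`, `i + j ≤ 4` -/
noncomputable def Fv (c : ℕ → ℕ → Ω) (x y : E) : E :=
  ∑ i ∈ Finset.range 5, ∑ j ∈ Finset.range (5 - i), algebraMap Ω E (c i j) * x ^ i * y ^ j

/-- a polynomial of degree at most four is given by its coefficients -/
theorem exists_Fv (f : MvPolynomial (Fin 2) Ω) (hf : f.totalDegree ≤ 4) :
    ∃ c : ℕ → ℕ → Ω, ∀ (E : Type) [Field E] [Algebra Ω E] (x y : E),
      MvPolynomial.aeval ![x, y] f = Fv c x y := by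
  refine ⟨fun i j => f.coeff (Finsupp.single 0 i + Finsupp.single 1 j), fun E _ _ x y => ?_⟩
  rw [MvPolynomial.aeval_def, MvPolynomial.eval₂_eq']
  unfold Fv
  have h1 : ∀ d ∈ f.support, d = Finsupp.single 0 (d 0) + Finsupp.single 1 (d 1) ∧
      d 0 + d 1 ≤ 4 := by
    intro d hd
    constructor
    · ext i
      fin_cases i <;> simp
    · have := MvPolynomial.le_totalDegree hd
      rw [Finsupp.sum_fintype _ _ (by simp), Fin.sum_univ_two] at this
      omega
  rw [Finset.sum_sigma']
  symm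
  refine Finset.sum_bij_ne_zero (fun q _ _ => Finsupp.single 0 q.1 + Finsupp.single 1 q.2) ?_ ?_ ?_ ?_
  · intro q _ hq
    rw [MvPolynomial.mem_support_iff]
    intro h0
    apply hq
    show algebraMap Ω E (f.coeff (Finsupp.single 0 q.1 + Finsupp.single 1 q.2)) * x ^ q.1 *
      y ^ q.2 = 0
    rw [h0]
    simp
  · intro q _ _ q' _ _ h
    have e0 := DFunLike.congr_fun h 0
    have e1 := DFunLike.congr_fun h 1
    simp at e0 e1
    exact Sigma.ext e0 (heq_of_eq e1)
  · intro d hd hne
    obtain ⟨hd1, hd2⟩ := h1 d hd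
    refine ⟨⟨d 0, d 1⟩, ?_, ?_, ?_⟩
    · simp only [Finset.mem_sigma, Finset.mem_range]
      omega
    · show algebraMap Ω E (f.coeff (Finsupp.single 0 (d 0) + Finsupp.single 1 (d 1))) *
        x ^ (d 0) * y ^ (d 1) ≠ 0
      rw [← hd1]
      simpa [Fin.prod_univ_two, mul_assoc] using hne
    · exact hd1.symm
  · intro q _ _
    simp [Fin.prod_univ_two, mul_assoc]

end Pool.Agent.Helper75.QC
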