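import Pool.Agent.Helper75.QC.Base

/-! Block QC-3. Rational parametrizations over an algebraically closed subfield `AF Ω S` of `E`
(`E` algebraically closed, so `AF Ω S` contains the square roots of its elements: `AF_root`).

`conic`: `ρ^2 = A + B μ + C μ^2`. `C ≠ 0`: `s^2 = C`, `η = ρ - s μ`, `η^2 + 2 s η μ = A + B μ`; if
`2 s η ≠ B` then `μ = (A - η^2)/(2 s η - B)`, `ρ = η + s μ`, take `θ = η`; otherwise
`η = B / (2 s) ∈ AF`, take `θ = μ`. `C = 0`, `B ≠ 0`: `θ = ρ`. `B = C = 0`: `ρ ∈ AF`, `θ = μ`.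
`artin_schreier` (characteristic two): `v^2 + v = A0 + A1 x + A2 x^2 + A4 x^4`; `s^2 = A4`,
`v1 = v + s x^2`, `v1^2 + v1 = A0 + A1 x + (A2 + s) x^2`; `r^2 = A2 + s`, `v2 = v1 + r x`,
`v2^2 + v2 = A0 + (A1 + r) x`; if `A1 + r ≠ 0` take `θ = v2`, otherwise `v2 ∈ AF`, `θ = x`. -/

set_option autoImplicit false

namespace Pool.Agent.Helper75.QC

open IntermediateField

variable {Ω E : Type} [Field Ω] [Field E] [Algebra Ω E]

private theorem mem_adj {S : Set E} {a : E} (ha : a ∈ AF Ω S) (θ : E) :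
    a ∈ adjoin Ω (Acl Ω S ∪ {θ}) :=
  subset_adjoin Ω _ (Or.inl (mem_AF.1 ha))

private theorem self_mem (S : Set E) (θ : E) : θ ∈ adjoin Ω (Acl Ω S ∪ {θ}) :=
  subset_adjoin Ω _ (Or.inr rfl)

theorem conic [IsAlgClosed E] (h2 : (2 : E) ≠ 0) (S : Set E) {A B C μ ρ : E} (hA : A ∈ AF Ω S)
    (hB : B ∈ AF Ω S) (hC : C ∈ AF Ω S) (h : ρ ^ 2 = A + B * μ + C * μ ^ 2) :
    ∃ θ : E, μ ∈ adjoin Ω (Acl Ω S ∪ {θ}) ∧ ρ ∈ adjoin Ω (Acl Ω S ∪ {θ}) := by
  by_cases hC0 : C = 0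
  · subst hC0
    by_cases hB0 : B = 0
    · subst hB0
      have h1 : ρ ^ 2 ∈ AF Ω S := by
        rw [h]; simpa using hA
      exact ⟨μ, self_mem S μ, mem_adj (AF_root (by norm_num) h1) μ⟩
    · refine ⟨ρ, ?_, self_mem S ρ⟩
      have h1 : μ = (ρ ^ 2 - A) / B := by
        rw [h]; field_simp; ring
      rw [h1]
      exact div_mem (sub_mem (pow_mem (self_mem S ρ) 2) (mem_adj hA ρ)) (mem_adj hB ρ)
  · obtain ⟨s, hs⟩ := IsAlgClosed.exists_pow_nat_eq C (n := 2) (by norm_num)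
    have hsA : s ∈ AF Ω S := AF_root (n := 2) (by norm_num) (by rw [hs]; exact hC)
    have hs0 : s ≠ 0 := by
      rintro rfl
      exact hC0 (by rw [← hs]; ring)
    have h3 : (2 * s * (ρ - s * μ) - B) * μ = A - (ρ - s * μ) ^ 2 := by
      have : C = s ^ 2 := hs.symm
      subst this
      linear_combination h
    by_cases hd : 2 * s * (ρ - s * μ) - B = 0
    · have h4 : ρ - s * μ = B / (2 * s) := by
        have h5 : 2 * s ≠ 0 := mul_ne_zero h2 hs0
        rw [eq_div_iff h5]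
        linear_combination hd
      have h5 : ρ = B / (2 * s) + s * μ := by rw [← h4]; ring
      have h6 : B / (2 * s) ∈ AF Ω S := by
        refine div_mem hB (mul_mem ?_ hsA)
        have : ((2 : ℕ) : E) ∈ AF Ω S := _root_.natCast_mem _ 2
        simpa using this
      refine ⟨μ, self_mem S μ, ?_⟩
      rw [h5]
      exact add_mem (mem_adj h6 μ) (mul_mem (mem_adj hsA μ) (self_mem S μ))
    · set η := ρ - s * μ with hη
      have hμ : μ = (A - η ^ 2) / (2 * s * η - B) := by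
        rw [eq_div_iff hd, ← h3]; ring
      have h2m : (2 : E) ∈ adjoin Ω (Acl Ω S ∪ {η}) := by
        have : ((2 : ℕ) : E) ∈ adjoin Ω (Acl Ω S ∪ {η}) := _root_.natCast_mem _ 2
        simpa using this
      have hμm : μ ∈ adjoin Ω (Acl Ω S ∪ {η}) := by
        rw [hμ]
        exact div_mem (sub_mem (mem_adj hA η) (pow_mem (self_mem S η) 2))
          (sub_mem (mul_mem (mul_mem h2m (mem_adj hsA η)) (self_mem S η)) (mem_adj hB η))
      refine ⟨η, hμm, ?_⟩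
      have h5 : ρ = η + s * μ := by rw [hη]; ring
      rw [h5]
      exact add_mem (self_mem S η) (mul_mem (mem_adj hsA η) hμm)

private theorem quad_closed {S : Set E} {a v : E} (ha : a ∈ AF Ω S) (h : v ^ 2 + v = a) :
    v ∈ AF Ω S := by
  apply AF_closed
  refine ⟨Polynomial.X ^ 2 + Polynomial.X - Polynomial.C (⟨a, ha⟩ : AF Ω S), ?_, ?_⟩
  · intro h0
    have h1 := congrArg (fun P => Polynomial.coeff P 2) h0
    simp [Polynomial.coeff_X] at h1
  · simp only [map_sub, map_add, map_pow, Polynomial.aeval_X, Polynomial.aeval_C]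
    rw [h]
    show a - a = 0
    ring

theorem artin_schreier [IsAlgClosed E] (h2 : (2 : E) = 0) (S : Set E) {A0 A1 A2 A4 x v : E}
    (h0 : A0 ∈ AF Ω S) (h1 : A1 ∈ AF Ω S) (h2' : A2 ∈ AF Ω S) (h4 : A4 ∈ AF Ω S)
    (h : v ^ 2 + v = A0 + A1 * x + A2 * x ^ 2 + A4 * x ^ 4) :
    ∃ θ : E, x ∈ adjoin Ω (Acl Ω S ∪ {θ}) ∧ v ∈ adjoin Ω (Acl Ω S ∪ {θ}) := by
  obtain ⟨s, hs⟩ := IsAlgClosed.exists_pow_nat_eq A4 (n := 2) (by norm_num)
  have hsA : s ∈ AF Ω S := AF_root (n := 2) (by norm_num) (by rw [hs]; exact h4)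
  obtain ⟨r, hr⟩ := IsAlgClosed.exists_pow_nat_eq (A2 + s) (n := 2) (by norm_num)
  have hrA : r ∈ AF Ω S := AF_root (n := 2) (by norm_num) (by rw [hr]; exact add_mem h2' hsA)
  have h5 : (v + s * x ^ 2 + r * x) ^ 2 + (v + s * x ^ 2 + r * x) = A0 + (A1 + r) * x := by
    have e : (v + s * x ^ 2 + r * x) ^ 2 + (v + s * x ^ 2 + r * x) =
        (v ^ 2 + v) + s ^ 2 * x ^ 4 + r ^ 2 * x ^ 2 + s * x ^ 2 + r * x +
        2 * (v * s * x ^ 2 + v * r * x + s * r * x ^ 3) := by ring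
    rw [e, h, hs, hr]
    linear_combination (v * s * x ^ 2 + v * r * x + s * r * x ^ 3 + A4 * x ^ 4 + A2 * x ^ 2 +
      s * x ^ 2) * h2
  by_cases hd : A1 + r = 0
  · have h6 : v + s * x ^ 2 + r * x ∈ AF Ω S := by
      refine quad_closed h0 ?_
      rw [h5, hd]; ring
    refine ⟨x, self_mem S x, ?_⟩
    have h7 : v = (v + s * x ^ 2 + r * x) - s * x ^ 2 - r * x := by ring
    rw [h7]
    exact sub_mem (sub_mem (mem_adj h6 x) (mul_mem (mem_adj hsA x) (pow_mem (self_mem S x) 2)))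
      (mul_mem (mem_adj hrA x) (self_mem S x))
  · set θ := v + s * x ^ 2 + r * x with hθ
    have hx : x = (θ ^ 2 + θ - A0) / (A1 + r) := by
      rw [eq_div_iff hd, h5]; ring
    have hxm : x ∈ adjoin Ω (Acl Ω S ∪ {θ}) := by
      rw [hx]
      exact div_mem (sub_mem (add_mem (pow_mem (self_mem S θ) 2) (self_mem S θ)) (mem_adj h0 θ))
        (add_mem (mem_adj h1 θ) (mem_adj hrA θ))
    refine ⟨θ, hxm, ?_⟩
    have h7 : v = θ - s * x ^ 2 - r * x := by rw [hθ]; ring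
    rw [h7]
    exact sub_mem (sub_mem (self_mem S θ) (mul_mem (mem_adj hsA θ) (pow_mem hxm 2)))
      (mul_mem (mem_adj hrA θ) hxm)

end Pool.Agent.Helper75.QC
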