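import Pool.Agent.Helper75.QC.Base

/-! Block QC-7. The singular points of a reduced plane curve are algebraic over `Ω`.

Proof. Let `I` be the ideal of the `g` with `g(a, b) = 0`, and suppose that `a` or `b` is not algebraic over `Ω`; then `I`
is not maximal (Zariski's lemma). Key lemma: if `g`, `h` are in `I`, `h` irreducible, then `h ∣ g`: otherwise
`0 < (h) < I < m`, `m` maximal, is a chain of four primes, but the dimension is two. An irreducible factor `h` of `f`
is in `I`, `f = h k`, `h ∤ k` (`f` is squarefree), so `k(a, b) ≠ 0` by the key lemma. `∂f = ∂h k + h ∂k` vanishes at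
`(a, b)`, so `∂h (a, b) = 0`, `h ∣ ∂h`, so `∂h = 0` (degree), for both derivatives. So `h` is a constant or (in
characteristic `p`) a `p`-th power: not irreducible. The bound for the degree of `f` and the characteristic play no
role. -/

set_option autoImplicit false
set_option linter.unusedVariables false

namespace Pool.Agent.Helper75.QC

open IntermediateField

variable {Ω E : Type} [Field Ω] [Field E] [Algebra Ω E]

/-- In dimension two a prime ideal that is not maximal contains at most one irreducible curve. -/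
private lemma key33 (I : Ideal (MvPolynomial (Fin 2) Ω)) [hp : I.IsPrime] (hI : ¬ I.IsMaximal)
    {h g : MvPolynomial (Fin 2) Ω} (hh : Prime h) (hhI : h ∈ I) (hg : g ∈ I) : h ∣ g := by
  by_contra hd
  obtain ⟨m, hm, hIm⟩ := Ideal.exists_le_maximal I hp.ne_top
  have hlt : I < m := lt_of_le_of_ne hIm (fun h => hI (h ▸ hm))
  have hP : (Ideal.span {h}).IsPrime := (Ideal.span_singleton_prime hh.ne_zero).2 hh
  have h1 : (⊥ : Ideal (MvPolynomial (Fin 2) Ω)) < Ideal.span {h} := by
    refine bot_lt_iff_ne_bot.2 fun h0 => hh.ne_zero ?_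
    exact Ideal.span_singleton_eq_bot.1 h0
  have h2 : Ideal.span {h} < I := by
    refine lt_of_le_of_ne ((Ideal.span_singleton_le_iff_mem I).2 hhI) fun h0 => hd ?_
    rw [← Ideal.mem_span_singleton, h0]
    exact hg
  have hbot : (⊥ : Ideal (MvPolynomial (Fin 2) Ω)).IsPrime := Ideal.isPrime_bot
  let p0 : PrimeSpectrum (MvPolynomial (Fin 2) Ω) := ⟨⊥, hbot⟩
  let p1 : PrimeSpectrum (MvPolynomial (Fin 2) Ω) := ⟨Ideal.span {h}, hP⟩
  let p2 : PrimeSpectrum (MvPolynomial (Fin 2) Ω) := ⟨I, hp⟩
  let p3 : PrimeSpectrum (MvPolynomial (Fin 2) Ω) := ⟨m, hm.isPrime⟩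
  let s : LTSeries (PrimeSpectrum (MvPolynomial (Fin 2) Ω)) :=
    { length := 3
      toFun := ![p0, p1, p2, p3]
      step := by
        intro i
        fin_cases i
        · exact h1
        · exact h2
        · exact hlt }
  have h3 := Order.LTSeries.length_le_krullDim s
  have h4 : Order.krullDim (PrimeSpectrum (MvPolynomial (Fin 2) Ω)) = 2 := by
    have := MvPolynomial.ringKrullDim_of_isNoetherianRing (R := Ω) (ι := Fin 2)
    rw [ringKrullDim_eq_zero_of_field, zero_add, Nat.card_eq_fintype_card, Fintype.card_fin] at this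
    exact this
  rw [h4] at h3
  have h5 : ((3 : ℕ) : WithBot ℕ∞) ≤ ((2 : ℕ) : WithBot ℕ∞) := h3
  exact absurd (Nat.cast_le.1 h5) (by norm_num)

/-- the values of a maximal ideal are algebraic -/
private lemma max33 (a b : E)
    (hI : (RingHom.ker (MvPolynomial.aeval ![a, b] : MvPolynomial (Fin 2) Ω →ₐ[Ω] E)).IsMaximal) :
    IsAlgebraic Ω a ∧ IsAlgebraic Ω b := by
  set I := RingHom.ker (MvPolynomial.aeval ![a, b] : MvPolynomial (Fin 2) Ω →ₐ[Ω] E) with hIdef
  let _ := Ideal.Quotient.field I
  have : Algebra.FiniteType Ω (MvPolynomial (Fin 2) Ω ⧸ I) :=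
    Algebra.FiniteType.of_surjective (Ideal.Quotient.mkₐ Ω I) (Ideal.Quotient.mkₐ_surjective Ω I)
  have : Module.Finite Ω (MvPolynomial (Fin 2) Ω ⧸ I) := finite_of_finite_type_of_isJacobsonRing _ _
  let φ : (MvPolynomial (Fin 2) Ω ⧸ I) →ₐ[Ω] E := Ideal.Quotient.liftₐ I (MvPolynomial.aeval ![a, b])
    (fun x hx => hx)
  have h1 : ∀ i : Fin 2, IsAlgebraic Ω (![a, b] i) := by
    intro i
    have h2 : IsIntegral Ω (Ideal.Quotient.mkₐ Ω I (MvPolynomial.X i)) := Algebra.IsIntegral.isIntegral _
    have h3 := h2.map φ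
    have h4 : φ (Ideal.Quotient.mkₐ Ω I (MvPolynomial.X i)) = ![a, b] i := by
      show MvPolynomial.aeval ![a, b] (MvPolynomial.X i) = ![a, b] i
      rw [MvPolynomial.aeval_X]
    rw [h4] at h3
    exact h3.isAlgebraic
  exact ⟨h1 0, h1 1⟩

/-- a divisor of its own derivative has derivative zero -/
private lemma der33 {h : MvPolynomial (Fin 2) Ω} (i : Fin 2) (hd : h ∣ MvPolynomial.pderiv i h) :
    MvPolynomial.pderiv i h = 0 := by
  by_contra h0
  obtain ⟨q, hq⟩ := hd
  have hh : h ≠ 0 := by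
    rintro rfl
    exact h0 (map_zero _)
  have hq0 : q ≠ 0 := by
    rintro rfl
    rw [mul_zero] at hq
    exact h0 hq
  obtain ⟨m, hm, hmi⟩ : ∃ m ∈ (MvPolynomial.pderiv i h).support,
      m i = MvPolynomial.degreeOf i (MvPolynomial.pderiv i h) := by
    have := MvPolynomial.degreeOf_eq_sup i (MvPolynomial.pderiv i h)
    rw [this]
    obtain ⟨m, hm, h5⟩ := Finset.exists_mem_eq_sup (MvPolynomial.pderiv i h).support
      (MvPolynomial.support_nonempty.2 h0) (fun m => m i)
    exact ⟨m, hm, h5.symm⟩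
  have h6 : MvPolynomial.degreeOf i (MvPolynomial.pderiv i h) + 1 ≤ MvPolynomial.degreeOf i h := by
    rw [← hmi]
    have h7 : m + Finsupp.single i 1 ∈ h.support := by
      rw [MvPolynomial.mem_support_iff] at hm ⊢
      rw [MvPolynomial.coeff_pderiv] at hm
      intro h8
      rw [h8] at hm
      simp at hm
    have h9 := MvPolynomial.monomial_le_degreeOf i h7
    simpa using h9
  have h10 : MvPolynomial.degreeOf i (MvPolynomial.pderiv i h) =
      MvPolynomial.degreeOf i h + MvPolynomial.degreeOf i q := by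
    rw [hq, MvPolynomial.degreeOf_mul_eq hh hq0]
  omega

/-- a polynomial over a perfect field with zero derivatives is a constant or a power -/
private lemma pow33 [IsAlgClosed Ω] {h : MvPolynomial (Fin 2) Ω} (hh : Irreducible h)
    (hd : ∀ i, MvPolynomial.pderiv i h = 0) : False := by
  have h1 : ∀ m ∈ h.support, ∀ i, ((m i : ℕ) : Ω) = 0 := by
    intro m hm i
    rcases Nat.eq_zero_or_pos (m i) with h0 | h0
    · rw [h0, Nat.cast_zero]
    have h2 := congrArg (MvPolynomial.coeff (m - Finsupp.single i 1)) (hd i)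
    rw [MvPolynomial.coeff_pderiv, MvPolynomial.coeff_zero] at h2
    have h3 : m - Finsupp.single i 1 + Finsupp.single i 1 = m := by
      apply tsub_add_cancel_of_le
      rw [Finsupp.single_le_iff]
      exact h0
    rw [h3] at h2
    rw [MvPolynomial.mem_support_iff] at hm
    have h4 := (mul_eq_zero.1 h2).resolve_left hm
    have h5 : (m - (Finsupp.single i 1 : Fin 2 →₀ ℕ)) i + 1 = m i := by
      rw [Finsupp.tsub_apply, Finsupp.single_eq_same]
      omega
    rw [← h5]
    push_cast at h4 ⊢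
    exact h4
  obtain ⟨p, hp⟩ := CharP.exists Ω
  rcases CharP.char_is_prime_or_zero Ω p with hpp | hpp
  · have : Fact p.Prime := ⟨hpp⟩
    have h2 : ∀ m ∈ h.support, ∀ i, p ∣ m i := fun m hm i => (CharP.cast_eq_zero_iff Ω p _).1 (h1 m hm i)
    have h3 : ∀ c : Ω, ∃ z : Ω, z ^ p = c := fun c => IsAlgClosed.exists_pow_nat_eq c hpp.pos
    choose rt hrt using h3
    have h4 : h = (∑ m ∈ h.support, MvPolynomial.monomial (m.mapRange (fun k => k / p) (Nat.zero_div p))
        (rt (h.coeff m))) ^ p := by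
      rw [sum_pow_char]
      conv_lhs => rw [h.as_sum]
      refine Finset.sum_congr rfl fun m hm => ?_
      rw [MvPolynomial.monomial_pow, hrt]
      have h5 : m = p • m.mapRange (fun k => k / p) (Nat.zero_div p) := by
        ext i
        rw [Finsupp.smul_apply, Finsupp.mapRange_apply, smul_eq_mul]
        exact (Nat.mul_div_cancel' (h2 m hm i)).symm
      rw [← h5]
    rw [h4] at hh
    exact not_irreducible_pow hpp.ne_one hh
  · have h2 : ∀ m ∈ h.support, m = 0 := by
      intro m hm
      subst hpp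
      have : CharZero Ω := CharP.charP_to_charZero Ω
      ext i
      exact_mod_cast h1 m hm i
    have h3 : h = MvPolynomial.C (h.coeff 0) := by
      conv_lhs => rw [h.as_sum]
      rw [MvPolynomial.C_apply]
      by_cases h0 : h.coeff 0 = 0
      · rw [h0, map_zero]
        apply Finset.sum_eq_zero
        intro m hm
        rw [h2 m hm, h0, map_zero]
      · rw [Finset.sum_eq_single_of_mem 0 (MvPolynomial.mem_support_iff.2 h0)]
        intro m hm hm0
        exact absurd (h2 m hm) hm0
    have h4 : h.coeff 0 ≠ 0 := by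
      intro h0
      rw [h0, map_zero] at h3
      exact hh.ne_zero h3
    apply hh.not_isUnit
    rw [h3]
    exact (isUnit_iff_ne_zero.2 h4).map MvPolynomial.C

theorem sing [IsAlgClosed Ω] (h2 : (2 : Ω) ≠ 0) (f : MvPolynomial (Fin 2) Ω)
    (hf : f.totalDegree ≤ 4) (hsq : Squarefree f) (a b : E)
    (h0 : MvPolynomial.aeval ![a, b] f = 0)
    (hx : MvPolynomial.aeval ![a, b] (MvPolynomial.pderiv 0 f) = 0)
    (hy : MvPolynomial.aeval ![a, b] (MvPolynomial.pderiv 1 f) = 0) :
    IsAlgebraic Ω a ∧ IsAlgebraic Ω b := by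
  by_contra hcon
  obtain ⟨ψ, hψ⟩ : ∃ ψ : MvPolynomial (Fin 2) Ω →ₐ[Ω] E, ψ = MvPolynomial.aeval ![a, b] := ⟨_, rfl⟩
  rw [← hψ] at h0 hx hy
  have hp : (RingHom.ker ψ).IsPrime := RingHom.ker_isPrime ψ
  have hI : ¬ (RingHom.ker ψ).IsMaximal := by
    intro h
    rw [hψ] at h
    exact hcon (max33 a b h)
  have hf0 : f ≠ 0 := by
    rintro rfl
    exact not_squarefree_zero hsq
  have hne : RingHom.ker ψ ≠ ⊥ := by
    intro h
    have : f ∈ RingHom.ker ψ := h0
    rw [h] at this
    exact hf0 this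
  obtain ⟨h, hhI, hh⟩ := hp.exists_mem_prime_of_ne_bot hne
  obtain ⟨k, hk⟩ := key33 (RingHom.ker ψ) hI hh hhI (show f ∈ RingHom.ker ψ from h0)
  have hkI : k ∉ RingHom.ker ψ := by
    intro h1
    obtain ⟨l, hl⟩ := key33 (RingHom.ker ψ) hI hh hhI h1
    have h2 : h * h ∣ f := ⟨l, by rw [hk, hl, mul_assoc]⟩
    exact hh.not_isUnit (hsq h h2)
  have hd : ∀ i, ψ (MvPolynomial.pderiv i f) = 0 := by
    intro i
    fin_cases i
    · exact hx
    · exact hy
  have hd2 : ∀ i, MvPolynomial.pderiv i h = 0 := by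
    intro i
    apply der33
    apply key33 (RingHom.ker ψ) hI hh hhI
    have h1 := hd i
    rw [hk, MvPolynomial.pderiv_mul, map_add, map_mul, map_mul] at h1
    have h2 : ψ h = 0 := hhI
    rw [h2, zero_mul, add_zero] at h1
    exact (mul_eq_zero.1 h1).resolve_right hkI
  exact pow33 hh.irreducible hd2

end Pool.Agent.Helper75.QC
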