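import Pool.Agent.Helper75.QC.Line
import Pool.Agent.Helper75.QC.Conic
import Pool.Agent.Helper75.QC.Sqf

/-! Block QC-8. The surface `r^2 = f(x, y)`, `deg f ≤ 4`, is uniruled (characteristic not two).

Proof. Induction on the total degree. `f = 0` or `r = 0`: `r = 0`, `S = {x}`, `θ = y`. If `f` is not
squarefree, `f = g^2 h`, `g` not a unit (`g(x, y) ≠ 0` as `r ≠ 0`): `r' = r / g(x, y)`,
`r'^2 = h(x, y)`, `r = g(x, y) r'`. Let `f` be squarefree, `c` its coefficients (`exists_Fv`; the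
values of `dvx c`, `dvy c` are those of `pderiv 0 f`, `pderiv 1 f`). `direction` with `s0 = 0`,
`s1 = 1`; the case `α = 1` in a lemma, `(0, 1)` is the direction `(1, 0)` for `Fv_swap`.
`line_cases`: (i) `a, b, μ`: if `Fv (dvy c) a b ≠ 0`: `dep` gives `e` with `a, b ∈ AF Ω {e}`, then
`β ∈ AF Ω {e}`, `S = {e}`. Otherwise `Fv (dvx c) a b = 0` too and `a, b` are algebraic over `Ω` by
`sing`: `S = {β}`. `conic` with `ρ = r / μ`. (ii) `b0`: `S = {y - b0 x}`, `conic` with `μ = x`,
`ρ = r`. -/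

set_option autoImplicit false

namespace Pool.Agent.Helper75.QC

open IntermediateField

variable {Ω E : Type} [Field Ω] [Field E] [Algebra Ω E]

private theorem mem76 {S : Set E} {θ a : E} (h : a ∈ AF Ω S) :
    a ∈ adjoin Ω (Acl Ω S ∪ {θ}) :=
  subset_adjoin Ω _ (Or.inl (mem_AF.1 h))

/-- the case of a direction `(1, β)` -/
private theorem core76 [IsAlgClosed Ω] [IsAlgClosed E] (h2 : (2 : E) ≠ 0) (c : ℕ → ℕ → Ω)
    (x y r β : E) (hr0 : r ≠ 0) (hr : r ^ 2 = Fv c x y)
    (hs : ∀ a b : E, Fv c a b = 0 → Fv (dvx c) a b = 0 → Fv (dvy c) a b = 0 →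
      IsAlgebraic Ω a ∧ IsAlgebraic Ω b)
    (H : (∃ A B C : E, ∀ t, 0 + 1 * Fv c (x + t) (y + β * t) = A + B * t + C * t ^ 2) ∨
      (∃ t0 A B C : E, ∀ t, 0 + 1 * Fv c (x + t) (y + β * t) =
        (t - t0) ^ 2 * (A + B * t + C * t ^ 2))) :
    ∃ (S : Finset E) (θ : E), S.card ≤ 1 ∧ x ∈ adjoin Ω (Acl Ω (S : Set E) ∪ {θ}) ∧
      y ∈ adjoin Ω (Acl Ω (S : Set E) ∪ {θ}) ∧ r ∈ adjoin Ω (Acl Ω (S : Set E) ∪ {θ}) := by
  classical
  have hc : ∃ i j, i + j ≤ 4 ∧ c i j ≠ 0 := by
    by_contra hcon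
    push Not at hcon
    apply hr0
    have h0 : Fv c x y = 0 := by
      unfold Fv
      refine Finset.sum_eq_zero fun i hi => Finset.sum_eq_zero fun j hj => ?_
      rw [Finset.mem_range] at hi hj
      rw [hcon i j (by omega)]
      simp
    rw [h0] at hr
    exact pow_eq_zero_iff (two_ne_zero) |>.1 hr
  rcases line_cases c x y 0 1 r β one_ne_zero hr0 (by rw [hr]; ring) H with
    ⟨a, b, μ, hx, hy, hμ, h0, h1, hM⟩ | ⟨b0, hM⟩
  · have h0' : Fv c a b = 0 := by
      rw [zero_add, one_mul] at h0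
      exact h0
    have key : ∃ e : E, a ∈ AF Ω {e} ∧ b ∈ AF Ω {e} ∧ β ∈ AF Ω {e} := by
      by_cases hv : Fv (dvy c) a b = 0
      · rw [hv, mul_zero, add_zero] at h1
        obtain ⟨ha, hb⟩ := hs a b h0' h1 hv
        exact ⟨β, AF_closed (ha.tower_top _), AF_closed (hb.tower_top _),
          subset_AF _ (Set.mem_singleton β)⟩
      · obtain ⟨e, ha, hb⟩ := dep c hc a b h0'
        refine ⟨e, ha, hb, ?_⟩
        have hβ : β = - Fv (dvx c) a b / Fv (dvy c) a b := by
          rw [eq_div_iff hv]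
          linear_combination h1
        rw [hβ]
        exact div_mem (neg_mem (Fv_mem _ _ ha hb)) (Fv_mem _ _ ha hb)
    obtain ⟨e, ha, hb, hβ⟩ := key
    obtain ⟨A, hA, B, hB, C, hC, hρ⟩ := hM (AF Ω {e}) ha hb hβ (one_mem _)
    obtain ⟨θ, hm, hρ'⟩ := conic h2 {e} hA hB hC hρ
    refine ⟨{e}, θ, by simp, ?_, ?_, ?_⟩
    · rw [Finset.coe_singleton, hx]
      exact add_mem (mem76 ha) hm
    · rw [Finset.coe_singleton, hy]
      exact add_mem (mem76 hb) (mul_mem (mem76 hβ) hm)
    · rw [Finset.coe_singleton]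
      have h3 : r = r / μ * μ := by field_simp
      rw [h3]
      exact mul_mem hρ' hm
  · have he : y - algebraMap Ω E b0 * x ∈ AF Ω {y - algebraMap Ω E b0 * x} :=
      subset_AF _ (Set.mem_singleton _)
    obtain ⟨A, hA, B, hB, C, hC, hρ⟩ := hM (AF Ω {y - algebraMap Ω E b0 * x}) he
      (zero_mem _) (one_mem _)
    obtain ⟨θ, hm, hρ'⟩ := conic h2 {y - algebraMap Ω E b0 * x} hA hB hC hρ
    refine ⟨{y - algebraMap Ω E b0 * x}, θ, by simp, ?_, ?_, ?_⟩
    · rw [Finset.coe_singleton]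
      exact hm
    · rw [Finset.coe_singleton]
      have h3 : y = (y - algebraMap Ω E b0 * x) + algebraMap Ω E b0 * x := by ring
      have h4 : (y - algebraMap Ω E b0 * x) + algebraMap Ω E b0 * x ∈
          adjoin Ω (Acl Ω {y - algebraMap Ω E b0 * x} ∪ {θ}) :=
        add_mem (mem76 he) (mul_mem (IntermediateField.algebraMap_mem _ b0) hm)
      rwa [← h3] at h4
    · rw [Finset.coe_singleton]
      exact hρ'

/-- the polynomial with the coefficients `c` -/
private noncomputable def pol76 (c : ℕ → ℕ → Ω) : MvPolynomial (Fin 2) Ω :=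
  ∑ i ∈ Finset.range 5, ∑ j ∈ Finset.range (5 - i),
    MvPolynomial.C (c i j) * MvPolynomial.X 0 ^ i * MvPolynomial.X 1 ^ j

private theorem eq_pol76 (f : MvPolynomial (Fin 2) Ω) (c : ℕ → ℕ → Ω)
    (hc : ∀ (E : Type) [Field E] [Algebra Ω E] (x y : E),
      MvPolynomial.aeval ![x, y] f = Fv c x y) : f = pol76 c := by
  have h := hc (FractionRing (MvPolynomial (Fin 2) Ω))
    (algebraMap (MvPolynomial (Fin 2) Ω) _ (MvPolynomial.X 0))
    (algebraMap (MvPolynomial (Fin 2) Ω) _ (MvPolynomial.X 1))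
  apply IsFractionRing.injective (MvPolynomial (Fin 2) Ω) (FractionRing (MvPolynomial (Fin 2) Ω))
  have h1 : algebraMap (MvPolynomial (Fin 2) Ω) (FractionRing (MvPolynomial (Fin 2) Ω)) f =
      MvPolynomial.aeval ![algebraMap (MvPolynomial (Fin 2) Ω) _ (MvPolynomial.X 0),
        algebraMap (MvPolynomial (Fin 2) Ω) _ (MvPolynomial.X 1)] f := by
    have h2 : (IsScalarTower.toAlgHom Ω (MvPolynomial (Fin 2) Ω)
        (FractionRing (MvPolynomial (Fin 2) Ω))) = MvPolynomial.aeval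
          ![algebraMap (MvPolynomial (Fin 2) Ω) _ (MvPolynomial.X 0),
        algebraMap (MvPolynomial (Fin 2) Ω) _ (MvPolynomial.X 1)] := by
      apply MvPolynomial.algHom_ext
      intro i
      fin_cases i <;> simp
    rw [← h2]
    rfl
  rw [h1, h]
  unfold pol76 Fv
  rw [map_sum]
  refine Finset.sum_congr rfl fun i _ => ?_
  rw [map_sum]
  refine Finset.sum_congr rfl fun j _ => ?_
  rw [map_mul, map_mul, map_pow, map_pow,
    IsScalarTower.algebraMap_apply Ω (MvPolynomial (Fin 2) Ω)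
      (FractionRing (MvPolynomial (Fin 2) Ω)), MvPolynomial.algebraMap_eq]

private theorem aeval_pol76 (c : ℕ → ℕ → Ω) (a b : E) :
    MvPolynomial.aeval ![a, b] (pol76 c) = Fv c a b := by
  unfold pol76 Fv
  simp

private theorem dx76 (c : ℕ → ℕ → Ω) (a b : E) :
    MvPolynomial.aeval ![a, b] (MvPolynomial.pderiv 0 (pol76 c)) = Fv (dvx c) a b := by
  unfold pol76 Fv dvx
  simp only [Finset.sum_range_succ, Finset.sum_range_zero]
  simp
  simp only [map_ofNat]
  ring

private theorem dy76 (c : ℕ → ℕ → Ω) (a b : E) :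
    MvPolynomial.aeval ![a, b] (MvPolynomial.pderiv 1 (pol76 c)) = Fv (dvy c) a b := by
  unfold pol76 Fv dvy
  simp only [Finset.sum_range_succ, Finset.sum_range_zero]
  simp
  simp only [map_ofNat]
  ring

private theorem main76 [IsAlgClosed Ω] [IsAlgClosed E] (h2 : (2 : E) ≠ 0) (n : ℕ) :
    ∀ (f : MvPolynomial (Fin 2) Ω), f.totalDegree ≤ n → f.totalDegree ≤ 4 → ∀ (x y r : E),
    r ^ 2 = MvPolynomial.aeval ![x, y] f →
    ∃ (S : Finset E) (θ : E), S.card ≤ 1 ∧ x ∈ adjoin Ω (Acl Ω (S : Set E) ∪ {θ}) ∧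
      y ∈ adjoin Ω (Acl Ω (S : Set E) ∪ {θ}) ∧ r ∈ adjoin Ω (Acl Ω (S : Set E) ∪ {θ}) := by
  classical
  induction n using Nat.strong_induction_on with
  | _ n ih =>
  intro f hn hf x y r hr
  by_cases hr0 : r = 0
  · refine ⟨{x}, y, by simp, ?_, ?_, ?_⟩
    · rw [Finset.coe_singleton]
      exact mem76 (subset_AF _ (Set.mem_singleton x))
    · exact subset_adjoin Ω _ (Or.inr rfl)
    · rw [hr0]
      exact zero_mem _
  have hf0 : f ≠ 0 := by
    rintro rfl
    apply hr0
    rw [map_zero] at hr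
    exact pow_eq_zero_iff (two_ne_zero) |>.1 hr
  by_cases hsq : Squarefree f
  · obtain ⟨c, hc⟩ := exists_Fv f hf
    have hfc := eq_pol76 f c hc
    have h2Ω : (2 : Ω) ≠ 0 := by
      intro h
      apply h2
      have h3 := congrArg (algebraMap Ω E) h
      rw [map_ofNat, map_zero] at h3
      exact h3
    have hs : ∀ a b : E, Fv c a b = 0 → Fv (dvx c) a b = 0 → Fv (dvy c) a b = 0 →
        IsAlgebraic Ω a ∧ IsAlgebraic Ω b := by
      intro a b h0 hx hy
      refine sing h2Ω f hf hsq a b ?_ ?_ ?_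
      · rw [hc E a b]; exact h0
      · rw [hfc, dx76]; exact hx
      · rw [hfc, dy76]; exact hy
    rw [hc E x y] at hr
    obtain ⟨α, β, hαβ, H⟩ := direction c x y 0 1
    rcases hαβ with rfl | ⟨rfl, rfl⟩
    · simp only [one_mul (_ : E)] at H
      exact core76 h2 c x y r β hr0 hr hs (by simpa only [one_mul] using H)
    · have hd1 : ∀ a b : E, Fv (dvx fun i j => c j i) a b = Fv (dvy c) b a := by
        intro a b
        rw [Fv_swap (dvy c)]
        congr 1
        funext i j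
        simp only [dvx, dvy, add_comm]
      have hd2 : ∀ a b : E, Fv (dvy fun i j => c j i) a b = Fv (dvx c) b a := by
        intro a b
        rw [Fv_swap (dvx c)]
        congr 1
        funext i j
        simp only [dvx, dvy, add_comm]
      have hd0 : ∀ a b : E, Fv (fun i j => c j i) a b = Fv c b a := fun a b =>
        (Fv_swap c b a).symm
      obtain ⟨S, θ, h1, h3, h4, h5⟩ := core76 h2 (fun i j => c j i) y x r 0 hr0
        (by rw [hd0]; exact hr)
        (fun a b k0 k1 k2 => by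
          rw [hd0] at k0
          rw [hd1] at k1
          rw [hd2] at k2
          exact (hs b a k0 k2 k1).symm)
        (by
          simp only [hd0]
          simpa only [one_mul, zero_mul, add_zero, zero_add] using H)
      exact ⟨S, θ, h1, h4, h3, h5⟩
  · unfold Squarefree at hsq
    push Not at hsq
    obtain ⟨g, ⟨h, hgh⟩, hg⟩ := hsq
    have hg0 : g ≠ 0 := by
      rintro rfl
      apply hf0
      rw [hgh]
      simp
    have hh0 : h ≠ 0 := by
      rintro rfl
      apply hf0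
      rw [hgh]
      simp
    have hdg : 0 < g.totalDegree := by
      rw [Nat.pos_iff_ne_zero]
      intro h0
      apply hg
      rw [MvPolynomial.totalDegree_eq_zero_iff_eq_C] at h0
      rw [h0]
      have h1 : g.coeff 0 ≠ 0 := by
        intro h1
        apply hg0
        rw [h0, h1, map_zero]
      exact (IsUnit.mk0 _ h1).map MvPolynomial.C
    have hdf : f.totalDegree = g.totalDegree + g.totalDegree + h.totalDegree := by
      rw [hgh, MvPolynomial.totalDegree_mul_of_isDomain (mul_ne_zero hg0 hg0) hh0,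
        MvPolynomial.totalDegree_mul_of_isDomain hg0 hg0]
    have hgv : MvPolynomial.aeval ![x, y] g ≠ 0 := by
      intro h0
      apply hr0
      rw [hgh, map_mul, map_mul, h0] at hr
      simp only [zero_mul] at hr
      exact pow_eq_zero_iff (two_ne_zero) |>.1 hr
    obtain ⟨S, θ, h1, h3, h4, h5⟩ := ih h.totalDegree (by omega) h le_rfl (by omega) x y
      (r / MvPolynomial.aeval ![x, y] g) (by
        rw [div_pow, hr, hgh, map_mul, map_mul]
        field_simp)
    refine ⟨S, θ, h1, h3, h4, ?_⟩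
    obtain ⟨d, hd⟩ := exists_Fv g (by omega)
    have h6 : r = r / MvPolynomial.aeval ![x, y] g * MvPolynomial.aeval ![x, y] g := by
      field_simp
    rw [h6]
    refine mul_mem h5 ?_
    rw [hd E x y]
    exact Fv_mem d _ h3 h4

theorem uni_surface [IsAlgClosed Ω] [IsAlgClosed E] (h2 : (2 : E) ≠ 0)
    (f : MvPolynomial (Fin 2) Ω) (hf : f.totalDegree ≤ 4) (x y r : E)
    (hr : r ^ 2 = MvPolynomial.aeval ![x, y] f) :
    ∃ (S : Finset E) (θ : E), S.card ≤ 1 ∧ x ∈ adjoin Ω (Acl Ω (S : Set E) ∪ {θ}) ∧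
      y ∈ adjoin Ω (Acl Ω (S : Set E) ∪ {θ}) ∧ r ∈ adjoin Ω (Acl Ω (S : Set E) ∪ {θ}) :=
  main76 h2 f.totalDegree f le_rfl hf x y r hr

end Pool.Agent.Helper75.QC
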