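import Pool.Agent.Helper75.QC.Kummer
import Pool.Agent.Helper75.QC.UniC

/-! Block QC-14. Classes with `σ^2 t = t` vanish.

Proof. `n` odd: `N0 = Ω(x, y)`, `kummer_gal`, every `τ` over `N0` is `σ^j` (`hom_ext`), `σ^n = 1`
and `σ^2 t = t` give `σ t = t`, so `t` comes from `H 2 N0` (`descent`), and `N0` is uniruled:
`E = K`, `S = {x}`, `θ = y`. `n` even (so the characteristic is not two):
`N0 = Ω(x, y, w^(n/2))`, every `τ` over `N0` is `σ^j` with `ζ^(j n/2) = 1`, so `j` is even and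
`τ t = t`; `N0` is uniruled by `uni_surface` in `AlgebraicClosure K` with `r = w^(n/2)`. -/

set_option autoImplicit false

namespace Pool.Agent.Helper75.QC

open IntermediateField

/-- the powers of an endomorphism -/
theorem tmap_pow75 {Ω L : Type} [Field Ω] [Field L] (T : BaseTheory Ω L) {K : Type} [Field K]
    [Algebra Ω K] (i : ℕ) (σ : K →ₐ[Ω] K) (j : ℕ) : T.map i (σ ^ j) = T.map i σ ^ j := by
  induction j with
  | zero =>
    rw [pow_zero, pow_zero]
    exact T.map_id i K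
  | succ j ih =>
    rw [pow_succ, pow_succ, ← ih]
    exact T.map_comp i σ (σ ^ j)

theorem pow_fix75 {K : Type} [Field K] {Ω : Type} [Field Ω] [Algebra Ω K] (σ : K →ₐ[Ω] K) (x : K)
    (h : σ x = x) (j : ℕ) : (σ ^ j) x = x := by
  induction j with
  | zero => rfl
  | succ j ih =>
    rw [pow_succ]
    show (σ ^ j) (σ x) = x
    rw [h, ih]

theorem pow_scale75 {K : Type} [Field K] {Ω : Type} [Field Ω] [Algebra Ω K] (σ : K →ₐ[Ω] K) (w : K)
    (ζ : Ω) (h : σ w = algebraMap Ω K ζ * w) (j : ℕ) : (σ ^ j) w = algebraMap Ω K ζ ^ j * w := by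
  induction j with
  | zero => simp
  | succ j ih =>
    rw [pow_succ]
    show (σ ^ j) (σ w) = _
    rw [h, _root_.map_mul, ih, AlgHom.commutes]
    ring

/-- every `τ` over `N0 ∋ x, y` is a power of `σ` -/
theorem tau_eq75 {Ω : Type} [Field Ω] {K : Type} [Field K] [Algebra Ω K]
    (N : IntermediateField Ω K) (x y w : K) (hK : adjoin Ω {x, y, w} = ⊤) (hx : x ∈ N)
    (hy : y ∈ N) (ζ : Ω) (σ : K →ₐ[Ω] K)
    (hσ : σ x = x ∧ σ y = y ∧ σ w = algebraMap Ω K ζ * w) (τ : K →ₐ[N] K) (j : ℕ)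
    (hj : τ w = algebraMap Ω K ζ ^ j * w) : τ.restrictScalars Ω = σ ^ j := by
  apply hom_ext _ hK
  intro s hs
  simp only [Set.mem_insert_iff, Set.mem_singleton_iff] at hs
  rcases hs with rfl | rfl | rfl
  · rw [pow_fix75 σ _ hσ.1 j]
    exact τ.commutes ⟨_, hx⟩
  · rw [pow_fix75 σ _ hσ.2.1 j]
    exact τ.commutes ⟨_, hy⟩
  · rw [pow_scale75 σ _ ζ hσ.2.2 j]
    exact hj

/-- Classes with `σ^d t = t`, `n = d m`, come from `Ω(x, y, w^m)`. -/
theorem eigen_zero_gen {Ω L : Type} [Field Ω] [Field L] (T : BaseTheory Ω L) {n d m : ℕ}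
    (hn : 0 < n) (hn' : (n : Ω) ≠ 0) (hdm : n = d * m) {ζ : Ω} (hζ : IsPrimitiveRoot ζ n)
    {K : Type} [Field K] [Algebra Ω K] (x y w : K) (hK : adjoin Ω {x, y, w} = ⊤) (hw0 : w ≠ 0)
    (hw : w ^ n ∈ adjoin Ω {x, y}) (σ : K →ₐ[Ω] K)
    (hσ : σ x = x ∧ σ y = y ∧ σ w = algebraMap Ω K ζ * w)
    (huni : Uniruled Ω (adjoin Ω {x, y, w ^ m} : IntermediateField Ω K) 2) (t : T.H 2 K)
    (ht : (T.map 2 σ ^ d) t = t) : t = 0 := by
  have hev : ∀ k : ℕ, (T.map 2 σ ^ (d * k)) t = t := by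
    intro k
    induction k with
    | zero => simp
    | succ k ih => rw [Nat.mul_succ, pow_add, Module.End.mul_apply, ht, ih]
  have htop : ∀ M : IntermediateField Ω K, x ∈ M → y ∈ M → w ∈ M → M = ⊤ := by
    intro M hx hy hw
    rw [eq_top_iff, ← hK, adjoin_le_iff]
    intro s hs
    simp only [Set.mem_insert_iff, Set.mem_singleton_iff] at hs
    rcases hs with rfl | rfl | rfl <;> assumption
  set N0 : IntermediateField Ω K := adjoin Ω {x, y, w ^ m} with hN0
  have hx : x ∈ N0 := subset_adjoin Ω _ (by simp)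
  have hy : y ∈ N0 := subset_adjoin Ω _ (by simp)
  have hwm : w ^ m ∈ N0 := subset_adjoin Ω _ (by simp)
  have hwn : w ^ n ∈ N0 := by
    have h1 : adjoin Ω {x, y} ≤ N0 := by
      rw [adjoin_le_iff]
      intro s hs
      simp only [Set.mem_insert_iff, Set.mem_singleton_iff] at hs
      rcases hs with rfl | rfl <;> assumption
    exact h1 hw
  obtain ⟨g1, g2, g3⟩ := kummer_gal N0 hn hn' hζ w hw0 hwn
    (fun M h1 h2 => htop M (h1 hx) (h1 hy) h2)
  have hfix : ∀ τ : K →ₐ[N0] K, T.map 2 (τ.restrictScalars Ω) t = t := by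
    intro τ
    obtain ⟨j, hj⟩ := g3 τ
    rw [tau_eq75 N0 x y w hK hx hy ζ σ hσ τ j hj, tmap_pow75]
    have h3 : τ (w ^ m) = w ^ m := τ.commutes ⟨_, hwm⟩
    rw [_root_.map_pow, hj, mul_pow, ← pow_mul] at h3
    have h4 : algebraMap Ω K (ζ ^ (j * m)) = 1 := by
      rw [_root_.map_pow]
      exact mul_right_cancel₀ (pow_ne_zero m hw0) (h3.trans (one_mul _).symm)
    have h5 : ζ ^ (j * m) = 1 := by
      apply (algebraMap Ω K).injective
      rw [h4, _root_.map_one]
    have h6 := hζ.dvd_of_pow_eq_one _ h5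
    rw [hdm] at h6
    have hm0 : 0 < m := by
      rcases Nat.eq_zero_or_pos m with h | h
      · rw [hdm, h, mul_zero] at hn
        exact absurd hn (lt_irrefl 0)
      · exact h
    have h7 : d ∣ j := Nat.dvd_of_mul_dvd_mul_right hm0 h6
    obtain ⟨k, rfl⟩ := h7
    exact hev k
  obtain ⟨s, hs⟩ := T.descent 2 K N0 t hfix
  rw [← hs, T.uniruled 2 N0 huni s, _root_.map_zero]

/-- the invariants of `σ` -/
theorem sigma_order75 {Ω : Type} [Field Ω] {K : Type} [Field K] [Algebra Ω K] {n : ℕ} {ζ : Ω}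
    (hζ : ζ ^ n = 1) (x y w : K) (hK : adjoin Ω {x, y, w} = ⊤) (σ : K →ₐ[Ω] K)
    (hσ : σ x = x ∧ σ y = y ∧ σ w = algebraMap Ω K ζ * w) : σ ^ n = 1 := by
  apply hom_ext _ hK
  intro s hs
  simp only [Set.mem_insert_iff, Set.mem_singleton_iff] at hs
  rcases hs with rfl | rfl | rfl
  · exact pow_fix75 σ _ hσ.1 n
  · exact pow_fix75 σ _ hσ.2.1 n
  · rw [pow_scale75 σ _ ζ hσ.2.2 n, ← _root_.map_pow, hζ, _root_.map_one, one_mul]
    rfl

/-- a field generated by two elements over `Ω` (and one in it) is uniruled -/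
theorem uni_plane75 {Ω : Type} [Field Ω] {K : Type} [Field K] [Algebra Ω K] (x y z : K)
    (hz : z ∈ adjoin Ω {x, y}) :
    Uniruled Ω (adjoin Ω {x, y, z} : IntermediateField Ω K) 2 := by
  refine ⟨K, inferInstance, inferInstance, (adjoin Ω {x, y, z}).val, {x}, y, by simp, ?_⟩
  intro k
  have hle0 : adjoin Ω {x, y} ≤ adjoin Ω (Acl Ω (({x} : Finset K) : Set K) ∪ {y}) := by
    rw [adjoin_le_iff]
    intro s hs
    simp only [Set.mem_insert_iff, Set.mem_singleton_iff] at hs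
    rcases hs with rfl | rfl
    · apply subset_adjoin
      left
      rw [← coe_AF]
      apply subset_AF
      simp
    · apply subset_adjoin
      right
      simp
  have hle : (adjoin Ω {x, y, z} : IntermediateField Ω K) ≤
      adjoin Ω (Acl Ω (({x} : Finset K) : Set K) ∪ {y}) := by
    rw [adjoin_le_iff]
    intro s hs
    simp only [Set.mem_insert_iff, Set.mem_singleton_iff] at hs
    rcases hs with rfl | rfl | rfl
    · exact hle0 (subset_adjoin _ _ (by simp))
    · exact hle0 (subset_adjoin _ _ (by simp))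
    · exact hle0 hz
  exact hle k.2

/-- the field `Ω(x, y, r)`, `r^2 = f(x, y)`, is uniruled -/
theorem uni_double75 {Ω : Type} [Field Ω] [IsAlgClosed Ω] (h2 : (2 : Ω) ≠ 0)
    (f : MvPolynomial (Fin 2) Ω) (hf : f.totalDegree ≤ 4) {K : Type} [Field K] [Algebra Ω K]
    (x y r : K) (hr : r ^ 2 = MvPolynomial.aeval ![x, y] f) :
    Uniruled Ω (adjoin Ω {x, y, r} : IntermediateField Ω K) 2 := by
  let E := AlgebraicClosure K
  have h2E : (2 : E) ≠ 0 := by
    intro h
    apply h2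
    apply (algebraMap Ω E).injective
    rw [_root_.map_ofNat, h, _root_.map_zero]
  let ι : K →ₐ[Ω] E := IsScalarTower.toAlgHom Ω K E
  obtain ⟨S, θ, hS, e1, e2, e3⟩ := uni_surface h2E f hf (ι x) (ι y) (ι r) (by
    rw [← _root_.map_pow, hr, MvPolynomial.aeval_def,
      MvPolynomial.aeval_def, MvPolynomial.eval₂_eq', MvPolynomial.eval₂_eq', _root_.map_sum]
    refine Finset.sum_congr rfl fun d _ => ?_
    rw [_root_.map_mul, AlgHom.commutes, _root_.map_prod]
    congr 1
    refine Finset.prod_congr rfl fun i _ => ?_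
    rw [_root_.map_pow]
    fin_cases i <;> rfl)
  refine ⟨E, inferInstance, inferInstance, ι.comp (adjoin Ω {x, y, r}).val, S, θ, by omega, ?_⟩
  intro k
  have hle : (adjoin Ω {x, y, r} : IntermediateField Ω K) ≤
      (adjoin Ω (Acl Ω (S : Set E) ∪ {θ})).comap ι := by
    rw [adjoin_le_iff]
    intro s hs
    simp only [Set.mem_insert_iff, Set.mem_singleton_iff] at hs
    rcases hs with rfl | rfl | rfl
    · exact e1
    · exact e2
    · exact e3
  exact hle k.2

theorem eigen_zero {Ω L : Type} [Field Ω] [IsAlgClosed Ω] [Field L]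
    (T : BaseTheory Ω L) (f : MvPolynomial (Fin 2) Ω) (hf : f.totalDegree ≤ 4) {n : ℕ}
    (hn : 0 < n) (hn' : (n : Ω) ≠ 0) {ζ : Ω} (hζ : IsPrimitiveRoot ζ n) {K : Type} [Field K]
    [Algebra Ω K] (x y w : K) (hK : adjoin Ω {x, y, w} = ⊤) (hw0 : w ≠ 0)
    (hw : w ^ n = MvPolynomial.aeval ![x, y] f) (σ : K →ₐ[Ω] K)
    (hσ : σ x = x ∧ σ y = y ∧ σ w = algebraMap Ω K ζ * w) (t : T.H 2 K)
    (ht : T.map 2 σ (T.map 2 σ t) = t) : t = 0 := by
  have hfxy : w ^ n ∈ adjoin Ω {x, y} := by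
    rw [hw]
    have hx : x ∈ adjoin Ω {x, y} := subset_adjoin Ω _ (by simp)
    have hy : y ∈ adjoin Ω {x, y} := subset_adjoin Ω _ (by simp)
    have h1 : MvPolynomial.aeval ![x, y] f = algebraMap (adjoin Ω {x, y}) K
        (MvPolynomial.aeval ![(⟨x, hx⟩ : adjoin Ω {x, y}), ⟨y, hy⟩] f) := by
      rw [← MvPolynomial.aeval_algebraMap_apply]
      congr 2
      ext i
      fin_cases i <;> rfl
    rw [h1]
    exact (MvPolynomial.aeval ![(⟨x, hx⟩ : adjoin Ω {x, y}), ⟨y, hy⟩] f).2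
  rcases Nat.even_or_odd n with he | ho
  · -- `n` even
    obtain ⟨m, hm⟩ := he
    have hm' : n = 2 * m := by omega
    have h2 : (2 : Ω) ≠ 0 := by
      intro h
      apply hn'
      rw [hm']
      push_cast
      rw [h, zero_mul]
    refine eigen_zero_gen T hn hn' hm' hζ x y w hK hw0 hfxy σ hσ
      (uni_double75 h2 f hf x y (w ^ m) (by rw [← pow_mul, mul_comm m 2, ← hm', hw])) t ?_
    rw [pow_two, Module.End.mul_apply]
    exact ht
  · -- `n` odd
    obtain ⟨m, hm⟩ := ho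
    have h1 : σ ^ n = 1 := sigma_order75 hζ.pow_eq_one x y w hK σ hσ
    have hev : ∀ k : ℕ, (T.map 2 σ ^ (2 * k)) t = t := by
      intro k
      induction k with
      | zero => simp
      | succ k ih =>
        rw [show 2 * (k + 1) = 2 * k + 1 + 1 by ring, pow_succ, pow_succ, Module.End.mul_apply,
          Module.End.mul_apply, ht, ih]
    have h2 : T.map 2 σ t = t := by
      have h3 : (T.map 2 σ ^ n) t = t := by
        rw [← tmap_pow75, h1]
        show T.map 2 (AlgHom.id Ω K) t = t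
        rw [T.map_id]
        rfl
      rw [hm, pow_succ', Module.End.mul_apply, hev] at h3
      exact h3
    refine eigen_zero_gen T hn hn' (one_mul n).symm hζ x y w hK hw0 hfxy σ hσ
      (uni_plane75 x y (w ^ n) hfxy) t ?_
    rw [pow_one]
    exact h2

end Pool.Agent.Helper75.QC
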