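import Pool.Agent.Helper75.QC.Base

/-! Block QC-4. Algebraic dependence, elementary.

`dep`: a nonzero polynomial of degree at most four vanishes at `(a, b)`. If `∑ c i j X^i b^j` is not
zero as a polynomial in `X` then `a` is algebraic over `Ω(b)`, take `e = b`. Otherwise for some `i`
the nonzero polynomial `∑ c i j Y^j` vanishes at `b`, so `b` is algebraic over `Ω`, take `e = a`.
`root_const`: `Ω` is algebraically closed, a root in `E` of a nonzero polynomial over `Ω` is in `Ω`.
`Fv_mem`: clear. `dvx`, `dvy`: the partial derivatives; `Fv_line`: Taylor expansion along a line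
(`ring` after `Finset.sum_range_succ`). -/

set_option autoImplicit false

namespace Pool.Agent.Helper75.QC

open IntermediateField

variable {Ω E : Type} [Field Ω] [Field E] [Algebra Ω E]

/-- coefficients of the derivative with respect to `x` -/
def dvx (c : ℕ → ℕ → Ω) (i j : ℕ) : Ω := if i + j ≤ 3 then ((i : Ω) + 1) * c (i + 1) j else 0

/-- coefficients of the derivative with respect to `y` -/
def dvy (c : ℕ → ℕ → Ω) (i j : ℕ) : Ω := if i + j ≤ 3 then ((j : Ω) + 1) * c i (j + 1) else 0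

theorem Fv_mem (c : ℕ → ℕ → Ω) (M : IntermediateField Ω E) {x y : E} (hx : x ∈ M) (hy : y ∈ M) :
    Fv c x y ∈ M := by
  unfold Fv
  exact sum_mem fun i _ => sum_mem fun j _ =>
    mul_mem (mul_mem (M.algebraMap_mem _) (pow_mem hx i)) (pow_mem hy j)

theorem dep (c : ℕ → ℕ → Ω) (hc : ∃ i j, i + j ≤ 4 ∧ c i j ≠ 0) (a b : E) (h : Fv c a b = 0) :
    ∃ e : E, a ∈ AF Ω {e} ∧ b ∈ AF Ω {e} := by
  classical
  -- the coefficients of the powers of the first variable
  set g : ℕ → E := fun i => ∑ j ∈ Finset.range (5 - i), algebraMap Ω E (c i j) * b ^ j with hg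
  have hgm : ∀ i, g i ∈ adjoin Ω ({b} : Set E) := fun i =>
    sum_mem fun j _ => mul_mem ((adjoin Ω ({b} : Set E)).algebraMap_mem _)
      (pow_mem (mem_adjoin_simple_self Ω b) j)
  have hsum : ∑ i ∈ Finset.range 5, g i * a ^ i = 0 := by
    rw [← h]
    unfold Fv
    refine Finset.sum_congr rfl fun i _ => ?_
    rw [hg]
    simp only
    rw [Finset.sum_mul]
    exact Finset.sum_congr rfl fun j _ => by ring
  by_cases hz : ∀ i < 5, g i = 0
  · obtain ⟨i, j, hij, hcij⟩ := hc
    refine ⟨a, subset_AF _ rfl, ?_⟩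
    have hi := hz i (by omega)
    set Q : Polynomial Ω := ∑ j ∈ Finset.range (5 - i), Polynomial.monomial j (c i j) with hQ
    have hQ0 : Q ≠ 0 := by
      intro h0
      have h1 : Q.coeff j = c i j := by
        rw [hQ, Polynomial.finsetSum_coeff]
        simp only [Polynomial.coeff_monomial]
        rw [Finset.sum_ite_eq' (Finset.range (5 - i)) j, if_pos (Finset.mem_range.2 (by omega))]
      rw [h0, Polynomial.coeff_zero] at h1
      exact hcij h1.symm
    have hQb : Polynomial.aeval b Q = 0 := by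
      rw [hQ, map_sum, ← hi, hg]
      exact Finset.sum_congr rfl fun j _ => Polynomial.aeval_monomial _
    have h2 : IsAlgebraic Ω b := ⟨Q, hQ0, hQb⟩
    exact mem_AF.2 (h2.tower_top (adjoin Ω ({a} : Set E)))
  · push Not at hz
    obtain ⟨i, hi, hi0⟩ := hz
    refine ⟨b, ?_, subset_AF _ rfl⟩
    refine mem_AF.2 ?_
    set P : Polynomial (adjoin Ω ({b} : Set E)) :=
      ∑ i ∈ Finset.range 5, Polynomial.monomial i (⟨g i, hgm i⟩ : adjoin Ω ({b} : Set E)) with hP
    refine ⟨P, ?_, ?_⟩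
    · intro h0
      have h1 : P.coeff i = (⟨g i, hgm i⟩ : adjoin Ω ({b} : Set E)) := by
        rw [hP, Polynomial.finsetSum_coeff]
        simp only [Polynomial.coeff_monomial]
        rw [Finset.sum_ite_eq' (Finset.range 5) i, if_pos (Finset.mem_range.2 hi)]
      rw [h0, Polynomial.coeff_zero] at h1
      exact hi0 (congrArg Subtype.val h1).symm
    · rw [hP, map_sum, ← hsum]
      exact Finset.sum_congr rfl fun i _ => Polynomial.aeval_monomial _

theorem root_const [IsAlgClosed Ω] (P : Polynomial Ω) (hP : P ≠ 0) (β : E)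
    (h : Polynomial.aeval β P = 0) : ∃ b : Ω, β = algebraMap Ω E b := by
  have h1 : IsIntegral Ω β := IsAlgebraic.isIntegral ⟨P, hP, h⟩
  have h2 := IsAlgClosed.degree_eq_one_of_irreducible Ω (minpoly.irreducible h1)
  obtain ⟨b, hb⟩ := minpoly.mem_range_of_degree_eq_one Ω β h2
  exact ⟨b, hb.symm⟩

/-- the coefficient of `t ^ k` in `(a + t) ^ i * (b + β * t) ^ j` -/
private def mm (i j k : ℕ) (a b β : E) : E :=
  ∑ p ∈ Finset.range (k + 1), (Nat.choose i p : E) * (Nat.choose j (k - p) : E) * a ^ (i - p) *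
    b ^ (j - (k - p)) * β ^ (k - p)

private theorem mm_mem (i j k : ℕ) (M : IntermediateField Ω E) {a b β : E} (ha : a ∈ M)
    (hb : b ∈ M) (hβ : β ∈ M) : mm i j k a b β ∈ M :=
  sum_mem fun _ _ => mul_mem (mul_mem (mul_mem (mul_mem (IntermediateField.natCast_mem M _)
    (IntermediateField.natCast_mem M _)) (pow_mem ha _)) (pow_mem hb _)) (pow_mem hβ _)

/-- the coefficient of `t ^ k` along the line -/
private def GG (c : ℕ → ℕ → Ω) (k : ℕ) (a b β : E) : E :=
  ∑ i ∈ Finset.range 5, ∑ j ∈ Finset.range (5 - i), algebraMap Ω E (c i j) * mm i j k a b β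

private theorem GG_mem (c : ℕ → ℕ → Ω) (k : ℕ) (M : IntermediateField Ω E) {a b β : E}
    (ha : a ∈ M) (hb : b ∈ M) (hβ : β ∈ M) : GG c k a b β ∈ M :=
  sum_mem fun i _ => sum_mem fun j _ => mul_mem (M.algebraMap_mem _) (mm_mem i j k M ha hb hβ)

private theorem mono_line (i j : ℕ) (h : i + j ≤ 4) (a b β t : E) :
    (a + t) ^ i * (b + β * t) ^ j = a ^ i * b ^ j +
      ((i : E) * a ^ (i - 1) * b ^ j + β * ((j : E) * a ^ i * b ^ (j - 1))) * t +
        mm i j 2 a b β * t ^ 2 + mm i j 3 a b β * t ^ 3 + mm i j 4 a b β * t ^ 4 := by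
  have hi : i ≤ 4 := by omega
  have hj : j ≤ 4 - i := by omega
  interval_cases i <;> interval_cases j <;>
    simp [mm, Finset.sum_range_succ, Nat.choose] <;> ring

private theorem Fv_dvx (c : ℕ → ℕ → Ω) (a b : E) : Fv (dvx c) a b =
    ∑ i ∈ Finset.range 5, ∑ j ∈ Finset.range (5 - i),
      algebraMap Ω E (c i j) * ((i : E) * a ^ (i - 1) * b ^ j) := by
  have h2 : algebraMap Ω E 2 = 2 := map_ofNat _ 2
  have h3 : algebraMap Ω E 3 = 3 := map_ofNat _ 3
  simp [Fv, dvx, Finset.sum_range_succ, h2, h3]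
  ring

private theorem Fv_dvy (c : ℕ → ℕ → Ω) (a b : E) : Fv (dvy c) a b =
    ∑ i ∈ Finset.range 5, ∑ j ∈ Finset.range (5 - i),
      algebraMap Ω E (c i j) * ((j : E) * a ^ i * b ^ (j - 1)) := by
  have h2 : algebraMap Ω E 2 = 2 := map_ofNat _ 2
  have h3 : algebraMap Ω E 3 = 3 := map_ofNat _ 3
  simp [Fv, dvy, Finset.sum_range_succ, h2, h3]
  ring

/-- the quadratic, cubic and quartic coefficients along the line through `(a, b)` with the direction
`(1, β)` are polynomials in `a, b, β`, hence in every field which contains `a, b, β` -/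
theorem Fv_line (c : ℕ → ℕ → Ω) (M : IntermediateField Ω E) {a b β : E} (ha : a ∈ M) (hb : b ∈ M)
    (hβ : β ∈ M) : ∃ G2 ∈ M, ∃ G3 ∈ M, ∃ G4 ∈ M, ∀ t : E, Fv c (a + t) (b + β * t) =
      Fv c a b + (Fv (dvx c) a b + β * Fv (dvy c) a b) * t + G2 * t ^ 2 + G3 * t ^ 3 +
        G4 * t ^ 4 := by
  refine ⟨GG c 2 a b β, GG_mem c 2 M ha hb hβ, GG c 3 a b β, GG_mem c 3 M ha hb hβ,
    GG c 4 a b β, GG_mem c 4 M ha hb hβ, fun t => ?_⟩
  rw [Fv_dvx, Fv_dvy]
  unfold Fv GG
  simp only [Finset.mul_sum, Finset.sum_mul, ← Finset.sum_add_distrib, add_mul]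
  refine Finset.sum_congr rfl fun i hi => Finset.sum_congr rfl fun j hj => ?_
  have h : i + j ≤ 4 := by
    rw [Finset.mem_range] at hi hj
    omega
  rw [mul_assoc, mono_line i j h a b β t]
  ring

end Pool.Agent.Helper75.QC
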