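import Pool.Agent.Helper75.QC.Dir
import Pool.Agent.Helper75.QC.Conic
import Pool.Agent.Helper75.QC.Dep

/-! Block QC-6. The threefold `v^2 + v = κ(τ) f(x, y)`, `deg f ≤ 4`, characteristic two, is uniruled.

Proof. `direction3` gives `(α, β)` with `α = 1` or `(0, 1)`. Let `α = 1`. Let `e = y - β x`. For all
`X`: `Fv c X (e + β X) = A0 + A1 (X - x) + A2 (X - x)^2 + A4 (X - x)^4`, and
`(X - x)^4 = X^4 + x^4`, `(X - x)^2 = X^2 + x^2`, so it is `B0 + B1 X + B2 X^2 + B4 X^4`, with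
coefficients in every field which contains `e, β` (`Fv_line` with `a = 0`, `b = e`: the coefficient
of `X^3` vanishes). So if `AF Ω S` contains `e, β, τ`, `artin_schreier` gives the claim. The
coefficient of `X^3` is `Q(β) + e R(β)`, `Q = ∑_(i+j=3) c i j Y^j`, `R = ∑_(i+j=4) j c i j Y^(j-1)`
(polynomials over `Ω`). If `R(β) ≠ 0` then `e ∈ AF Ω {β}`: `S = {β, τ}`. If `R(β) = 0` then
`Q(β) = 0`; if `Q ≠ 0` or `R ≠ 0`, `β` comes from `Ω` (`root_const`), `S = {e, τ}`. If `Q = R = 0`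
the coefficient of `X^3` of `Fv c X (e' + β' X)` vanishes for all `e', β'`: take `β' = 0`, `e' = y`,
`S = {y, τ}`. `(0, 1)`: exchange `x` and `y`; it is the direction `(1, 0)`, `0` comes from `Ω`. -/

set_option autoImplicit false

namespace Pool.Agent.Helper75.QC

open IntermediateField

variable {Ω E : Type} [Field Ω] [Field E] [Algebra Ω E]

/-- a quartic polynomial which vanishes everywhere has no cubic term -/
private lemma coef62 [Infinite E] {p0 p1 p2 p3 p4 : E}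
    (h : ∀ t : E, p0 + p1 * t + p2 * t ^ 2 + p3 * t ^ 3 + p4 * t ^ 4 = 0) : p3 = 0 := by
  have h1 : (Polynomial.C p0 + Polynomial.C p1 * Polynomial.X + Polynomial.C p2 * Polynomial.X ^ 2 +
      Polynomial.C p3 * Polynomial.X ^ 3 + Polynomial.C p4 * Polynomial.X ^ 4 : Polynomial E) = 0 := by
    apply Polynomial.funext
    intro t
    simpa using h t
  have h2 := congrArg (fun P => Polynomial.coeff P 3) h1
  simpa [Polynomial.coeff_C, Polynomial.coeff_X, Polynomial.coeff_X_pow] using h2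

private lemma aev62 (a b d f : Ω) (z : E) : Polynomial.aeval z (Polynomial.C a + Polynomial.C b * Polynomial.X +
    Polynomial.C d * Polynomial.X ^ 2 + Polynomial.C f * Polynomial.X ^ 3) =
    algebraMap Ω E a + algebraMap Ω E b * z + algebraMap Ω E d * z ^ 2 + algebraMap Ω E f * z ^ 3 := by
  simp only [map_add, map_mul, map_pow, Polynomial.aeval_C, Polynomial.aeval_X]

private noncomputable def q62 (c : ℕ → ℕ → Ω) (β : E) : E :=
  algebraMap Ω E (c 3 0) + algebraMap Ω E (c 2 1) * β + algebraMap Ω E (c 1 2) * β ^ 2 +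
    algebraMap Ω E (c 0 3) * β ^ 3

private noncomputable def r62 (c : ℕ → ℕ → Ω) (β : E) : E :=
  algebraMap Ω E (c 3 1) + algebraMap Ω E (2 * c 2 2) * β + algebraMap Ω E (3 * c 1 3) * β ^ 2 +
    algebraMap Ω E (4 * c 0 4) * β ^ 3

/-- the expansion of `Fv c X (e + β X)` -/
private lemma exp62 (c : ℕ → ℕ → Ω) (e β : E) : ∃ K0 K1 K2 K4 : E, ∀ X : E,
    Fv c X (e + β * X) = K0 + K1 * X + K2 * X ^ 2 + (q62 c β + e * r62 c β) * X ^ 3 + K4 * X ^ 4 := by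
  obtain ⟨C, hC⟩ : ∃ C : ℕ → ℕ → E, C = fun i j => algebraMap Ω E (c i j) := ⟨_, rfl⟩
  refine ⟨C 0 0 + C 0 1 * e + C 0 2 * e ^ 2 + C 0 3 * e ^ 3 + C 0 4 * e ^ 4,
    C 0 1 * β + 2 * C 0 2 * e * β + 3 * C 0 3 * e ^ 2 * β + 4 * C 0 4 * e ^ 3 * β +
      (C 1 0 + C 1 1 * e + C 1 2 * e ^ 2 + C 1 3 * e ^ 3),
    C 0 2 * β ^ 2 + 3 * C 0 3 * e * β ^ 2 + 6 * C 0 4 * e ^ 2 * β ^ 2 +
      (C 1 1 * β + 2 * C 1 2 * e * β + 3 * C 1 3 * e ^ 2 * β) + (C 2 0 + C 2 1 * e + C 2 2 * e ^ 2),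
    C 0 4 * β ^ 4 + C 1 3 * β ^ 3 + C 2 2 * β ^ 2 + C 3 1 * β + C 4 0, fun X => ?_⟩
  unfold Fv q62 r62
  simp only [Finset.sum_range_succ, Finset.sum_range_zero, zero_add, map_mul, map_ofNat, hC]
  ring

private lemma swap62 (c : ℕ → ℕ → Ω) (x y : E) : Fv c x y = Fv (fun i j => c j i) y x := by
  unfold Fv
  simp only [Finset.sum_range_succ, Finset.sum_range_zero, zero_add]
  ring

/-- the end of the proof -/
private lemma fin62 [IsAlgClosed E] (h2 : (2 : E) = 0) (c : ℕ → ℕ → Ω) {x y τ κ v e β : E}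
    (h0 : κ ∈ AF Ω {τ}) (h : v ^ 2 + v = κ * Fv c x y) (hy : y = e + β * x)
    (hK : q62 c β + e * r62 c β = 0) (a : E) (he : e ∈ AF Ω {a, τ}) (hβ : β ∈ AF Ω {a, τ}) :
    ∃ (S : Finset E) (θ : E), S.card ≤ 2 ∧ x ∈ adjoin Ω (Acl Ω (S : Set E) ∪ {θ}) ∧
      y ∈ adjoin Ω (Acl Ω (S : Set E) ∪ {θ}) ∧ τ ∈ adjoin Ω (Acl Ω (S : Set E) ∪ {θ}) ∧
      v ∈ adjoin Ω (Acl Ω (S : Set E) ∪ {θ}) := by
  classical
  have : Infinite E := IsAlgClosed.instInfinite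
  have hτ : τ ∈ AF Ω ({a, τ} : Set E) := subset_AF _ (by simp)
  have hκ : κ ∈ AF Ω ({a, τ} : Set E) := AF_mono (by simp) h0
  obtain ⟨G2, m2, G3, m3, G4, m4, hG⟩ := Fv_line c (AF Ω ({a, τ} : Set E)) (zero_mem _) he hβ
  obtain ⟨K0, K1, K2, K4, hKe⟩ := exp62 c e β
  have hG3 : G3 = 0 := by
    apply coef62 (p0 := Fv c 0 e - K0) (p1 := Fv (dvx c) 0 e + β * Fv (dvy c) 0 e - K1)
      (p2 := G2 - K2) (p4 := G4 - K4)
    intro t
    have e1 := hG t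
    rw [zero_add, hKe t, hK] at e1
    linear_combination -e1
  have m0 : Fv c 0 e ∈ AF Ω ({a, τ} : Set E) := Fv_mem c _ (zero_mem _) he
  have m1 : Fv (dvx c) 0 e + β * Fv (dvy c) 0 e ∈ AF Ω ({a, τ} : Set E) :=
    add_mem (Fv_mem _ _ (zero_mem _) he) (mul_mem hβ (Fv_mem _ _ (zero_mem _) he))
  obtain ⟨θ, t1, t2⟩ := artin_schreier h2 ({a, τ} : Set E) (x := x) (v := v) (mul_mem hκ m0) (mul_mem hκ m1)
    (mul_mem hκ m2) (mul_mem hκ m4) (by
      have e1 := hG x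
      rw [zero_add, ← hy, hG3] at e1
      rw [h, e1]
      ring)
  have hS : (({a, τ} : Finset E) : Set E) = {a, τ} := by simp
  have hle : ∀ z ∈ AF Ω ({a, τ} : Set E), z ∈ adjoin Ω (Acl Ω ({a, τ} : Set E) ∪ {θ}) := fun z hz =>
    subset_adjoin _ _ (Or.inl (mem_AF.1 hz))
  refine ⟨{a, τ}, θ, Finset.card_le_two, ?_⟩
  rw [hS]
  refine ⟨t1, ?_, hle _ hτ, t2⟩
  rw [hy]
  exact add_mem (hle _ he) (mul_mem (hle _ hβ) t1)

/-- the direction `(1, β)` -/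
private lemma one62 [IsAlgClosed Ω] [IsAlgClosed E] (h2 : (2 : E) = 0) (c : ℕ → ℕ → Ω)
    {x y τ κ v β : E} (h0 : κ ∈ AF Ω {τ}) (h : v ^ 2 + v = κ * Fv c x y) {A0 A1 A2 A4 : E}
    (hA : ∀ t, Fv c (x + t) (y + β * t) = A0 + A1 * t + A2 * t ^ 2 + A4 * t ^ 4) :
    ∃ (S : Finset E) (θ : E), S.card ≤ 2 ∧ x ∈ adjoin Ω (Acl Ω (S : Set E) ∪ {θ}) ∧
      y ∈ adjoin Ω (Acl Ω (S : Set E) ∪ {θ}) ∧ τ ∈ adjoin Ω (Acl Ω (S : Set E) ∪ {θ}) ∧
      v ∈ adjoin Ω (Acl Ω (S : Set E) ∪ {θ}) := by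
  have : Infinite E := IsAlgClosed.instInfinite
  obtain ⟨e, he⟩ : ∃ e : E, e = y - β * x := ⟨_, rfl⟩
  have hy : y = e + β * x := by rw [he]; ring
  obtain ⟨K0, K1, K2, K4, hKe⟩ := exp62 c e β
  have hK : q62 c β + e * r62 c β = 0 := by
    obtain ⟨K3, hK3⟩ : ∃ K3 : E, K3 = q62 c β + e * r62 c β := ⟨_, rfl⟩
    rw [← hK3] at hKe ⊢
    have h1 : K3 + 4 * K4 * x = 0 := by
      apply coef62 (p0 := K0 + K1 * x + K2 * x ^ 2 + K3 * x ^ 3 + K4 * x ^ 4 - A0)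
        (p1 := K1 + 2 * K2 * x + 3 * K3 * x ^ 2 + 4 * K4 * x ^ 3 - A1)
        (p2 := K2 + 3 * K3 * x + 6 * K4 * x ^ 2 - A2) (p4 := K4 - A4)
      intro t
      have e1 := hA t
      have e2 : y + β * t = e + β * (x + t) := by rw [hy]; ring
      rw [e2, hKe (x + t)] at e1
      linear_combination e1
    have h4 : (4 : E) = 0 := by
      have : (4 : E) = 2 * 2 := by norm_num
      rw [this, h2, zero_mul]
    rw [h4] at h1
    simpa using h1
  have hβm : ∀ z : E, β ∈ AF Ω ({β, z} : Set E) := fun z => subset_AF _ (by simp)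
  by_cases hR : r62 c β = 0
  · have hQ : q62 c β = 0 := by simpa [hR] using hK
    obtain ⟨Qp, hQp⟩ : ∃ Qp : Polynomial Ω, Qp = Polynomial.C (c 3 0) + Polynomial.C (c 2 1) * Polynomial.X +
      Polynomial.C (c 1 2) * Polynomial.X ^ 2 + Polynomial.C (c 0 3) * Polynomial.X ^ 3 := ⟨_, rfl⟩
    obtain ⟨Rp, hRp⟩ : ∃ Rp : Polynomial Ω, Rp = Polynomial.C (c 3 1) + Polynomial.C (2 * c 2 2) * Polynomial.X +
      Polynomial.C (3 * c 1 3) * Polynomial.X ^ 2 + Polynomial.C (4 * c 0 4) * Polynomial.X ^ 3 := ⟨_, rfl⟩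
    have hQe : ∀ z : E, Polynomial.aeval z Qp = q62 c z := by
      intro z
      rw [hQp, aev62]
      rfl
    have hRe : ∀ z : E, Polynomial.aeval z Rp = r62 c z := by
      intro z
      rw [hRp, aev62]
      rfl
    by_cases hz : Qp = 0 ∧ Rp = 0
    · -- the direction (1, 0)
      refine fin62 h2 c (e := y) (β := 0) h0 h (by ring) ?_ y (subset_AF _ (by simp)) (zero_mem _)
      rw [← hQe, ← hRe, hz.1, hz.2]
      simp
    · have hb : ∃ b : Ω, β = algebraMap Ω E b := by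
        by_cases hQ0 : Qp = 0
        · have hR0 : Rp ≠ 0 := fun h' => hz ⟨hQ0, h'⟩
          exact root_const Rp hR0 β (by rw [hRe, hR])
        · exact root_const Qp hQ0 β (by rw [hQe, hQ])
      obtain ⟨b, hb⟩ := hb
      refine fin62 h2 c h0 h hy hK e (subset_AF _ (by simp)) ?_
      rw [hb]
      exact (AF Ω ({e, τ} : Set E)).algebraMap_mem b
  · refine fin62 h2 c h0 h hy hK β ?_ (subset_AF _ (by simp))
    have hM : ∀ (a b d f : Ω), algebraMap Ω E a + algebraMap Ω E b * β + algebraMap Ω E d * β ^ 2 +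
        algebraMap Ω E f * β ^ 3 ∈ AF Ω ({β, τ} : Set E) := by
      intro a b d f
      have hm := fun z : Ω => (AF Ω ({β, τ} : Set E)).algebraMap_mem z
      exact add_mem (add_mem (add_mem (hm a) (mul_mem (hm b) (hβm τ))) (mul_mem (hm d) (pow_mem (hβm τ) 2)))
        (mul_mem (hm f) (pow_mem (hβm τ) 3))
    have h1 : e = -(q62 c β) / r62 c β := by
      rw [eq_div_iff hR]
      linear_combination hK
    rw [h1]
    exact div_mem (neg_mem (hM _ _ _ _)) (hM _ _ _ _)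

theorem uni_two [IsAlgClosed Ω] [IsAlgClosed E] (h2 : (2 : E) = 0) (c : ℕ → ℕ → Ω)
    (x y τ κ v : E) (h0 : κ ∈ AF Ω {τ}) (h : v ^ 2 + v = κ * Fv c x y) :
    ∃ (S : Finset E) (θ : E), S.card ≤ 2 ∧ x ∈ adjoin Ω (Acl Ω (S : Set E) ∪ {θ}) ∧
      y ∈ adjoin Ω (Acl Ω (S : Set E) ∪ {θ}) ∧ τ ∈ adjoin Ω (Acl Ω (S : Set E) ∪ {θ}) ∧
      v ∈ adjoin Ω (Acl Ω (S : Set E) ∪ {θ}) := by
  obtain ⟨α, β, hαβ, A0, A1, A2, A4, hA⟩ := direction3 c x y
  rcases hαβ with h1 | ⟨h1, h1'⟩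
  · subst h1
    apply one62 h2 c h0 h (A0 := A0) (A1 := A1) (A2 := A2) (A4 := A4) (β := β)
    intro t
    rw [← hA t, one_mul]
  · subst h1 h1'
    obtain ⟨S, θ, s1, s2, s3, s4, s5⟩ := one62 h2 (fun i j => c j i) (x := y) (y := x) (τ := τ) (v := v)
      (β := 0) h0 (by rw [h, swap62 c x y]) (A0 := A0) (A1 := A1) (A2 := A2) (A4 := A4) (by
        intro t
        rw [← hA t, swap62 c]
        congr 1
        ring)
    exact ⟨S, θ, s1, s3, s2, s4, s5⟩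

end Pool.Agent.Helper75.QC
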