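import Pool.Agent.Helper75.QC.UniA
import Pool.Agent.Helper75.QC.UniB

/-! Block QC-13. The field `Ω(x, y, v, s)`, `v (1 - v) = s^n f(x, y)`, is uniruled.

Proof. In `E = AlgebraicClosure N`. Characteristic two: `v (1 - v) = v^2 + v`, `uni_two` with
`τ = s`, `κ = s^n`. Otherwise `r = 1 - 2 v`, `r^2 = 1 - 4 v (1 - v) = 1 - 4 s^n f(x, y)`, `uni_odd`
with `τ = s`, `s0 = 1`, `s1 = -4 s^n` (`v` is transcendental, so `r, s ≠ 0`); `hτ`: if
`1 = 4 s^n Fv c a b` then `s^n ∈ AF Ω {a, b}` (`Fv_mem`), so `s ∈ AF Ω {a, b}` (`AF_root`); at the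
end `v = (1 - r) / 2`. -/

set_option autoImplicit false

namespace Pool.Agent.Helper75.QC

open IntermediateField

private lemma map_Fv68 {Ω N E : Type} [Field Ω] [Field N] [Field E] [Algebra Ω N] [Algebra Ω E]
    (i : N →ₐ[Ω] E) (c : ℕ → ℕ → Ω) (x y : N) : i (Fv c x y) = Fv c (i x) (i y) := by
  unfold Fv
  simp only [map_sum, map_mul, map_pow, AlgHom.commutes]

/-- the statement in the algebraically closed field -/
private lemma closed68 {Ω E : Type} [Field Ω] [IsAlgClosed Ω] [Field E] [Algebra Ω E]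
    [IsAlgClosed E] (c : ℕ → ℕ → Ω) {n : ℕ} (hn : 0 < n) (x y v s : E)
    (hv : Transcendental Ω v) (hs : v * (1 - v) = s ^ n * Fv c x y) :
    ∃ (S : Finset E) (θ : E), S.card ≤ 2 ∧ x ∈ adjoin Ω (Acl Ω (S : Set E) ∪ {θ}) ∧
      y ∈ adjoin Ω (Acl Ω (S : Set E) ∪ {θ}) ∧ v ∈ adjoin Ω (Acl Ω (S : Set E) ∪ {θ}) ∧
      s ∈ adjoin Ω (Acl Ω (S : Set E) ∪ {θ}) := by
  have hv0 : v ≠ 0 := by
    rintro rfl
    exact hv isAlgebraic_zero
  have hv1 : 1 - v ≠ 0 := by
    intro h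
    have h1 : v = algebraMap Ω E 1 := by
      rw [map_one]
      exact (sub_eq_zero.1 h).symm
    exact hv (h1 ▸ isAlgebraic_algebraMap (1 : Ω))
  have hs0 : s ≠ 0 := by
    rintro rfl
    rw [zero_pow hn.ne', zero_mul] at hs
    exact mul_ne_zero hv0 hv1 hs
  by_cases h2 : (2 : E) = 0
  · obtain ⟨S, θ, hS, h3, h4, h5, h6⟩ := uni_two h2 c x y s (s ^ n) v
      (pow_mem (subset_AF _ (by simp)) n) (by
        rw [← hs]
        linear_combination v ^ 2 * h2)
    exact ⟨S, θ, hS, h3, h4, h6, h5⟩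
  · have h4 : (4 : E) ≠ 0 := by
      have : (4 : E) = 2 * 2 := by norm_num
      rw [this]
      exact mul_ne_zero h2 h2
    have hr : 1 - 2 * v ≠ 0 := by
      intro h
      have h1 : v = algebraMap Ω E (2⁻¹) := by
        rw [map_inv₀, map_ofNat]
        field_simp
        linear_combination -h
      exact hv (h1 ▸ isAlgebraic_algebraMap (2⁻¹ : Ω))
    obtain ⟨S, θ, hS, h5, h6, h7, h8⟩ := uni_odd h2 c x y s 1 (-(4 * s ^ n)) (1 - 2 * v)
      (one_mem _)
      (neg_mem (mul_mem (by exact_mod_cast (AF Ω {s}).natCast_mem 4)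
        (pow_mem (subset_AF _ (by simp)) n)))
      (neg_ne_zero.2 (mul_ne_zero h4 (pow_ne_zero _ hs0))) hr
      (by linear_combination (-4) * hs)
      (by
        intro a b hab
        apply AF_root hn
        have h9 : s ^ n * (4 * Fv c a b) = 1 := by linear_combination -hab
        have h10 : s ^ n = (4 * Fv c a b)⁻¹ := eq_inv_of_mul_eq_one_left h9
        rw [h10]
        refine inv_mem (mul_mem (by exact_mod_cast (AF Ω {a, b}).natCast_mem 4) ?_)
        exact Fv_mem c _ (subset_AF _ (by simp)) (subset_AF _ (by simp)))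
    refine ⟨S, θ, hS, h5, h6, ?_, h7⟩
    have h9 : v = (1 - (1 - 2 * v)) / 2 := by
      field_simp
      ring
    rw [h9]
    exact div_mem (sub_mem (one_mem _) h8)
      (by exact_mod_cast (adjoin Ω (Acl Ω (S : Set E) ∪ {θ})).natCast_mem 2)

theorem uni_field {Ω : Type} [Field Ω] [IsAlgClosed Ω]
    {N : Type} [Field N] [Algebra Ω N] (c : ℕ → ℕ → Ω) {n : ℕ} (hn : 0 < n) (x y v s : N)
    (hv : Transcendental Ω v) (hs : v * (1 - v) = s ^ n * Fv c x y) :
    Uniruled Ω (adjoin Ω {x, y, v, s} : IntermediateField Ω N) 3 := by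
  obtain ⟨i, hi⟩ : ∃ i : N →ₐ[Ω] AlgebraicClosure N,
      i = IsScalarTower.toAlgHom Ω N (AlgebraicClosure N) := ⟨_, rfl⟩
  have hvi : Transcendental Ω (i v) := fun h => hv ((isAlgebraic_algHom_iff i i.injective).1 h)
  obtain ⟨S, θ, hS, h1, h2, h3, h4⟩ := closed68 c hn (i x) (i y) (i v) (i s) hvi (by
    rw [← map_Fv68, ← map_pow, ← map_mul, ← hs, map_mul, map_sub, map_one])
  refine ⟨AlgebraicClosure N, inferInstance, inferInstance,
    i.comp (adjoin Ω {x, y, v, s} : IntermediateField Ω N).val, S, θ, by omega, ?_⟩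
  have hle : (adjoin Ω {x, y, v, s} : IntermediateField Ω N) ≤
      (adjoin Ω (Acl Ω (S : Set (AlgebraicClosure N)) ∪ {θ})).comap i := by
    rw [adjoin_le_iff]
    intro z hz
    show i z ∈ adjoin Ω (Acl Ω (S : Set (AlgebraicClosure N)) ∪ {θ})
    rcases hz with rfl | rfl | rfl | rfl
    · exact h1
    · exact h2
    · exact h3
    · exact h4
  intro k
  exact hle k.2

end Pool.Agent.Helper75.QC
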