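import Pool.Agent.Helper75.QC.Tame

/-! Block QC-16. All exponents.

Proof. `n = p^m n'`, `p ∤ n'`, `w1 = w^(p^m)`, `K1 = Ω(x, y, w1)`. `K = K1(w)`, `w^(p^m) ∈ K1`, so
`[K : K1] ≤ p^m`; `K1 = Ω(x, y)(w1)`, `w1^n' ∈ Ω(x, y)`, so `[K1 : Ω(x, y)] ≤ n'`; the product is
`n`, so both are equalities. `φ` restricts to `φ1 : K1 → K1`; `tame` for `K1` (`e > 0`). Let `j` with
`e j ≥ m`: the image of `φ^j` lies in `K1` (`w^(p^(e j))` is a power of `w1`), so
`φ^j = ι ∘ ψ`, `ι : K1 → K`; `map 2 (φ^j)` is injective (`inj`), so surjective (`fin`), so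
`map 2 ι` is surjective, and `semisimple_of_surj`. -/

set_option autoImplicit false

namespace Pool.Agent.Helper75.QC

open IntermediateField

private def cod34 {Ω K E : Type} [Field Ω] [Field K] [Algebra Ω K] [Field E] [Algebra Ω E]
    (N : IntermediateField Ω E) (g : K →ₐ[Ω] E) (h : ∀ k, g k ∈ N) : K →ₐ[Ω] N where
  toFun k := ⟨g k, h k⟩
  map_one' := Subtype.ext (map_one g)
  map_mul' a b := Subtype.ext (map_mul g a b)
  map_zero' := Subtype.ext (map_zero g)
  map_add' a b := Subtype.ext (map_add g a b)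
  commutes' r := Subtype.ext (g.commutes r)

private theorem deg_le34 {Ω M : Type} [Field Ω] [Field M] [Algebra Ω M] (F : IntermediateField Ω M)
    (z : M) {d : ℕ} (hd : 0 < d) (hz : z ^ d ∈ F)
    (htop : ∀ N : IntermediateField Ω M, F ≤ N → z ∈ N → N = ⊤) : Module.finrank F M ≤ d := by
  have hint : IsIntegral F z := by
    refine IsIntegral.of_pow hd ?_
    exact isIntegral_algebraMap (x := (⟨z ^ d, hz⟩ : F))
  have h1 : IntermediateField.adjoin F {z} = ⊤ := by
    apply IntermediateField.restrictScalars_injective Ω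
    rw [restrictScalars_top]
    refine htop _ ?_ ?_
    · intro a ha
      exact (adjoin F {z}).algebraMap_mem ⟨a, ha⟩
    · exact mem_adjoin_simple_self F z
  have h0 : Module.finrank F (IntermediateField.adjoin F {z}) = Module.finrank F M := by
    rw [h1, IntermediateField.finrank_top']
  rw [← h0, adjoin.finrank hint]
  have h2 : minpoly F z ∣ Polynomial.X ^ d - Polynomial.C (⟨z ^ d, hz⟩ : F) := by
    refine minpoly.dvd _ _ ?_
    rw [map_sub, map_pow, Polynomial.aeval_X, Polynomial.aeval_C]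
    exact sub_self _
  have h3 := Polynomial.natDegree_le_of_dvd h2 (Polynomial.X_pow_sub_C_ne_zero hd _)
  rwa [Polynomial.natDegree_X_pow_sub_C] at h3

private theorem pow34 {Ω K : Type} [Field Ω] [Field K] [Algebra Ω K] (φ : K →ₐ[Ω] K) {p e : ℕ} {a : K}
    (h : φ a = a ^ p ^ e) (j : ℕ) : (φ ^ j) a = a ^ p ^ (e * j) := by
  induction j with
  | zero => simp
  | succ j ih =>
    rw [pow_succ', AlgHom.mul_apply, ih, map_pow, h, ← pow_mul, ← pow_add]
    congr 2
    ring

/-- reduction to the exponent `n'`, `n = p^m n'`, `p ∤ n'`, and the field `Ω(x, y, w^(p^m))` -/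
theorem insep_gen {p : ℕ} [Fact p.Prime] {Ω L : Type} [Field Ω] [CharP Ω p] [Field L]
    [CharZero L] [IsAlgClosed L] (T : Theory p Ω L) {n e : ℕ} (hn : 0 < n) (he : 0 < e) {K : Type}
    [Field K] [Algebra Ω K] (x y w : K) (hK : adjoin Ω {x, y, w} = ⊤)
    (hw : w ^ n ∈ adjoin Ω {x, y})
    (hdeg : Module.finrank (adjoin Ω {x, y}) K = n) (φ : K →ₐ[Ω] K)
    (hφ : φ x = x ^ p ^ e ∧ φ y = y ^ p ^ e ∧ φ w = w ^ p ^ e)
    (H : ∀ (m n' : ℕ), n = p ^ m * n' → 0 < n' → (n' : Ω) ≠ 0 →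
      ∀ (K1 : IntermediateField Ω K) (x1 y1 w1 : K1), (x1 : K) = x → (y1 : K) = y →
        (w1 : K) = w ^ p ^ m → adjoin Ω {x1, y1, w1} = ⊤ →
        Module.finrank (adjoin Ω {x1, y1}) K1 = n' → ∀ φ1 : K1 →ₐ[Ω] K1,
        φ1 x1 = x1 ^ p ^ e ∧ φ1 y1 = y1 ^ p ^ e ∧ φ1 w1 = w1 ^ p ^ e →
        Module.End.IsSemisimple (T.map 2 φ1)) :
    Module.End.IsSemisimple (T.map 2 φ) := by
  classical
  have hp : p.Prime := Fact.out
  obtain ⟨m, n', hpn, hnn⟩ := Nat.exists_eq_pow_mul_and_not_dvd hn.ne' p hp.ne_one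
  have hn0 : 0 < n' := by
    rcases Nat.eq_zero_or_pos n' with h | h
    · subst h
      exact absurd (dvd_zero p) hpn
    · exact h
  have hcast : (n' : Ω) ≠ 0 := by
    rw [Ne, CharP.cast_eq_zero_iff Ω p]
    exact hpn
  obtain ⟨K1, hK1⟩ : ∃ K1 : IntermediateField Ω K, K1 = adjoin Ω {x, y, w ^ p ^ m} := ⟨_, rfl⟩
  have hx : x ∈ K1 := by
    rw [hK1]
    exact subset_adjoin _ _ (by simp)
  have hy : y ∈ K1 := by
    rw [hK1]
    exact subset_adjoin _ _ (by simp)
  have hw1 : w ^ p ^ m ∈ K1 := by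
    rw [hK1]
    exact subset_adjoin _ _ (by simp)
  have htop1 : adjoin Ω {(⟨x, hx⟩ : K1), ⟨y, hy⟩, ⟨w ^ p ^ m, hw1⟩} = ⊤ := by
    apply lift_injective K1
    rw [lift_top, lift_adjoin]
    simp only [Set.image_insert_eq, Set.image_singleton]
    exact hK1.symm
  have hval : ∀ k ∈ adjoin Ω {x, y}, ∃ k1 ∈ adjoin Ω {(⟨x, hx⟩ : K1), ⟨y, hy⟩}, (k1 : K) = k := by
    intro k hk
    have h1 : lift (adjoin Ω {(⟨x, hx⟩ : K1), ⟨y, hy⟩}) = adjoin Ω {x, y} := by
      rw [lift_adjoin]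
      simp only [Set.image_insert_eq, Set.image_singleton]
    rw [← h1] at hk
    exact hk
  obtain ⟨F1, hF1⟩ : ∃ F1 : IntermediateField Ω K1, F1 = adjoin Ω {(⟨x, hx⟩ : K1), ⟨y, hy⟩} := ⟨_, rfl⟩
  have hlift : lift F1 = adjoin Ω {x, y} := by
    rw [hF1, lift_adjoin]
    simp only [Set.image_insert_eq, Set.image_singleton]
  have h5 : Module.finrank F1 K = Module.finrank (lift F1) K :=
    Algebra.finrank_eq_of_equiv_equiv (liftAlgEquiv F1).toRingEquiv (RingEquiv.refl K) (by ext a; rfl)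
  rw [hlift, hdeg] at h5
  have h6 : Module.finrank F1 K1 * Module.finrank K1 K = Module.finrank F1 K :=
    Module.finrank_mul_finrank F1 K1 K
  have h7 : Module.finrank F1 K1 ≤ n' := by
    refine deg_le34 F1 ⟨w ^ p ^ m, hw1⟩ hn0 ?_ ?_
    · obtain ⟨k1, hk1, hk2⟩ := hval (w ^ n) hw
      have h8 : (⟨w ^ p ^ m, hw1⟩ : K1) ^ n' = k1 := by
        apply Subtype.ext
        rw [hk2, hnn, pow_mul]
        rfl
      rw [h8, hF1]
      exact hk1
    · intro N hN hz
      rw [← top_le_iff, ← htop1, adjoin_le_iff]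
      intro a ha
      simp only [Set.mem_insert_iff, Set.mem_singleton_iff] at ha
      have hF : ∀ a ∈ ({(⟨x, hx⟩ : K1), ⟨y, hy⟩} : Set K1), a ∈ N := by
        intro a ha
        apply hN
        rw [hF1]
        exact subset_adjoin _ _ ha
      rcases ha with ha | ha | ha
      · exact hF a (by simp [ha])
      · exact hF a (by simp [ha])
      · rw [ha]
        exact hz
  have h8 : Module.finrank K1 K ≤ p ^ m := by
    refine deg_le34 K1 w (pow_pos hp.pos m) hw1 ?_
    intro N hN hz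
    rw [← top_le_iff, ← hK, adjoin_le_iff]
    intro a ha
    simp only [Set.mem_insert_iff, Set.mem_singleton_iff] at ha
    rcases ha with ha | ha | ha
    · rw [ha]
      exact hN hx
    · rw [ha]
      exact hN hy
    · rw [ha]
      exact hz
  have h9 : Module.finrank F1 K1 = n' := by
    by_contra hne
    have hlt : Module.finrank F1 K1 < n' := lt_of_le_of_ne h7 hne
    have h10 : Module.finrank F1 K1 * Module.finrank K1 K ≤ Module.finrank F1 K1 * p ^ m :=
      Nat.mul_le_mul_left _ h8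
    have h11 : Module.finrank F1 K1 * p ^ m < n' * p ^ m :=
      Nat.mul_lt_mul_of_pos_right hlt (pow_pos hp.pos m)
    have h12 : Module.finrank F1 K1 * Module.finrank K1 K = p ^ m * n' := by
      rw [h6, h5, hnn]
    rw [mul_comm (p ^ m)] at h12
    omega
  rw [hF1] at h9
  -- the restriction of `φ`
  have hφK : ∀ k ∈ K1, φ k ∈ K1 := by
    intro k hk
    have h1 : K1 ≤ K1.comap φ := by
      conv_lhs => rw [hK1]
      rw [adjoin_le_iff]
      intro a ha
      simp only [Set.mem_insert_iff, Set.mem_singleton_iff] at ha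
      show φ a ∈ K1
      rcases ha with ha | ha | ha
      · rw [ha, hφ.1]
        exact pow_mem hx _
      · rw [ha, hφ.2.1]
        exact pow_mem hy _
      · rw [ha, map_pow, hφ.2.2, ← pow_mul, mul_comm, pow_mul]
        exact pow_mem hw1 _
    exact h1 hk
  obtain ⟨φ1, hφ1⟩ : ∃ φ1 : K1 →ₐ[Ω] K1, ∀ k, (φ1 k : K) = φ k :=
    ⟨cod34 K1 (φ.comp K1.val) fun k => hφK _ k.2, fun k => rfl⟩
  have hss := H m n' hnn hn0 hcast K1 (⟨x, hx⟩ : K1) ⟨y, hy⟩ ⟨w ^ p ^ m, hw1⟩ rfl rfl rfl htop1 h9 φ1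
    ⟨by
      apply Subtype.ext
      rw [hφ1]
      exact hφ.1, by
      apply Subtype.ext
      rw [hφ1]
      exact hφ.2.1, by
      apply Subtype.ext
      rw [hφ1]
      show φ (w ^ p ^ m) = (w ^ p ^ m) ^ p ^ e
      rw [map_pow, hφ.2.2, ← pow_mul, ← pow_mul, mul_comm]⟩
  -- a power of `φ` has its image in `K1`
  have hj : ∀ k : K, (φ ^ m) k ∈ K1 := by
    intro k
    have h1 : (⊤ : IntermediateField Ω K) ≤ K1.comap (φ ^ m) := by
      rw [← hK, adjoin_le_iff]
      intro a ha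
      simp only [Set.mem_insert_iff, Set.mem_singleton_iff] at ha
      show (φ ^ m) a ∈ K1
      rcases ha with ha | ha | ha
      · rw [ha, pow34 φ hφ.1]
        exact pow_mem hx _
      · rw [ha, pow34 φ hφ.2.1]
        exact pow_mem hy _
      · rw [ha, pow34 φ hφ.2.2]
        have h2 : m ≤ e * m := Nat.le_mul_of_pos_left m he
        obtain ⟨r, hr⟩ := Nat.exists_eq_add_of_le h2
        rw [hr, pow_add, pow_mul]
        exact pow_mem hw1 _
    exact h1 (mem_top (x := k))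
  obtain ⟨ψ, hψ⟩ : ∃ ψ : K →ₐ[Ω] K1, K1.val.comp ψ = φ ^ m :=
    ⟨cod34 K1 (φ ^ m) hj, AlgHom.ext fun k => rfl⟩
  have hfd : FiniteDimensional L (T.H 2 K) := T.fin 2 K (by
    rw [← hK]
    exact fg_adjoin_of_finite (Set.toFinite _))
  have hinj : Function.Injective (T.map 2 (φ ^ m)) := by
    refine T.inj 2 (φ ^ m) ?_
    have h1 : (⊤ : IntermediateField Ω K) ≤
        (algebraicClosure (φ ^ m).fieldRange K).restrictScalars Ω := by
      rw [← hK, adjoin_le_iff]
      have h2 : ∀ a : K, φ a = a ^ p ^ e → a ∈ (algebraicClosure (φ ^ m).fieldRange K).restrictScalars Ω := by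
        intro a ha
        rw [mem_restrictScalars, mem_algebraicClosure_iff]
        refine IsAlgebraic.of_pow (n := p ^ (e * m)) (pow_pos hp.pos _) ?_
        rw [← pow34 φ ha m]
        exact isAlgebraic_algebraMap (⟨(φ ^ m) a, ⟨a, rfl⟩⟩ : (φ ^ m).fieldRange)
      intro a ha
      simp only [Set.mem_insert_iff, Set.mem_singleton_iff] at ha
      rcases ha with ha | ha | ha
      · rw [ha]
        exact h2 x hφ.1
      · rw [ha]
        exact h2 y hφ.2.1
      · rw [ha]
        exact h2 w hφ.2.2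
    intro a
    have h3 := h1 (mem_top (x := a))
    rw [mem_restrictScalars, mem_algebraicClosure_iff] at h3
    exact h3
  have hsurj : Function.Surjective (T.map 2 (φ ^ m)) := LinearMap.injective_iff_surjective.1 hinj
  have hsurj2 : Function.Surjective (T.map 2 K1.val) := by
    rw [← hψ, T.map_comp] at hsurj
    exact Function.Surjective.of_comp (g := T.map 2 ψ) hsurj
  refine semisimple_of_surj (T.map 2 φ1) (T.map 2 φ) (T.map 2 K1.val) hsurj2 ?_ hss
  intro v
  have h1 : K1.val.comp φ1 = φ.comp K1.val := AlgHom.ext fun k => hφ1 k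
  have h2 := congrArg (fun g => T.map 2 g v) h1
  simp only [T.map_comp, LinearMap.comp_apply] at h2
  exact h2

theorem aeval_mem75 {Ω : Type} [Field Ω] {K : Type} [Field K] [Algebra Ω K] (x y : K)
    (f : MvPolynomial (Fin 2) Ω) : MvPolynomial.aeval ![x, y] f ∈ adjoin Ω {x, y} := by
  induction f using MvPolynomial.induction_on with
  | C a =>
    rw [MvPolynomial.aeval_C]
    exact IntermediateField.algebraMap_mem _ _
  | add g h hg hh =>
    rw [map_add]
    exact add_mem hg hh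
  | mul_X g i hg =>
    rw [map_mul, MvPolynomial.aeval_X]
    refine mul_mem hg (subset_adjoin _ _ ?_)
    fin_cases i <;> simp

theorem map_aeval75 {Ω : Type} [Field Ω] {K K' : Type} [Field K] [Algebra Ω K] [Field K']
    [Algebra Ω K'] (h : K →ₐ[Ω] K') (x y : K) (g : MvPolynomial (Fin 2) Ω) :
    h (MvPolynomial.aeval ![x, y] g) = MvPolynomial.aeval ![h x, h y] g := by
  have h1 : MvPolynomial.aeval ![h x, h y] = h.comp (MvPolynomial.aeval ![x, y]) := by
    apply MvPolynomial.algHom_ext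
    intro i
    rw [AlgHom.comp_apply, MvPolynomial.aeval_X, MvPolynomial.aeval_X]
    fin_cases i <;> rfl
  rw [h1]
  rfl

theorem all_n {p : ℕ} [Fact p.Prime] {Ω L : Type} [Field Ω] [CharP Ω p] [IsAlgClosed Ω] [Field L]
    [CharZero L] [IsAlgClosed L] (T : Theory p Ω L) (f : MvPolynomial (Fin 2) Ω)
    (hf : f.totalDegree ≤ 4) {n e : ℕ} (hn : 0 < n) (he : 0 < e) {K : Type}
    [Field K] [Algebra Ω K] (x y w : K) (hK : adjoin Ω {x, y, w} = ⊤)
    (hw : w ^ n = MvPolynomial.aeval ![x, y] f)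
    (hdeg : Module.finrank (adjoin Ω {x, y}) K = n) (φ : K →ₐ[Ω] K)
    (hφ : φ x = x ^ p ^ e ∧ φ y = y ^ p ^ e ∧ φ w = w ^ p ^ e) :
    Module.End.IsSemisimple (T.map 2 φ) := by
  refine insep_gen T hn he x y w hK (by rw [hw]; exact aeval_mem75 x y f) hdeg φ hφ ?_
  intro m n' hnn hn0 hcast K1 x1 y1 w1 hx hy hw1 htop hdeg1 φ1 hφ1
  refine tame T f hf hn0 hcast x1 y1 w1 htop ?_ hdeg1 φ1 hφ1
  apply Subtype.ext
  have h1 := map_aeval75 K1.val x1 y1 f
  have h2 : K1.val x1 = x := hx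
  have h3 : K1.val y1 = y := hy
  rw [h2, h3, ← hw, hnn, pow_mul] at h1
  have h4 : K1.val (MvPolynomial.aeval ![x1, y1] f) = (w ^ p ^ m) ^ n' := h1
  show ((w1 : K)) ^ n' = K1.val (MvPolynomial.aeval ![x1, y1] f)
  rw [h4, hw1]

end Pool.Agent.Helper75.QC
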