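import Mathlib

/-! Project QC (MP_1fe969_ag): Frobenius is semisimple on the second cohomology of cyclic covers of
the plane. Definitions.

Proof in words: README.md in this folder. -/

set_option autoImplicit false

namespace Pool.Agent.Helper75.QC

open IntermediateField TensorProduct

/-- The elements of `E` which are algebraic over the field generated over `Ω` by `S`. -/
def Acl (Ω : Type) {E : Type} [Field Ω] [Field E] [Algebra Ω E] (S : Set E) : Set E :=
  {a | IsAlgebraic (adjoin Ω S) a}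

/-- The extension `K` of `Ω` is contained in a field `M(θ)`, where `M` is algebraic over a field
generated over `Ω` by fewer than `i` elements. -/
def Uniruled (Ω K : Type) [Field Ω] [Field K] [Algebra Ω K] (i : ℕ) : Prop :=
  ∃ (E : Type) (_ : Field E) (_ : Algebra Ω E) (g : K →ₐ[Ω] E) (S : Finset E) (θ : E),
    S.card < i ∧ ∀ k, g k ∈ adjoin Ω (Acl Ω (S : Set E) ∪ {θ})

/-- `φ` is a relative `q`-Frobenius: `K` is generated over `Ω` by elements `a` with
`φ a = a ^ q`. -/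
def IsFrob {Ω K : Type} [Field Ω] [Field K] [Algebra Ω K] (q : ℕ) (φ : K →ₐ[Ω] K) : Prop :=
  adjoin Ω {a : K | φ a = a ^ q} = ⊤

/-- The part of weight `i` of the cohomology in degree `i` of the generic point of a variety over
`Ω` with function field `K`, that is `H^i(X)` modulo the classes supported on divisors, `X` smooth
projective: the linear properties. -/
structure Cohomology (Ω L : Type) [Field Ω] [Field L] where
  H : ℕ → (K : Type) → [Field K] → [Algebra Ω K] → Type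
  [grp : ∀ (i : ℕ) (K : Type) [Field K] [Algebra Ω K], AddCommGroup (H i K)]
  [mdl : ∀ (i : ℕ) (K : Type) [Field K] [Algebra Ω K], Module L (H i K)]
  /-- functoriality -/
  map : ∀ (i : ℕ) {K K' : Type} [Field K] [Algebra Ω K] [Field K'] [Algebra Ω K'],
    (K →ₐ[Ω] K') → (H i K →ₗ[L] H i K')
  map_id : ∀ (i : ℕ) (K : Type) [Field K] [Algebra Ω K], map i (AlgHom.id Ω K) = LinearMap.id
  map_comp : ∀ (i : ℕ) {K K' K'' : Type} [Field K] [Algebra Ω K] [Field K'] [Algebra Ω K']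
    [Field K''] [Algebra Ω K''] (g : K →ₐ[Ω] K') (h : K' →ₐ[Ω] K''),
    map i (h.comp g) = map i h ∘ₗ map i g
  /-- finiteness -/
  fin : ∀ (i : ℕ) (K : Type) [Field K] [Algebra Ω K], (⊤ : IntermediateField Ω K).FG →
    FiniteDimensional L (H i K)
  /-- transfer -/
  inj : ∀ (i : ℕ) {K K' : Type} [Field K] [Algebra Ω K] [Field K'] [Algebra Ω K']
    (g : K →ₐ[Ω] K'), (∀ a : K', IsAlgebraic g.fieldRange a) → Function.Injective (map i g)
  /-- Galois descent -/
  descent : ∀ (i : ℕ) (K : Type) [Field K] [Algebra Ω K] (N : IntermediateField Ω K)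
    [FiniteDimensional N K] [IsGalois N K] (z : H i K),
    (∀ τ : K →ₐ[N] K, map i (τ.restrictScalars Ω) z = z) → z ∈ LinearMap.range (map i N.val)
  /-- vanishing in degrees above the dimension, and in the degree of the dimension if the variety
  is uniruled -/
  uniruled : ∀ (i : ℕ) (K : Type) [Field K] [Algebra Ω K], Uniruled Ω K i → ∀ z : H i K, z = 0

attribute [instance] Cohomology.grp Cohomology.mdl

namespace Cohomology

variable {Ω L : Type} [Field Ω] [Field L] (T : Cohomology Ω L)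

/-- the pull-back of a class -/
def pull (i : ℕ) {K K' : Type} [Field K] [Algebra Ω K] [Field K'] [Algebra Ω K'] (g : K →ₐ[Ω] K')
    (z : T.H i K) : T.H i K' :=
  T.map i g z

/-- the value of a bilinear map -/
def mul {K : Type} [Field K] [Algebra Ω K] (c : T.H 2 K →ₗ[L] T.H 1 K →ₗ[L] T.H 3 K) (a : T.H 2 K)
    (b : T.H 1 K) : T.H 3 K :=
  c a b

/-- `H 2 (surface) ⊗ H 1 (curve)` -/
def Prod (K C : Type) [Field K] [Algebra Ω K] [Field C] [Algebra Ω C] : Type :=
  T.H 2 K ⊗[L] T.H 1 C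

instance (K C : Type) [Field K] [Algebra Ω K] [Field C] [Algebra Ω C] :
    AddCommMonoid (T.Prod K C) :=
  (TensorProduct.addCommMonoid : AddCommMonoid (T.H 2 K ⊗[L] T.H 1 C))

instance (K C : Type) [Field K] [Algebra Ω K] [Field C] [Algebra Ω C] : Module L (T.Prod K C) :=
  (TensorProduct.instModule : Module L (T.H 2 K ⊗[L] T.H 1 C))

/-- the homomorphism `a ⊗ b` -/
def prodMap {K C K' C' : Type} [Field K] [Algebra Ω K] [Field C] [Algebra Ω C] [Field K']
    [Algebra Ω K'] [Field C'] [Algebra Ω C'] (a : K →ₐ[Ω] K') (b : C →ₐ[Ω] C') :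
    T.Prod K C →ₗ[L] T.Prod K' C' :=
  TensorProduct.map (T.map 2 a) (T.map 1 b)

/-- `(φ ⊗ ψ) ^ m (g s) = c • g (δ s)` for all `s` -/
def Commutes {K C D : Type} [Field K] [Algebra Ω K] [Field C] [Algebra Ω C] [Field D]
    [Algebra Ω D] (φ : K →ₐ[Ω] K) (ψ : C →ₐ[Ω] C) (m : ℕ) (c : L) (δ : D →ₐ[Ω] D)
    (g : T.H 1 D →ₗ[L] T.Prod K C) : Prop :=
  ∀ s, (T.prodMap φ ψ)^[m] (g s) = c • g (T.pull 1 δ s)

end Cohomology

/-- The cup product and the cohomology of curves. -/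
structure BaseTheory (Ω L : Type) [Field Ω] [Field L] extends Cohomology Ω L where
  /-- cup product -/
  cup : ∀ (K : Type) [Field K] [Algebra Ω K], H 2 K →ₗ[L] H 1 K →ₗ[L] H 3 K
  /-- `g (a b) = g (a) g (b)` -/
  pull_mul : ∀ {K K' : Type} [Field K] [Algebra Ω K] [Field K'] [Algebra Ω K'] (g : K →ₐ[Ω] K')
    (a : H 2 K) (b : H 1 K), toCohomology.pull 3 g (toCohomology.mul (cup K) a b) =
      toCohomology.mul (cup K') (toCohomology.pull 2 g a) (toCohomology.pull 1 g b)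
  /-- the cohomology of the curve `u ^ n = v ^ α (1 - v) ^ β` as a representation of its group of
  automorphisms `u ↦ ζ u` -/
  curve' : ∀ (C : Type) [Field C] [Algebra Ω C] (n α β : ℕ) (ζ : Ω) (v u : C) (σ : C →ₐ[Ω] C),
    (n : Ω) ≠ 0 → IsPrimitiveRoot ζ n → Transcendental Ω v → u ^ n = v ^ α * (1 - v) ^ β →
    adjoin Ω {v, u} = ⊤ → σ v = v → σ u = algebraMap Ω C ζ * u →
    ∀ ξ : L, ξ ^ n = 1 → ξ ^ α ≠ 1 → ξ ^ β ≠ 1 → ξ ^ (α + β) ≠ 1 →
      ∃ z : H 1 C, z ≠ 0 ∧ toCohomology.pull 1 σ z = ξ • z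

theorem BaseTheory.map_cup {Ω L : Type} [Field Ω] [Field L] (T : BaseTheory Ω L) {K K' : Type}
    [Field K] [Algebra Ω K] [Field K'] [Algebra Ω K'] (g : K →ₐ[Ω] K') (a : T.H 2 K)
    (b : T.H 1 K) : T.map 3 g (T.cup K a b) = T.cup K' (T.map 2 g a) (T.map 1 g b) :=
  T.pull_mul g a b

theorem BaseTheory.curve {Ω L : Type} [Field Ω] [Field L] (T : BaseTheory Ω L) (C : Type) [Field C]
    [Algebra Ω C] (n α β : ℕ) (ζ : Ω) (v u : C) (σ : C →ₐ[Ω] C) (hn : (n : Ω) ≠ 0)
    (hζ : IsPrimitiveRoot ζ n) (hv : Transcendental Ω v) (hu : u ^ n = v ^ α * (1 - v) ^ β)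
    (hC : adjoin Ω {v, u} = ⊤) (h1 : σ v = v) (h2 : σ u = algebraMap Ω C ζ * u) (ξ : L)
    (h3 : ξ ^ n = 1) (h4 : ξ ^ α ≠ 1) (h5 : ξ ^ β ≠ 1) (h6 : ξ ^ (α + β) ≠ 1) :
    ∃ z : T.H 1 C, z ≠ 0 ∧ T.map 1 σ z = ξ • z :=
  T.curve' C n α β ζ v u σ hn hζ hv hu hC h1 h2 ξ h3 h4 h5 h6

/-- The class `t` of `H 2 (surface) ⊗ H 1 (curve)` vanishes at the generic point of the product. -/
def Vanishes {Ω L : Type} [Field Ω] [Field L] (T : BaseTheory Ω L) {K C N : Type} [Field K]
    [Algebra Ω K] [Field C] [Algebra Ω C] [Field N] [Algebra Ω N] (a : K →ₐ[Ω] N) (b : C →ₐ[Ω] N)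
    (t : T.Prod K C) : Prop :=
  TensorProduct.lift (T.cup N) (T.prodMap a b t) = 0

/-- `K` and `C` are function fields of a surface (or a curve) and a curve over the field with
`p ^ e` elements, `N` contains the function field of their product, `φ`, `ψ` are the relative
Frobenius endomorphisms. -/
def IsProduct {Ω K C N : Type} [Field Ω] [Field K] [Algebra Ω K] [Field C] [Algebra Ω C] [Field N]
    [Algebra Ω N] (a : K →ₐ[Ω] N) (b : C →ₐ[Ω] N) (x y : K) (v : C) (q : ℕ)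
    (φ : K →ₐ[Ω] K) (ψ : C →ₐ[Ω] C) : Prop :=
  (⊤ : IntermediateField Ω K).FG ∧ (⊤ : IntermediateField Ω C).FG ∧
    (∀ k : K, k ∈ Acl Ω {x, y}) ∧ (∀ k : C, k ∈ Acl Ω {v}) ∧
    Transcendental a.fieldRange (b v) ∧ IsFrob q φ ∧ IsFrob q ψ

/-- The properties of the relative Frobenius endomorphisms. -/
structure Theory (p : ℕ) (Ω L : Type) [Field Ω] [Field L] extends BaseTheory Ω L where
  /-- Frobenius is semisimple on the first cohomology (Weil) -/
  weil : ∀ (K : Type) [Field K] [Algebra Ω K] (e : ℕ) (φ : K →ₐ[Ω] K),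
    (⊤ : IntermediateField Ω K).FG → IsFrob (p ^ e) φ → Module.End.IsSemisimple (map 1 φ)
  /-- The classes of `H 2 (surface) ⊗ H 1 (curve)` which vanish at the generic point of the product
  are supported on a divisor, whose components `D j` are defined over the field with `p ^ (e * m)`
  elements: they are in the sum of the images of the first cohomology of the `D j` under the Gysin
  maps `g j`. -/
  support : ∀ {K C N : Type} [Field K] [Algebra Ω K] [Field C] [Algebra Ω C] [Field N]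
    [Algebra Ω N] (a : K →ₐ[Ω] N) (b : C →ₐ[Ω] N) (x y : K) (v : C) (e : ℕ)
    (φ : K →ₐ[Ω] K) (ψ : C →ₐ[Ω] C), IsProduct a b x y v (p ^ e) φ ψ →
    ∃ (m r : ℕ) (D : Fin r → Type) (_ : ∀ j, Field (D j)) (_ : ∀ j, Algebra Ω (D j))
      (δ : ∀ j, D j →ₐ[Ω] D j) (g : ∀ j, H 1 (D j) →ₗ[L] toCohomology.Prod K C),
      0 < m ∧ (∀ j, (⊤ : IntermediateField Ω (D j)).FG ∧ IsFrob (p ^ (e * m)) (δ j) ∧
        toCohomology.Commutes φ ψ m ((p : L) ^ (e * m)) (δ j) (g j)) ∧
      ∀ t, Vanishes toBaseTheory a b t → t ∈ ⨆ j, LinearMap.range (g j)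

theorem Theory.gysin {p : ℕ} {Ω L : Type} [Field Ω] [Field L] (T : Theory p Ω L) {K C N : Type}
    [Field K] [Algebra Ω K] [Field C] [Algebra Ω C] [Field N] [Algebra Ω N] (a : K →ₐ[Ω] N)
    (b : C →ₐ[Ω] N) (x y : K) (v : C) (e : ℕ) (φ : K →ₐ[Ω] K) (ψ : C →ₐ[Ω] C)
    (h1 : (⊤ : IntermediateField Ω K).FG) (h2 : (⊤ : IntermediateField Ω C).FG)
    (h3 : ∀ k : K, k ∈ Acl Ω {x, y}) (h4 : ∀ k : C, k ∈ Acl Ω {v})
    (h5 : Transcendental a.fieldRange (b v)) (h6 : IsFrob (p ^ e) φ) (h7 : IsFrob (p ^ e) ψ) :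
    ∃ (m r : ℕ) (D : Fin r → Type) (_ : ∀ j, Field (D j)) (_ : ∀ j, Algebra Ω (D j))
      (δ : ∀ j, D j →ₐ[Ω] D j) (g : (∀ j, T.H 1 (D j)) →ₗ[L] T.H 2 K ⊗[L] T.H 1 C),
      0 < m ∧ (∀ j, (⊤ : IntermediateField Ω (D j)).FG ∧ IsFrob (p ^ (e * m)) (δ j)) ∧
      (∀ s, (TensorProduct.map (T.map 2 φ) (T.map 1 ψ) ^ m) (g s) =
        (p : L) ^ (e * m) • g fun j => T.map 1 (δ j) (s j)) ∧
      ∀ t, TensorProduct.lift ((T.cup N).compl₁₂ (T.map 2 a) (T.map 1 b)) t = 0 →
        t ∈ LinearMap.range g := by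
  classical
  obtain ⟨m, r, D, _, _, δ, g', hm, hD, ht⟩ :=
    T.support a b x y v e φ ψ ⟨h1, h2, h3, h4, h5, h6, h7⟩
  let g : ∀ j, T.H 1 (D j) →ₗ[L] T.H 2 K ⊗[L] T.H 1 C := g'
  refine ⟨m, r, D, _, _, δ, ∑ j, g j ∘ₗ LinearMap.proj j, hm, fun j => ⟨(hD j).1, (hD j).2.1⟩,
    fun s => ?_, fun t h => ?_⟩
  · rw [LinearMap.sum_apply, map_sum, LinearMap.sum_apply, Finset.smul_sum]
    refine Finset.sum_congr rfl fun j _ => ?_
    rw [Module.End.pow_apply]
    exact (hD j).2.2 (s j)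
  · have h' : t ∈ ⨆ j, LinearMap.range (g j) := ht t (by
      show TensorProduct.lift (T.cup N) (TensorProduct.map (T.map 2 a) (T.map 1 b) t) = 0
      rw [← h]
      have key : TensorProduct.lift (T.cup N) ∘ₗ TensorProduct.map (T.map 2 a) (T.map 1 b) =
          TensorProduct.lift ((T.cup N).compl₁₂ (T.map 2 a) (T.map 1 b)) :=
        TensorProduct.ext' fun u v => by simp [LinearMap.compl₁₂_apply]
      exact LinearMap.congr_fun key t)
    have hle : ⨆ j, LinearMap.range (g j) ≤ LinearMap.range (∑ j, g j ∘ₗ LinearMap.proj j) := by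
      refine iSup_le fun j => ?_
      rintro _ ⟨s, rfl⟩
      refine ⟨Pi.single j s, ?_⟩
      rw [LinearMap.sum_apply, Finset.sum_eq_single j]
      · simp
      · intro i _ hi
        simp [Pi.single_eq_of_ne hi]
      · simp
    exact hle h'

/-- `V` is the second cohomology of a smooth projective surface with function field `K` over the
field with `q` elements, `Fr` is Frobenius and `r` the restriction to the generic point: the kernel
of `r` is spanned by the classes of curves and has a complement, its orthogonal. -/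
structure IsH2 {p : ℕ} {Ω L : Type} [Field Ω] [Field L] (T : Theory p Ω L) {K : Type} [Field K]
    [Algebra Ω K] (q : ℕ) (φ : K →ₐ[Ω] K) {V : Type} [AddCommGroup V] [Module L V]
    (Fr : Module.End L V) (r : V →ₗ[L] T.H 2 K) : Prop where
  comm : ∀ v, r (Fr v) = T.map 2 φ (r v)
  classes : ∃ m : ℕ, 0 < m ∧ ∀ v, r v = 0 → (Fr ^ m) v = (q : L) ^ m • v
  compl : ∃ W : Submodule L V, (∀ v ∈ W, Fr v ∈ W) ∧ IsCompl (LinearMap.ker r) W

end Pool.Agent.Helper75.QC
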