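import Pool.Agent.Helper75.QC.Kummer

/-! Block QC-12. The cross product of eigenclasses vanishes.

Proof. `N0 = Ω(a x, a y, b v, b u / a w)`; `kummer_gal` for `N0 ⊆ N` and `a w` (`(a w)^n ∈ N0`; a
field `M ⊇ N0` with `a w ∈ M` contains `a x, a y, a w`, so the range of `a`, and
`b u = (b u / a w) a w`, so `M = ⊤`). Every `τ : N → N` over `N0` has `τ (a w) = ζ^j a w`, so
`τ ∘ a = a ∘ σ^j`, `τ ∘ b = b ∘ σ'^j` (`hom_ext`; `τ (b u) = ζ^j b u`), so `τ` fixes the class:
the factors are `ξ^j` and `ξ^(-j)`. By `descent` it comes from `H 3 N0 = 0`. -/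

set_option autoImplicit false

namespace Pool.Agent.Helper75.QC

open IntermediateField

/-- the powers of an endomorphism which multiplies a generator by a constant -/
private theorem pow_apply_12 {Ω : Type} [Field Ω] {K : Type} [Field K] [Algebra Ω K]
    (σ : K →ₐ[Ω] K) {c : Ω} {w : K} (h : σ w = algebraMap Ω K c * w) (j : ℕ) :
    (σ ^ j) w = algebraMap Ω K c ^ j * w := by
  induction j with
  | zero => simp
  | succ j ih =>
    rw [pow_succ, AlgHom.mul_apply, h, map_mul, ih, AlgHom.commutes, pow_succ]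
    ring

private theorem pow_fix_12 {Ω : Type} [Field Ω] {K : Type} [Field K] [Algebra Ω K]
    (σ : K →ₐ[Ω] K) {x : K} (h : σ x = x) (j : ℕ) : (σ ^ j) x = x := by
  induction j with
  | zero => simp
  | succ j ih => rw [pow_succ, AlgHom.mul_apply, h, ih]

private theorem map_pow_12 {Ω L : Type} [Field Ω] [Field L] (T : BaseTheory Ω L) (i : ℕ)
    {K : Type} [Field K] [Algebra Ω K] (σ : K →ₐ[Ω] K) {c : L} {t : T.H i K}
    (h : T.map i σ t = c • t) (j : ℕ) : T.map i (σ ^ j) t = c ^ j • t := by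
  induction j with
  | zero =>
    rw [pow_zero, pow_zero, one_smul]
    exact LinearMap.congr_fun (T.map_id i K) t
  | succ j ih =>
    have h1 : T.map i (σ ^ (j + 1)) t = T.map i (σ ^ j) (T.map i σ t) := by
      rw [pow_succ]
      exact LinearMap.congr_fun (T.map_comp i σ (σ ^ j)) t
    rw [h1, h, map_smul, ih, smul_smul, pow_succ']

theorem cross_zero {Ω L : Type} [Field Ω] [Field L] (T : BaseTheory Ω L) {n : ℕ}
    (hn : 0 < n) (hn' : (n : Ω) ≠ 0) {ζ : Ω} (hζ : IsPrimitiveRoot ζ n)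
    {K C N : Type} [Field K] [Algebra Ω K] [Field C] [Algebra Ω C] [Field N] [Algebra Ω N]
    (a : K →ₐ[Ω] N) (b : C →ₐ[Ω] N) (x y w : K) (v u : C) (hK : adjoin Ω {x, y, w} = ⊤)
    (hC : adjoin Ω {v, u} = ⊤) (hN : adjoin Ω (Set.range a ∪ {b v, b u}) = ⊤) (hw0 : w ≠ 0)
    (hw : w ^ n ∈ adjoin Ω {x, y})
    (σ : K →ₐ[Ω] K) (hσ : σ x = x ∧ σ y = y ∧ σ w = algebraMap Ω K ζ * w)
    (σ' : C →ₐ[Ω] C) (hσ' : σ' v = v ∧ σ' u = algebraMap Ω C ζ * u)
    (huni : ∀ z : T.H 3 (adjoin Ω {a x, a y, b v, b u / a w} : IntermediateField Ω N), z = 0)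
    (ξ : L) (hξ : ξ ≠ 0) (t : T.H 2 K) (ht : T.map 2 σ t = ξ • t) (z : T.H 1 C)
    (hz : T.map 1 σ' z = ξ⁻¹ • z) : T.cup N (T.map 2 a t) (T.map 1 b z) = 0 := by
  have haw : a w ≠ 0 := (map_ne_zero a).2 hw0
  set N0 : IntermediateField Ω N := adjoin Ω {a x, a y, b v, b u / a w} with hN0
  have hax : a x ∈ N0 := subset_adjoin Ω _ (by simp)
  have hay : a y ∈ N0 := subset_adjoin Ω _ (by simp)
  have hbv : b v ∈ N0 := subset_adjoin Ω _ (by simp)
  have hbu : b u / a w ∈ N0 := subset_adjoin Ω _ (by simp)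
  -- the image of the subfield generated by `x`, `y`
  have hxy : ∀ k ∈ adjoin Ω {x, y}, a k ∈ N0 := by
    intro k hk
    have h1 : adjoin Ω {x, y} ≤ N0.comap a := by
      rw [adjoin_le_iff]
      rintro k (rfl | rfl)
      · exact hax
      · exact hay
    exact h1 hk
  have hpow : a w ^ n ∈ N0 := by
    rw [← map_pow]
    exact hxy _ hw
  -- fields which contain `N0` and `a w`
  have htop : ∀ M : IntermediateField Ω N, N0 ≤ M → a w ∈ M → M = ⊤ := by
    intro M hM hawM
    rw [eq_top_iff, ← hN, adjoin_le_iff]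
    rintro m (⟨k, rfl⟩ | rfl | rfl)
    · have h1 : (⊤ : IntermediateField Ω K) ≤ M.comap a := by
        rw [← hK, adjoin_le_iff]
        rintro k (rfl | rfl | rfl)
        · exact hM hax
        · exact hM hay
        · exact hawM
      exact h1 (mem_top (x := k))
    · exact hM hbv
    · have h1 : b u = b u / a w * a w := by field_simp
      rw [h1]
      exact M.mul_mem (hM hbu) hawM
  obtain ⟨hfin, hgal, hτ⟩ := kummer_gal N0 hn hn' hζ (a w) haw hpow htop
  -- the class is fixed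
  have hfix : ∀ τ : N →ₐ[N0] N, T.map 3 (τ.restrictScalars Ω)
      (T.cup N (T.map 2 a t) (T.map 1 b z)) = T.cup N (T.map 2 a t) (T.map 1 b z) := by
    intro τ
    obtain ⟨j, hj⟩ := hτ τ
    have hfixN : ∀ m ∈ N0, τ m = m := fun m hm => τ.commutes ⟨m, hm⟩
    have e1 : (τ.restrictScalars Ω).comp a = a.comp (σ ^ j) := by
      refine hom_ext _ hK _ _ ?_
      rintro k (rfl | rfl | rfl)
      · rw [AlgHom.comp_apply, AlgHom.comp_apply, pow_fix_12 σ hσ.1]
        exact hfixN _ hax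
      · rw [AlgHom.comp_apply, AlgHom.comp_apply, pow_fix_12 σ hσ.2.1]
        exact hfixN _ hay
      · rw [AlgHom.comp_apply, AlgHom.comp_apply, pow_apply_12 σ hσ.2.2, map_mul, map_pow,
          AlgHom.commutes]
        exact hj
    have e2 : (τ.restrictScalars Ω).comp b = b.comp (σ' ^ j) := by
      refine hom_ext _ hC _ _ ?_
      rintro k (rfl | rfl)
      · rw [AlgHom.comp_apply, AlgHom.comp_apply, pow_fix_12 σ' hσ'.1]
        exact hfixN _ hbv
      · rw [AlgHom.comp_apply, AlgHom.comp_apply, pow_apply_12 σ' hσ'.2, map_mul, map_pow,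
          AlgHom.commutes]
        change τ (b k) = _
        have h1 : b k = b k / a w * a w := by field_simp
        rw [h1, map_mul, hfixN _ hbu, hj]
        ring
    have m2 : T.map 2 (τ.restrictScalars Ω) (T.map 2 a t) = ξ ^ j • T.map 2 a t := by
      have h1 : T.map 2 (τ.restrictScalars Ω) (T.map 2 a t) =
          T.map 2 ((τ.restrictScalars Ω).comp a) t :=
        (LinearMap.congr_fun (T.map_comp 2 a (τ.restrictScalars Ω)) t).symm
      have h2 : T.map 2 (a.comp (σ ^ j)) t = T.map 2 a (T.map 2 (σ ^ j) t) :=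
        LinearMap.congr_fun (T.map_comp 2 (σ ^ j) a) t
      rw [h1, e1, h2, map_pow_12 T 2 σ ht j, map_smul]
    have m1 : T.map 1 (τ.restrictScalars Ω) (T.map 1 b z) = ξ⁻¹ ^ j • T.map 1 b z := by
      have h1 : T.map 1 (τ.restrictScalars Ω) (T.map 1 b z) =
          T.map 1 ((τ.restrictScalars Ω).comp b) z :=
        (LinearMap.congr_fun (T.map_comp 1 b (τ.restrictScalars Ω)) z).symm
      have h2 : T.map 1 (b.comp (σ' ^ j)) z = T.map 1 b (T.map 1 (σ' ^ j) z) :=
        LinearMap.congr_fun (T.map_comp 1 (σ' ^ j) b) z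
      rw [h1, e2, h2, map_pow_12 T 1 σ' hz j, map_smul]
    rw [T.map_cup, m2, m1, LinearMap.map_smul₂, map_smul, smul_smul, ← mul_pow,
      mul_inv_cancel₀ hξ, one_pow, one_smul]
  obtain ⟨z', hz'⟩ := T.descent 3 N N0 (T.cup N (T.map 2 a t) (T.map 1 b z)) hfix
  rw [← hz', huni z', map_zero]

end Pool.Agent.Helper75.QC
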