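import Mathlib

/-! Block QC-11. Linear algebra: semisimple endomorphisms of finite dimensional spaces. -/

set_option autoImplicit false

namespace Pool.Agent.Helper75.QC

open Module TensorProduct

variable {L : Type} [Field L]

private lemma aeval_restrict_apply93 {V : Type} [AddCommGroup V] [Module L V] (Φ : End L V) {p : Submodule L V}
    (hp : ∀ t ∈ p, Φ t ∈ p) (P : Polynomial L) (v : p) :
    ((Polynomial.aeval (Φ.restrict hp) P v : p) : V) = Polynomial.aeval Φ P (v : V) := by
  induction P using Polynomial.induction_on' with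
  | add P Q hP hQ => simp only [map_add, LinearMap.add_apply, Submodule.coe_add, hP, hQ]
  | monomial n a =>
    rw [Polynomial.aeval_monomial, Polynomial.aeval_monomial]
    have h : ∀ n : ℕ, (((Φ.restrict hp) ^ n) v : V) = (Φ ^ n) (v : V) := by
      intro n
      induction n with
      | zero => rfl
      | succ n ih => rw [pow_succ', pow_succ', Module.End.mul_apply, Module.End.mul_apply, LinearMap.restrict_coe_apply, ih]
    simp only [Module.End.mul_apply, Module.algebraMap_end_apply, Submodule.coe_smul, h]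

/-- `A^n = 1` is diagonalizable, `Φ` commutes with `A` and is semisimple on every eigenspace. -/
theorem semisimple_of_eigen [IsAlgClosed L] {V : Type} [AddCommGroup V] [Module L V]
    [FiniteDimensional L V] (A Φ : End L V) (hc : Commute A Φ) {n : ℕ} (hn : (n : L) ≠ 0)
    (hA : A ^ n = 1)
    (h : ∀ ξ : L, ∀ hP : ∀ t ∈ A.eigenspace ξ, Φ t ∈ A.eigenspace ξ,
      End.IsSemisimple (Φ.restrict hP)) :
    Φ.IsSemisimple := by
  classical
  have hinv : ∀ ξ : L, ∀ t ∈ A.eigenspace ξ, Φ t ∈ A.eigenspace ξ := by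
    intro ξ t ht
    rw [Module.End.mem_eigenspace_iff] at ht ⊢
    have h1 : A (Φ t) = Φ (A t) := LinearMap.congr_fun hc.eq t
    rw [h1, ht, map_smul]
  have hAss : A.IsSemisimple := by
    have hn0 : n ≠ 0 := by
      rintro rfl
      exact hn (by simp)
    refine End.isSemisimple_of_squarefree_aeval_eq_zero (p := Polynomial.X ^ n - Polynomial.C 1)
      (Polynomial.separable_X_pow_sub_C (1 : L) hn one_ne_zero).squarefree ?_
    simp [hA]
  have htop : (⨆ ξ, A.eigenspace ξ) = ⊤ := by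
    have h1 := Module.End.iSup_maxGenEigenspace_eq_top A
    rw [← h1]
    congr 1
    funext ξ
    exact (hAss.isFinitelySemisimple.maxGenEigenspace_eq_eigenspace ξ).symm
  have hm0 : minpoly L Φ ≠ 0 := minpoly.ne_zero (Algebra.IsIntegral.isIntegral Φ)
  refine End.isSemisimple_of_squarefree_aeval_eq_zero (p := UniqueFactorizationMonoid.radical (minpoly L Φ))
    UniqueFactorizationMonoid.squarefree_radical ?_
  have hker : (⨆ ξ, A.eigenspace ξ) ≤ LinearMap.ker (Polynomial.aeval Φ (UniqueFactorizationMonoid.radical (minpoly L Φ))) := by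
    refine iSup_le fun ξ => ?_
    intro v hv
    rw [LinearMap.mem_ker]
    have h1 : (minpoly L (Φ.restrict (hinv ξ))) ∣ minpoly L Φ := by
      apply minpoly.dvd
      ext w
      rw [aeval_restrict_apply93, minpoly.aeval]
      rfl
    have h2 : (minpoly L (Φ.restrict (hinv ξ))) ∣ UniqueFactorizationMonoid.radical (minpoly L Φ) :=
      (UniqueFactorizationMonoid.dvd_radical_iff (h ξ (hinv ξ)).minpoly_squarefree.isRadical hm0).2 h1
    obtain ⟨q, hq⟩ := h2
    have h3 := aeval_restrict_apply93 Φ (hinv ξ) (UniqueFactorizationMonoid.radical (minpoly L Φ)) ⟨v, hv⟩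
    rw [← h3, hq, map_mul, minpoly.aeval, zero_mul]
    rfl
  rw [htop, top_le_iff, LinearMap.ker_eq_top] at hker
  exact hker

/-- roots: if `Φ` is injective and `Φ^k` semisimple then `Φ` is semisimple (the minimal polynomial of
`Φ` divides `P(X^k)`, `P` squarefree with `P(0) ≠ 0`) -/
theorem semisimple_of_pow [CharZero L] [IsAlgClosed L] {V : Type} [AddCommGroup V] [Module L V]
    [FiniteDimensional L V] (Φ : End L V) (hi : Function.Injective Φ) {k : ℕ} (hk : 0 < k)
    (h : (Φ ^ k).IsSemisimple) : Φ.IsSemisimple := by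
  have hsep : (minpoly L (Φ ^ k)).Separable := PerfectField.separable_iff_squarefree.2 h.minpoly_squarefree
  have h0 : (minpoly L (Φ ^ k)).eval 0 ≠ 0 := by
    intro h1
    have h2 : Polynomial.IsRoot (minpoly L (Φ ^ k)) 0 := h1
    rw [← Module.End.hasEigenvalue_iff_isRoot] at h2
    obtain ⟨v, hv⟩ := h2.exists_hasEigenvector
    have h3 := hv.apply_eq_smul
    rw [zero_smul] at h3
    have h4 : Function.Injective (Φ ^ k) := by
      rw [Module.End.coe_pow]
      exact hi.iterate k
    exact hv.2 (h4 (by rw [h3, map_zero]))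
  obtain ⟨P, hP⟩ : ∃ P, P = minpoly L (Φ ^ k) := ⟨_, rfl⟩
  have haev : Polynomial.aeval Φ (Polynomial.expand L k P) = 0 := by
    rw [Polynomial.expand_aeval, hP, minpoly.aeval]
  rw [← hP] at hsep h0
  refine End.isSemisimple_of_squarefree_aeval_eq_zero (p := Polynomial.expand L k P) (Polynomial.Separable.squarefree ?_) haev
  rw [Polynomial.separable_def, Polynomial.derivative_expand]
  have hcop : IsCoprime (Polynomial.expand L k P) (Polynomial.expand L k (Polynomial.derivative P)) :=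
    IsCoprime.map hsep (Polynomial.expand L k).toRingHom
  refine IsCoprime.mul_right hcop ?_
  have hX : IsCoprime (Polynomial.expand L k P) Polynomial.X := by
    have h1 : (Polynomial.X : Polynomial L) ∣ Polynomial.expand L k P - Polynomial.C (P.eval 0) := by
      rw [Polynomial.X_dvd_iff, Polynomial.coeff_sub, Polynomial.coeff_C_zero, Polynomial.coeff_zero_eq_eval_zero,
        Polynomial.expand_eval, zero_pow hk.ne', sub_self]
    obtain ⟨q, hq⟩ := h1
    refine ⟨Polynomial.C (P.eval 0)⁻¹, -(Polynomial.C (P.eval 0)⁻¹ * q), ?_⟩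
    have h2 : Polynomial.expand L k P = Polynomial.X * q + Polynomial.C (P.eval 0) := by rw [← hq]; ring
    have h3 : (Polynomial.C (P.eval 0)⁻¹ : Polynomial L) * Polynomial.C (P.eval 0) = 1 := by
      rw [← Polynomial.C_mul, inv_mul_cancel₀ h0, Polynomial.C_1]
    rw [h2]
    linear_combination h3
  refine IsCoprime.mul_right ?_ hX.pow_right
  have hu : IsUnit ((k : ℕ) : Polynomial L) := by
    rw [← Polynomial.C_eq_natCast]
    exact Polynomial.isUnit_C.2 (isUnit_iff_ne_zero.2 (by exact_mod_cast hk.ne'))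
  exact isCoprime_of_isUnit_right93 hu
where
  isCoprime_of_isUnit_right93 {a u : Polynomial L} (hu : IsUnit u) : IsCoprime a u := by
    obtain ⟨w, hw⟩ := hu.exists_left_inv
    exact ⟨0, w, by rw [zero_mul, zero_add, hw]⟩

/-- semisimplicity passes to a quotient -/
private theorem surj93 {V W : Type} [AddCommGroup V] [Module L V] [AddCommGroup W] [Module L W]
    (Φ : End L V) (Ψ : End L W) (g : V →ₗ[L] W) (hg : Function.Surjective g)
    (hc : ∀ v, g (Φ v) = Ψ (g v)) (h : Φ.IsSemisimple) : Ψ.IsSemisimple := by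
  rw [End.isSemisimple_iff] at h ⊢
  intro p hp
  have h1 : p.comap g ∈ Φ.invtSubmodule := by
    rw [End.mem_invtSubmodule] at hp ⊢
    intro v hv
    rw [Submodule.mem_comap] at hv ⊢
    rw [Submodule.mem_comap, hc]
    exact hp hv
  obtain ⟨q, hq, hcomp⟩ := h _ h1
  refine ⟨q.map g, ?_, ?_⟩
  · rw [End.mem_invtSubmodule] at hq ⊢
    rintro _ ⟨v, hv, rfl⟩
    exact ⟨Φ v, hq hv, hc v⟩
  · constructor
    · rw [Submodule.disjoint_def]
      rintro _ hx ⟨v, hv, rfl⟩
      have h2 : v = 0 := (Submodule.disjoint_def.1 hcomp.disjoint) v hx hv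
      rw [h2, map_zero]
    · rw [codisjoint_iff, eq_top_iff]
      intro w _
      obtain ⟨v, rfl⟩ := hg w
      have h2 : v ∈ p.comap g ⊔ q := by
        rw [codisjoint_iff.1 hcomp.codisjoint]
        trivial
      obtain ⟨a, ha, b, hb, rfl⟩ := Submodule.mem_sup.1 h2
      rw [map_add]
      exact Submodule.add_mem_sup ha ⟨b, hb, rfl⟩

/-- `Φ ⊗ Ψ` on `W ⊗ z`, `Ψ z = l z`, `l ≠ 0` -/
theorem semisimple_of_tensor {V W : Type} [AddCommGroup V] [Module L V] [AddCommGroup W] [Module L W]
    (Φ : End L V) (Ψ : End L W) (z : W) (hz : z ≠ 0) (l : L) (hl : l ≠ 0) (hΨ : Ψ z = l • z)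
    (U : Submodule L V) (hU : ∀ t ∈ U, Φ t ∈ U)
    (hP : ∀ t ∈ U.map ((TensorProduct.mk L V W).flip z), TensorProduct.map Φ Ψ t ∈
      U.map ((TensorProduct.mk L V W).flip z))
    (h : End.IsSemisimple ((TensorProduct.map Φ Ψ).restrict hP)) :
    End.IsSemisimple (Φ.restrict hU) := by
  obtain ⟨φ, hφ⟩ : ∃ φ : W →ₗ[L] L, φ z = 1 := Module.exists_dual_forall_apply_eq_one93 hz
  rw [← End.IsSemisimple_smul_iff hl]
  -- the inverse of `t ↦ t ⊗ z`
  let r : V ⊗[L] W →ₗ[L] V := (TensorProduct.rid L V).toLinearMap ∘ₗ TensorProduct.map LinearMap.id φ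
  have hr : ∀ t, r ((TensorProduct.mk L V W).flip z t) = t := by
    intro t
    simp [r, hφ]
  have hrU : ∀ x ∈ U.map ((TensorProduct.mk L V W).flip z), r x ∈ U := by
    rintro _ ⟨t, ht, rfl⟩
    rw [hr]
    exact ht
  refine surj93 ((TensorProduct.map Φ Ψ).restrict hP) (l • Φ.restrict hU) (r.restrict hrU) ?_ ?_ h
  · rintro ⟨t, ht⟩
    exact ⟨⟨(TensorProduct.mk L V W).flip z t, ⟨t, ht, rfl⟩⟩, Subtype.ext (hr t)⟩
  · rintro ⟨_, t, ht, rfl⟩
    apply Subtype.ext
    change r (TensorProduct.map Φ Ψ ((TensorProduct.mk L V W).flip z t)) = l • Φ (r ((TensorProduct.mk L V W).flip z t))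
    rw [hr]
    simp [r, hΨ, hφ]
where
  Module.exists_dual_forall_apply_eq_one93 {W : Type} [AddCommGroup W] [Module L W] {z : W} (hz : z ≠ 0) :
      ∃ φ : W →ₗ[L] L, φ z = 1 := by
    obtain ⟨f, hf⟩ := Module.exists_dual_forall_apply_ne_zero93 hz
    exact ⟨(f z)⁻¹ • f, by simp [hf]⟩
  Module.exists_dual_forall_apply_ne_zero93 {W : Type} [AddCommGroup W] [Module L W] {z : W} (hz : z ≠ 0) :
      ∃ φ : W →ₗ[L] L, φ z ≠ 0 := by
    by_contra hcon
    push Not at hcon
    exact hz ((Module.forall_dual_apply_eq_zero_iff L z).1 hcon)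

/-- common eigenvector -/
theorem common_eigen [IsAlgClosed L] {V : Type} [AddCommGroup V] [Module L V]
    [FiniteDimensional L V] (B Ψ : End L V) (hc : Commute B Ψ) (ξ : L) (z : V) (hz : z ≠ 0)
    (hB : B z = ξ • z) : ∃ z' : V, ∃ l : L, z' ≠ 0 ∧ B z' = ξ • z' ∧ Ψ z' = l • z' := by
  have hinv : ∀ t ∈ B.eigenspace ξ, Ψ t ∈ B.eigenspace ξ := by
    intro t ht
    rw [Module.End.mem_eigenspace_iff] at ht ⊢
    have h1 : B (Ψ t) = Ψ (B t) := LinearMap.congr_fun hc.eq t
    rw [h1, ht, map_smul]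
  have hnt : Nontrivial (B.eigenspace ξ) :=
    ⟨⟨⟨z, Module.End.mem_eigenspace_iff.2 hB⟩, 0, fun h => hz (congrArg Subtype.val h)⟩⟩
  obtain ⟨l, hl⟩ := Module.End.exists_eigenvalue (Ψ.restrict hinv)
  obtain ⟨v, hv⟩ := hl.exists_hasEigenvector
  refine ⟨v, l, fun h => hv.2 (Subtype.ext h), Module.End.mem_eigenspace_iff.1 v.2, ?_⟩
  exact congrArg Subtype.val hv.apply_eq_smul

/-- semisimplicity passes to a quotient -/
theorem semisimple_of_surj {V W : Type} [AddCommGroup V] [Module L V] [AddCommGroup W] [Module L W]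
    (Φ : End L V) (Ψ : End L W) (g : V →ₗ[L] W) (hg : Function.Surjective g)
    (hc : ∀ v, g (Φ v) = Ψ (g v)) (h : Φ.IsSemisimple) : Ψ.IsSemisimple := surj93 Φ Ψ g hg hc h

private theorem compl93 {V : Type} [AddCommGroup V] [Module L V] (f : End L V) {p q : Submodule L V}
    (hp : p ∈ f.invtSubmodule) (hq : q ∈ f.invtSubmodule) (hpq : p ⊔ q = ⊤)
    (h1 : End.IsSemisimple (f.restrict hp)) (h2 : End.IsSemisimple (f.restrict hq)) : f.IsSemisimple := by
  obtain ⟨P, hPd⟩ : ∃ P : ((Algebra.lsmul L L V) f).invtSubmodule, P = ⟨p, hp⟩ := ⟨_, rfl⟩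
  obtain ⟨Q, hQd⟩ : ∃ Q : ((Algebra.lsmul L L V) f).invtSubmodule, Q = ⟨q, hq⟩ := ⟨_, rfl⟩
  have e1 : IsSemisimpleModule (Polynomial L) (AEval.mapSubmodule L V f P) := by
    have h1' : IsSemisimpleModule (Polynomial L) (AEval L p (LinearMap.restrict ((Algebra.lsmul L L V) f) hp)) := h1
    rw [hPd]
    exact IsSemisimpleModule.congr (AEval.restrict_equiv_mapSubmodule f p hp).symm
  have e2 : IsSemisimpleModule (Polynomial L) (AEval.mapSubmodule L V f Q) := by
    have h2' : IsSemisimpleModule (Polynomial L) (AEval L q (LinearMap.restrict ((Algebra.lsmul L L V) f) hq)) := h2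
    rw [hQd]
    exact IsSemisimpleModule.congr (AEval.restrict_equiv_mapSubmodule f q hq).symm
  have e3 := IsSemisimpleModule.sup e1 e2
  have e4 : P ⊔ Q = ⊤ := by
    rw [hPd, hQd]
    exact Subtype.ext hpq
  rw [← map_sup, e4, map_top] at e3
  exact IsSemisimpleModule.congr (Submodule.topEquiv (R := Polynomial L) (M := AEval L V f)).symm

/-- the second cohomology of a surface: kernel of `r` (with `Fr^m = q^m`), complement, and Frobenius
semisimple at the generic point -/
theorem semisimple_of_parts [CharZero L] {V W : Type} [AddCommGroup V] [Module L V]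
    [AddCommGroup W] [Module L W] (Fr : End L V) (Φ : End L W) (r : V →ₗ[L] W)
    (hc : ∀ v, r (Fr v) = Φ (r v)) (h : Φ.IsSemisimple) (q : L) (hq : q ≠ 0) {m : ℕ} (hm : 0 < m)
    (hker : ∀ v, r v = 0 → (Fr ^ m) v = q ^ m • v)
    (hW : ∃ U : Submodule L V, (∀ v ∈ U, Fr v ∈ U) ∧ IsCompl (LinearMap.ker r) U) :
    Fr.IsSemisimple := by
  obtain ⟨U, hU, hcomp⟩ := hW
  have hT : ∀ v ∈ LinearMap.ker r, Fr v ∈ LinearMap.ker r := by
    intro v hv
    rw [LinearMap.mem_ker] at hv ⊢
    rw [hc, hv, map_zero]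
  refine compl93 Fr (p := LinearMap.ker r) (q := U) hT hU (codisjoint_iff.1 hcomp.codisjoint) ?_ ?_
  · refine End.isSemisimple_of_squarefree_aeval_eq_zero (p := Polynomial.X ^ m - Polynomial.C (q ^ m))
      (Polynomial.separable_X_pow_sub_C (q ^ m) (by exact_mod_cast hm.ne') (pow_ne_zero _ hq)).squarefree ?_
    ext v
    rw [aeval_restrict_apply93]
    have h1 := hker v v.2
    rw [map_sub, Polynomial.aeval_X_pow, Polynomial.aeval_C, LinearMap.sub_apply, h1, Module.algebraMap_end_apply, sub_self]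
    rfl
  · -- `U` embeds in `W`
    have hrU : ∀ w ∈ U.map r, Φ w ∈ U.map r := by
      rintro _ ⟨v, hv, rfl⟩
      exact ⟨Fr v, hU v hv, hc v⟩
    have hs : End.IsSemisimple (Φ.restrict hrU) := h.restrict hrU
    have hinj : Function.Injective (r.domRestrict U) := by
      rw [← LinearMap.ker_eq_bot, LinearMap.ker_eq_bot']
      rintro ⟨v, hv⟩ h0
      exact Subtype.ext ((Submodule.disjoint_def.1 hcomp.disjoint) v h0 hv)
    let e : U ≃ₗ[L] (U.map r) := LinearEquiv.ofBijective (r.restrict (p := U) (q := U.map r) fun v hv => ⟨v, hv, rfl⟩)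
      ⟨fun a b hab => hinj (congrArg Subtype.val hab), by
        rintro ⟨_, v, hv, rfl⟩
        exact ⟨⟨v, hv⟩, rfl⟩⟩
    rw [e.isSemisimple_iff (Fr.restrict hU) (Φ.restrict hrU) (by
      apply LinearMap.ext
      rintro ⟨v, hv⟩
      apply Subtype.ext
      exact hc v)]
    exact hs

end Pool.Agent.Helper75.QC
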