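import Pool.Agent.Helper35.TD.CurveAB
import Pool.Agent.Helper75.QC.Cross
import Pool.Agent.Helper75.QC.Zf
import Pool.Agent.Helper75.QC.Quad
import Pool.Agent.Helper75.QC.Lin
import Pool.Agent.Helper75.QC.Coniv

/-! Block QC-15. The case `p ∤ n`.

Proof. `w = 0`: `K = Ω(x, y)` is uniruled (`E = K`, `S = {x}`, `θ = y`), `H 2 K = 0`. Let `w ≠ 0`,
`ζ` a primitive `n`-th root of unity in `Ω`, `σ` from `kummer_sigma`, `A = map 2 σ`, `A^n = 1`.
`k > 0` with `p^(e k) ≡ 1` modulo `n`; `φ^k` commutes with `σ` (`hom_ext`), so `Φ = map 2 (φ^k)`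
commutes with `A`. By `semisimple_of_pow` (`inj`: `K` is algebraic over the range of `φ`, which
contains `x^q, y^q, w^q`) and `semisimple_of_eigen` it suffices: `Φ` is semisimple on the eigenspace
`U` of `A` for `ξ`. If `ξ^n ≠ 1`, `U = 0`. If `ξ^2 = 1`, `U = 0` by `eigen_zero`. Let `ξ^2 ≠ 1`,
`ξ^n = 1`. `exists_curve`: `C, N, v, u, a, b`, `σ'` for `ζ`, `ψ` for `p^(e k)`. `curve` for `ξ⁻¹`
gives an eigenvector of `map 1 σ'`; `map 1 ψ` commutes with `map 1 σ'` (`p^(e k) ≡ 1`);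
`common_eigen` gives `z ≠ 0` with `map 1 σ' z = ξ⁻¹ z`, `map 1 ψ z = l z`, `l ≠ 0` since `map 1 ψ` is
injective (`inj`). `P = U ⊗ z`: the cross product vanishes on it by `cross_zero` and `uni_field`
(`s = b u / a w`, `v (1 - v) = u^n = s^n w^n = s^n f(x, y)`), it is stable; `coniveau` (`x, y` and `v`
as transcendence bases: `K ⊆ Acl {x, y}`, `C ⊆ Acl {v}`; `IsFrob` for the generators) and
`semisimple_of_tensor`. -/

set_option autoImplicit false

namespace Pool.Agent.Helper75.QC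

open IntermediateField

private theorem alg_of_pow15 {Ω K : Type} [Field Ω] [Field K] [Algebra Ω K] (R : IntermediateField Ω K)
    (S : Set K) (hS : adjoin Ω S = ⊤) (m : ℕ) (hm : 0 < m) (h : ∀ s ∈ S, s ^ m ∈ R) (k : K) :
    IsAlgebraic R k := by
  have h1 : adjoin Ω S ≤ (algebraicClosure R K).restrictScalars Ω := by
    rw [adjoin_le_iff]
    intro s hs
    have h2 : IsAlgebraic R s := by
      refine IsAlgebraic.of_pow hm ?_
      exact isAlgebraic_algebraMap (⟨s ^ m, h s hs⟩ : R)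
    exact (mem_algebraicClosure_iff).2 h2
  have h3 : k ∈ (algebraicClosure R K).restrictScalars Ω := by
    apply h1
    rw [hS]
    exact mem_top
  exact (mem_algebraicClosure_iff).1 h3

private theorem end_pow15 {Ω K : Type} [Field Ω] [Field K] [Algebra Ω K] (φ : K →ₐ[Ω] K) (q : ℕ)
    (x : K) (hx : φ x = x ^ q) (k : ℕ) : (φ ^ k) x = x ^ q ^ k := by
  induction k with
  | zero => simp
  | succ k ih =>
    rw [pow_succ, AlgHom.mul_apply, hx, map_pow, ih, ← pow_mul, pow_succ]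

private theorem end_pow15' {Ω K : Type} [Field Ω] [Field K] [Algebra Ω K] (σ : K →ₐ[Ω] K) (c : Ω)
    (x : K) (hx : σ x = algebraMap Ω K c * x) (k : ℕ) :
    (σ ^ k) x = algebraMap Ω K (c ^ k) * x := by
  induction k with
  | zero => simp
  | succ k ih =>
    rw [pow_succ, AlgHom.mul_apply, hx, map_mul, ih, AlgHom.commutes, pow_succ, map_mul]
    ring

private theorem map_pow15 {Ω L : Type} [Field Ω] [Field L] (T : BaseTheory Ω L) (i : ℕ)
    {K : Type} [Field K] [Algebra Ω K] (φ : K →ₐ[Ω] K) (k : ℕ) :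
    T.map i (φ ^ k) = (T.map i φ) ^ k := by
  induction k with
  | zero =>
    rw [pow_zero, pow_zero]
    exact T.map_id i K
  | succ k ih =>
    rw [pow_succ, pow_succ, ← ih]
    exact T.map_comp i φ (φ ^ k)

private theorem semisimple_of_zero15 {L V : Type} [Field L] [AddCommGroup V] [Module L V]
    (Φ : Module.End L V) (h : ∀ v : V, v = 0) : Φ.IsSemisimple := by
  have h1 : Φ = 0 := by
    ext v
    rw [h v, map_zero, map_zero]
  rw [h1]
  exact Module.End.isSemisimple_zero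

private theorem fv_map15 {Ω K N : Type} [Field Ω] [Field K] [Algebra Ω K] [Field N] [Algebra Ω N]
    (a : K →ₐ[Ω] N) (c : ℕ → ℕ → Ω) (x y : K) : a (Fv c x y) = Fv c (a x) (a y) := by
  unfold Fv
  simp only [map_sum, map_mul, map_pow, AlgHom.commutes]

private theorem fv_mem15 {Ω K : Type} [Field Ω] [Field K] [Algebra Ω K] (c : ℕ → ℕ → Ω) (x y : K) :
    Fv c x y ∈ adjoin Ω {x, y} := by
  unfold Fv
  refine sum_mem fun i _ => sum_mem fun j _ => mul_mem (mul_mem ?_ (pow_mem ?_ i)) (pow_mem ?_ j)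
  · exact IntermediateField.algebraMap_mem _ _
  · exact subset_adjoin _ _ (by simp)
  · exact subset_adjoin _ _ (by simp)

/-- **The criterion.** The cyclic cover `w^n ∈ Ω(x, y)` and the curve `u^n = v^α (1 - v)^β`: if the
threefolds `v^α (1 - v)^β = s^n w^n` are uniruled, Frobenius is semisimple. -/
theorem tame_gen {p : ℕ} [Fact p.Prime] {Ω L : Type} [Field Ω] [CharP Ω p] [IsAlgClosed Ω]
    [Field L] [CharZero L] [IsAlgClosed L] (T : Theory p Ω L) (α β : ℕ) {n e : ℕ} (hn : 0 < n)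
    (hn' : (n : Ω) ≠ 0) (hαβ : (α.gcd β).Coprime n) {K : Type} [Field K] [Algebra Ω K] (x y w : K)
    (hK : adjoin Ω {x, y, w} = ⊤) (hw0 : w ≠ 0) (hw : w ^ n ∈ adjoin Ω {x, y})
    (hdeg : Module.finrank (adjoin Ω {x, y}) K = n)
    (huni : ∀ (N : Type) [Field N] [Algebra Ω N] (g : K →ₐ[Ω] N) (v s : N),
      Transcendental g.fieldRange v → v ^ α * (1 - v) ^ β = s ^ n * g w ^ n →
      Uniruled Ω (adjoin Ω {g x, g y, v, s} : IntermediateField Ω N) 3)
    (hexc : ∀ (ζ : Ω) (σ : K →ₐ[Ω] K), IsPrimitiveRoot ζ n → σ x = x → σ y = y →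
      σ w = algebraMap Ω K ζ * w → ∀ (ξ : L) (t : T.H 2 K), ξ ^ n = 1 →
      (ξ ^ α = 1 ∨ ξ ^ β = 1 ∨ ξ ^ (α + β) = 1) → T.map 2 σ t = ξ • t → t = 0)
    (φ : K →ₐ[Ω] K) (hφ : φ x = x ^ p ^ e ∧ φ y = y ^ p ^ e ∧ φ w = w ^ p ^ e) :
    Module.End.IsSemisimple (T.map 2 φ) := by
  classical
  have hfin : (⊤ : IntermediateField Ω K).FG := by
    rw [← hK]
    exact fg_adjoin_of_finite (Set.toFinite _)
  have : NeZero (n : Ω) := ⟨hn'⟩
  obtain ⟨ζ, hζ⟩ : ∃ ζ : Ω, IsPrimitiveRoot ζ n :=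
    HasEnoughRootsOfUnity.exists_primitiveRoot Ω n
  obtain ⟨σ, hσ⟩ := kummer_sigma hn hn' hζ.pow_eq_one x y w hK hw hdeg
  have hσn : σ ^ n = 1 := by
    refine hom_ext {x, y, w} hK _ _ ?_
    rintro s (rfl | rfl | rfl)
    · have := end_pow15' σ 1 s (by rw [hσ.1, map_one, one_mul]) n
      rw [this]
      simp
    · have := end_pow15' σ 1 s (by rw [hσ.2.1, map_one, one_mul]) n
      rw [this]
      simp
    · rw [end_pow15' σ ζ s hσ.2.2 n, hζ.pow_eq_one]
      simp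
  have : FiniteDimensional L (T.H 2 K) := T.fin 2 K hfin
  set k := n.totient with hk
  have hk0 : 0 < k := Nat.totient_pos.2 hn
  have hcop : Nat.Coprime p n := by
    rw [Nat.Prime.coprime_iff_not_dvd Fact.out]
    intro h
    exact hn' ((CharP.cast_eq_zero_iff Ω p n).2 h)
  have hpk : p ^ (e * k) ≡ 1 [MOD n] := by
    have h1 : p ^ k ≡ 1 [MOD n] := Nat.ModEq.pow_totient hcop
    have h2 := h1.pow e
    rwa [one_pow, ← pow_mul, mul_comm] at h2
  have hζp : ζ ^ p ^ (e * k) = ζ := by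
    have h1 : n ∣ p ^ (e * k) - 1 :=
      (Nat.modEq_iff_dvd' (Nat.one_le_iff_ne_zero.2 (pow_ne_zero _ (Fact.out : p.Prime).ne_zero))).1
        hpk.symm
    obtain ⟨r, hr⟩ := h1
    have h2 : p ^ (e * k) = n * r + 1 := by
      have := Nat.one_le_iff_ne_zero.2 (pow_ne_zero (e * k) (Fact.out : p.Prime).ne_zero)
      omega
    rw [h2, pow_succ, pow_mul, hζ.pow_eq_one, one_pow, one_mul]
  have hpe : 0 < p ^ (e * k) := pow_pos (Fact.out : p.Prime).pos _
  set φk : K →ₐ[Ω] K := φ ^ k with hφk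
  have hφx : φk x = x ^ p ^ (e * k) := by
    rw [hφk, end_pow15 φ _ x hφ.1 k, pow_mul]
  have hφy : φk y = y ^ p ^ (e * k) := by
    rw [hφk, end_pow15 φ _ y hφ.2.1 k, pow_mul]
  have hφw : φk w = w ^ p ^ (e * k) := by
    rw [hφk, end_pow15 φ _ w hφ.2.2 k, pow_mul]
  have hcomm : σ.comp φk = φk.comp σ := by
    refine hom_ext {x, y, w} hK _ _ ?_
    rintro s (rfl | rfl | rfl)
    · rw [AlgHom.comp_apply, AlgHom.comp_apply, hφx, map_pow, hσ.1, hφx]
    · rw [AlgHom.comp_apply, AlgHom.comp_apply, hφy, map_pow, hσ.2.1, hφy]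
    · rw [AlgHom.comp_apply, AlgHom.comp_apply, hφw, map_pow, hσ.2.2, map_mul, hφw,
        AlgHom.commutes, mul_pow, ← map_pow, hζp]
  set A : Module.End L (T.H 2 K) := T.map 2 σ with hA
  set Φ : Module.End L (T.H 2 K) := T.map 2 φk with hΦ
  have hAn : A ^ n = 1 := by
    rw [hA, ← map_pow15 T.toBaseTheory, hσn]
    exact T.map_id 2 K
  have hAΦ : Commute A Φ := by
    show A * Φ = Φ * A
    have h1 := T.map_comp 2 φk σ
    have h2 := T.map_comp 2 σ φk
    rw [hcomm, h2] at h1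
    exact h1.symm
  have hinj : Function.Injective (T.map 2 φ) := by
    refine T.inj 2 φ fun a => alg_of_pow15 φ.fieldRange {x, y, w} hK (p ^ e)
      (pow_pos (Fact.out : p.Prime).pos _) ?_ a
    rintro s (rfl | rfl | rfl)
    · exact ⟨s, hφ.1⟩
    · exact ⟨s, hφ.2.1⟩
    · exact ⟨s, hφ.2.2⟩
  refine semisimple_of_pow (T.map 2 φ) hinj hk0 ?_
  rw [← map_pow15 T.toBaseTheory]
  have hnL : (n : L) ≠ 0 := by exact_mod_cast hn.ne'
  refine semisimple_of_eigen A Φ hAΦ hnL hAn fun ξ hP => ?_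
  have hzero : (∀ t ∈ A.eigenspace ξ, t = 0) → Module.End.IsSemisimple (Φ.restrict hP) := by
    intro h
    refine semisimple_of_zero15 _ fun v => ?_
    exact Subtype.ext (h v.1 v.2)
  have hpow : ∀ t ∈ A.eigenspace ξ, (A ^ n) t = ξ ^ n • t := by
    intro t ht
    have h1 : A t = ξ • t := Module.End.mem_eigenspace_iff.1 ht
    have h2 : ∀ j : ℕ, (A ^ j) t = ξ ^ j • t := by
      intro j
      induction j with
      | zero => simp
      | succ j ih =>
        rw [pow_succ, Module.End.mul_apply, h1, map_smul, ih, smul_smul, pow_succ, mul_comm]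
    exact h2 n
  by_cases hξn : ξ ^ n = 1
  swap
  · apply hzero
    intro t ht
    have h1 := hpow t ht
    rw [hAn, Module.End.one_apply] at h1
    by_contra h0
    apply hξn
    have h2 : (ξ ^ n - 1) • t = 0 := by
      rw [sub_smul, ← h1, one_smul, sub_self]
    exact sub_eq_zero.1 ((smul_eq_zero.1 h2).resolve_right h0)
  by_cases hξ2 : ξ ^ α = 1 ∨ ξ ^ β = 1 ∨ ξ ^ (α + β) = 1
  · apply hzero
    intro t ht
    exact hexc ζ σ hζ hσ.1 hσ.2.1 hσ.2.2 ξ t hξn hξ2 (Module.End.mem_eigenspace_iff.1 ht)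
  rw [not_or, not_or] at hξ2
  have hξ0 : ξ ≠ 0 := by
    rintro rfl
    rw [zero_pow hn.ne'] at hξn
    exact zero_ne_one hξn
  obtain ⟨C, N, iC, jC, iN, jN, v, u, a, b, hv, hu, hC, hbv, hN, hsig, hpsi, -⟩ :=
    Pool.Agent.Helper35.TD.exists_curve_ab (Ω := Ω) hn hαβ K
  obtain ⟨σ', hσ'⟩ := hsig ζ hζ.pow_eq_one
  obtain ⟨ψ, hψ⟩ := hpsi p Fact.out inferInstance (e * k)
  have hfinC : (⊤ : IntermediateField Ω C).FG := by
    rw [← hC]
    exact fg_adjoin_of_finite (Set.toFinite _)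
  have : FiniteDimensional L (T.H 1 C) := T.fin 1 C hfinC
  obtain ⟨z0, hz0, hz0'⟩ := T.curve C n α β ζ v u σ' hn' hζ hv hu hC hσ'.1 hσ'.2 ξ⁻¹
    (by rw [inv_pow, hξn, inv_one]) (by
      intro h
      rw [inv_pow, inv_eq_one] at h
      exact hξ2.1 h) (by
      intro h
      rw [inv_pow, inv_eq_one] at h
      exact hξ2.2.1 h) (by
      intro h
      rw [inv_pow, inv_eq_one] at h
      exact hξ2.2.2 h)
  have hcommC : σ'.comp ψ = ψ.comp σ' := by
    refine hom_ext {v, u} hC _ _ ?_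
    rintro s (rfl | rfl)
    · rw [AlgHom.comp_apply, AlgHom.comp_apply, hψ.1, map_pow, hσ'.1, hψ.1]
    · rw [AlgHom.comp_apply, AlgHom.comp_apply, hψ.2, map_pow, hσ'.2, map_mul, hψ.2,
        AlgHom.commutes, mul_pow, ← map_pow, hζp]
  have hcC : Commute (T.map 1 σ' : Module.End L (T.H 1 C)) (T.map 1 ψ) := by
    show (T.map 1 σ' : Module.End L (T.H 1 C)) * T.map 1 ψ = T.map 1 ψ * T.map 1 σ'
    have h1 := T.map_comp 1 ψ σ'
    have h2 := T.map_comp 1 σ' ψ
    rw [hcommC, h2] at h1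
    exact h1.symm
  obtain ⟨z, l, hz, hσz, hψz⟩ := common_eigen (T.map 1 σ' : Module.End L (T.H 1 C)) (T.map 1 ψ) hcC
    ξ⁻¹ z0 hz0 hz0'
  have hinjC : Function.Injective (T.map 1 ψ) := by
    refine T.inj 1 ψ fun a => alg_of_pow15 ψ.fieldRange {v, u} hC (p ^ (e * k)) hpe ?_ a
    rintro s (rfl | rfl)
    · exact ⟨s, hψ.1⟩
    · exact ⟨s, hψ.2⟩
  have hl : l ≠ 0 := by
    rintro rfl
    rw [zero_smul] at hψz
    exact hz (hinjC (by rw [hψz, map_zero]))
  have huni' : ∀ z : T.H 3 (adjoin Ω {a x, a y, b v, b u / a w} : IntermediateField Ω N), z = 0 := by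
    apply T.uniruled
    refine huni N a (b v) (b u / a w) hbv ?_
    have h2 : b u ^ n = b v ^ α * (1 - b v) ^ β := by
      rw [← map_pow, hu, map_mul, map_pow, map_pow, map_sub, map_one]
    have h3 : a w ≠ 0 := fun h => hw0 (a.injective (h.trans (map_zero a).symm))
    rw [div_pow, h2, div_mul_cancel₀ _ (pow_ne_zero _ h3)]
  have hPP : ∀ t ∈ (A.eigenspace ξ).map ((TensorProduct.mk L (T.H 2 K) (T.H 1 C)).flip z),
      TensorProduct.map Φ (T.map 1 ψ) t ∈
        (A.eigenspace ξ).map ((TensorProduct.mk L (T.H 2 K) (T.H 1 C)).flip z) := by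
    rintro _ ⟨s, hs, rfl⟩
    refine ⟨l • Φ s, Submodule.smul_mem _ _ (hP s hs), ?_⟩
    simp only [LinearMap.flip_apply, TensorProduct.mk_apply, TensorProduct.map_tmul]
    rw [hψz, TensorProduct.tmul_smul, TensorProduct.smul_tmul']
  refine semisimple_of_tensor Φ (T.map 1 ψ) z hz l hl hψz (A.eigenspace ξ) hP hPP ?_
  refine T.coniveau (Fact.out : p.Prime).ne_zero a b x y v (e * k) φk ψ hfin hfinC ?_ ?_ hbv ?_ ?_ _ ?_ hPP
  · intro s
    have : FiniteDimensional (adjoin Ω {x, y}) K :=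
      Module.finite_of_finrank_pos (by rw [hdeg]; exact hn)
    exact Algebra.IsAlgebraic.isAlgebraic s
  · intro s
    rw [← mem_AF]
    have h1 : adjoin Ω {v, u} ≤ AF Ω {v} := by
      rw [adjoin_le_iff]
      have hvm : v ∈ AF Ω {v} := subset_AF _ (by simp)
      rintro s (rfl | rfl)
      · exact hvm
      · apply AF_root hn
        rw [hu]
        exact mul_mem (pow_mem hvm _) (pow_mem (sub_mem (one_mem _) hvm) _)
    apply h1
    rw [hC]
    exact mem_top
  · unfold IsFrob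
    rw [eq_top_iff, ← hK, adjoin_le_iff]
    rintro s (rfl | rfl | rfl)
    · exact subset_adjoin _ _ hφx
    · exact subset_adjoin _ _ hφy
    · exact subset_adjoin _ _ hφw
  · unfold IsFrob
    rw [eq_top_iff, ← hC, adjoin_le_iff]
    rintro s (rfl | rfl)
    · exact subset_adjoin _ _ hψ.1
    · exact subset_adjoin _ _ hψ.2
  · rintro _ ⟨s, hs, rfl⟩
    simp only [LinearMap.flip_apply, TensorProduct.mk_apply, TensorProduct.lift.tmul,
      LinearMap.compl₁₂_apply]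
    exact cross_zero T.toBaseTheory hn hn' hζ a b x y w v u hK hC hN hw0 hw σ hσ σ' hσ' huni' ξ hξ0 s
      (Module.End.mem_eigenspace_iff.1 hs) z hσz

/-- `w = 0` -/
private theorem w_zero15 {p : ℕ} {Ω L : Type} [Field Ω] [Field L] (T : Theory p Ω L) {K : Type}
    [Field K] [Algebra Ω K] (x y w : K) (hK : adjoin Ω {x, y, w} = ⊤) (hw0 : w = 0)
    (φ : K →ₐ[Ω] K) : Module.End.IsSemisimple (T.map 2 φ) := by
  apply semisimple_of_zero15
  apply T.uniruled
  refine ⟨K, inferInstance, inferInstance, AlgHom.id Ω K, {x}, y, by simp, fun k => ?_⟩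
  have h1 : adjoin Ω {x, y, w} ≤ adjoin Ω (Acl Ω (({x} : Finset K) : Set K) ∪ {y}) := by
    rw [adjoin_le_iff]
    rintro s (rfl | rfl | rfl)
    · refine subset_adjoin _ _ (Or.inl ?_)
      rw [← coe_AF]
      exact subset_AF _ (by simp)
    · exact subset_adjoin _ _ (Or.inr rfl)
    · rw [hw0]
      exact zero_mem _
  apply h1
  rw [hK]
  exact mem_top

theorem tame {p : ℕ} [Fact p.Prime] {Ω L : Type} [Field Ω] [CharP Ω p] [IsAlgClosed Ω] [Field L]
    [CharZero L] [IsAlgClosed L] (T : Theory p Ω L) (f : MvPolynomial (Fin 2) Ω)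
    (hf : f.totalDegree ≤ 4) {n e : ℕ} (hn : 0 < n) (hn' : (n : Ω) ≠ 0) {K : Type}
    [Field K] [Algebra Ω K] (x y w : K) (hK : adjoin Ω {x, y, w} = ⊤)
    (hw : w ^ n = MvPolynomial.aeval ![x, y] f)
    (hdeg : Module.finrank (adjoin Ω {x, y}) K = n) (φ : K →ₐ[Ω] K)
    (hφ : φ x = x ^ p ^ e ∧ φ y = y ^ p ^ e ∧ φ w = w ^ p ^ e) :
    Module.End.IsSemisimple (T.map 2 φ) := by
  by_cases hw0 : w = 0
  · exact w_zero15 T x y w hK hw0 φ
  obtain ⟨c, hc⟩ := exists_Fv f hf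
  refine tame_gen T 1 1 hn hn' (by simp) x y w hK hw0
    (by rw [hw, hc K x y]; exact fv_mem15 c x y) hdeg ?_ ?_ φ hφ
  · intro N _ _ g v s hv hs
    refine uni_field c hn (g x) (g y) v s ?_ ?_
    · intro h
      exact hv (h.tower_top _)
    · rw [pow_one, pow_one, ← map_pow, hw, hc K x y, fv_map15] at hs
      exact hs
  · intro ζ σ hζ h1 h2 h3 ξ t _ hξ ht
    have hξ2 : ξ ^ 2 = 1 := by
      rcases hξ with h | h | h
      · rw [pow_one] at h
        rw [h, one_pow]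
      · rw [pow_one] at h
        rw [h, one_pow]
      · exact h
    refine eigen_zero T.toBaseTheory f hf hn hn' hζ x y w hK hw0 hw σ ⟨h1, h2, h3⟩ t ?_
    rw [ht, map_smul, ht, smul_smul, ← pow_two, hξ2, one_smul]

end Pool.Agent.Helper75.QC
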