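import Pool.Agent.Helper75.QC.Base

/-! Block QC-9. The curve `C : u^n = v (1 - v)` over `Ω` and its product with `K`.

Construction: for a field `F` over `Ω` with `(n : F) ≠ 0` (`0 < n`) the polynomial
`X^n - v (1 - v)` over `F(v) = RatFunc F` is irreducible (Eisenstein at the prime `v` of `F[v]`:
`Polynomial.irreducible_of_eisenstein_criterion`, primitive since monic, and the lemma of Gauss
`Polynomial.IsPrimitive.irreducible_iff_irreducible_map_fraction_map`). `C = AdjoinRoot` of it for
`F = Ω`, `N = AdjoinRoot` of it for `F = K`, `b : C → N` from `RatFunc Ω → RatFunc K` (mapping `v`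
to `v`) and root to root, `a : K → RatFunc K → N`. `v` is transcendental over `K` in `RatFunc K`,
hence `b v` is transcendental over `a.fieldRange`. `σ`: `AdjoinRoot.lift` root to `ζ * root`.
`ψ`: `v ↦ v^q` on `RatFunc Ω` (`v^q` is transcendental), root to `root^q`; characteristic `p`,
`q = p^e`: `(u^q)^n = (v (1 - v))^q = v^q (1 - v^q)`. -/

set_option autoImplicit false

namespace Pool.Agent.Helper75.QC

open IntermediateField

/-- the polynomial over the rational functions -/
private noncomputable def pol99 (n β : ℕ) (F : Type) [Field F] : Polynomial (RatFunc F) :=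
  Polynomial.X ^ n - Polynomial.C (RatFunc.X * (1 - RatFunc.X) ^ β)

/-- the polynomial over the polynomials -/
private noncomputable def pol0_99 (n β : ℕ) (F : Type) [Field F] : Polynomial (Polynomial F) :=
  Polynomial.X ^ n - Polynomial.C (Polynomial.X * (1 - Polynomial.X) ^ β)

private lemma irr99 {n : ℕ} (β : ℕ) (hn : 0 < n) (F : Type) [Field F] : Irreducible (pol99 n β F) := by
  have hmonic : (pol0_99 n β F).Monic := Polynomial.monic_X_pow_sub_C _ hn.ne'
  have hdeg : (pol0_99 n β F).degree = n := Polynomial.degree_X_pow_sub_C hn _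
  have h1 : Irreducible (pol0_99 n β F) := by
    refine Polynomial.irreducible_of_eisenstein_criterion (P := Ideal.span {Polynomial.X}) ?_ ?_ ?_ ?_ ?_
      hmonic.isPrimitive
    · rw [Ideal.span_singleton_prime Polynomial.X_ne_zero]
      exact Polynomial.prime_X
    · rw [hmonic.leadingCoeff, Ideal.mem_span_singleton]
      intro h
      have := Polynomial.X_dvd_iff.1 h
      simp at this
    · intro m hm
      rw [hdeg, Nat.cast_lt] at hm
      rw [Ideal.mem_span_singleton]
      unfold pol0_99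
      rw [Polynomial.coeff_sub, Polynomial.coeff_X_pow, if_neg hm.ne, zero_sub, dvd_neg, Polynomial.coeff_C]
      split_ifs
      · exact Dvd.intro _ rfl
      · exact dvd_zero _
    · rw [hdeg]
      exact_mod_cast hn
    · unfold pol0_99
      rw [Polynomial.coeff_sub, Polynomial.coeff_X_pow, if_neg hn.ne, zero_sub, Polynomial.coeff_C_zero,
        Ideal.span_singleton_pow, Ideal.mem_span_singleton, dvd_neg, sq]
      intro h
      have h2 := (mul_dvd_mul_iff_left (Polynomial.X_ne_zero (R := F))).1 h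
      have := Polynomial.X_dvd_iff.1 h2
      rw [Polynomial.coeff_zero_eq_eval_zero] at this
      simp at this
  have h2 := (hmonic.isPrimitive.irreducible_iff_irreducible_map_fraction_map (K := RatFunc F)).1 h1
  have h3 : (pol0_99 n β F).map (algebraMap (Polynomial F) (RatFunc F)) = pol99 n β F := by
    unfold pol0_99 pol99
    simp [Polynomial.map_sub, Polynomial.map_pow, RatFunc.algebraMap_X]
  rwa [h3] at h2

private instance irrI99 {n β : ℕ} [NeZero n] (F : Type) [Field F] : Fact (Irreducible (pol99 n β F)) :=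
  ⟨irr99 β (Nat.pos_of_ne_zero (NeZero.ne n)) F⟩

/-- homomorphisms out of the function field of the curve -/
private lemma hom99 {Ω : Type} [Field Ω] {n β : ℕ} [NeZero n] {E : Type} [Field E] [Algebra Ω E] (t w : E)
    (ht : Transcendental Ω t) (h : w ^ n = t * (1 - t) ^ β) :
    ∃ b : AdjoinRoot (pol99 n β Ω) →ₐ[Ω] E, b (AdjoinRoot.of _ RatFunc.X) = t ∧ b (AdjoinRoot.root _) = w := by
  have hinj : Function.Injective (Polynomial.aeval t : Polynomial Ω →ₐ[Ω] E) :=
    transcendental_iff_injective.1 ht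
  let i : RatFunc Ω →ₐ[Ω] E := RatFunc.liftAlgHom (Polynomial.aeval t)
    (nonZeroDivisors_le_comap_nonZeroDivisors_of_injective _ hinj)
  have hi : i RatFunc.X = t := by
    have h1 := RatFunc.liftAlgHom_apply_div (Polynomial.aeval t : Polynomial Ω →ₐ[Ω] E)
      (nonZeroDivisors_le_comap_nonZeroDivisors_of_injective _ hinj) Polynomial.X 1
    rw [map_one, map_one, div_one, div_one, RatFunc.algebraMap_X, Polynomial.aeval_X] at h1
    exact h1
  have hP : (pol99 n β Ω).eval₂ (i : RatFunc Ω →+* E) w = 0 := by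
    unfold pol99
    rw [Polynomial.eval₂_sub, Polynomial.eval₂_pow, Polynomial.eval₂_X, Polynomial.eval₂_C, h]
    have : (i : RatFunc Ω →+* E) (RatFunc.X * (1 - RatFunc.X) ^ β) = t * (1 - t) ^ β := by
      rw [map_mul, map_pow, map_sub, map_one]
      show i RatFunc.X * (1 - i RatFunc.X) ^ β = _
      rw [hi]
    rw [this, sub_self]
  refine ⟨AdjoinRoot.liftAlgHom _ i w hP, ?_, ?_⟩
  · rw [AdjoinRoot.liftAlgHom_of, hi]
  · rw [AdjoinRoot.liftAlgHom_root]

/-- generation -/
private lemma gen99 {Ω : Type} [Field Ω] {n β : ℕ} [NeZero n] (F : Type) [Field F] [Algebra Ω F]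
    (S : IntermediateField Ω (AdjoinRoot (pol99 n β F)))
    (h1 : ∀ k : F, AdjoinRoot.of (pol99 n β F) (algebraMap F (RatFunc F) k) ∈ S)
    (h2 : AdjoinRoot.of (pol99 n β F) RatFunc.X ∈ S) (h3 : AdjoinRoot.root (pol99 n β F) ∈ S) : S = ⊤ := by
  have h4 : ∀ P : Polynomial F, AdjoinRoot.of (pol99 n β F) (algebraMap (Polynomial F) (RatFunc F) P) ∈ S := by
    intro P
    induction P using Polynomial.induction_on' with
    | add p q hp hq => rw [map_add, map_add]; exact add_mem hp hq
    | monomial m c =>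
      rw [← Polynomial.C_mul_X_pow_eq_monomial, map_mul, map_pow, RatFunc.algebraMap_X, RatFunc.algebraMap_C,
        map_mul, map_pow]
      exact mul_mem (h1 c) (pow_mem h2 m)
  have h5 : ∀ r : RatFunc F, AdjoinRoot.of (pol99 n β F) r ∈ S := by
    intro r
    rw [← RatFunc.num_div_denom r, map_div₀]
    exact div_mem (h4 _) (h4 _)
  rw [eq_top_iff]
  intro x _
  obtain ⟨g, rfl⟩ := AdjoinRoot.mk_surjective x
  induction g using Polynomial.induction_on' with
  | add p q hp hq => rw [map_add]; exact add_mem (hp trivial) (hq trivial)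
  | monomial m c =>
    rw [← Polynomial.C_mul_X_pow_eq_monomial, map_mul, map_pow, AdjoinRoot.mk_C, AdjoinRoot.mk_X]
    exact mul_mem (h5 c) (pow_mem h3 m)

private lemma root99 {n β : ℕ} [NeZero n] (F : Type) [Field F] :
    AdjoinRoot.root (pol99 n β F) ^ n =
      AdjoinRoot.of (pol99 n β F) RatFunc.X * (1 - AdjoinRoot.of (pol99 n β F) RatFunc.X) ^ β := by
  have h := AdjoinRoot.eval₂_root (pol99 n β F)
  conv at h =>
    lhs
    arg 3
    unfold pol99
  rw [Polynomial.eval₂_sub, Polynomial.eval₂_pow, Polynomial.eval₂_X, Polynomial.eval₂_C, map_mul, map_pow,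
    map_sub, map_one] at h
  exact sub_eq_zero.1 h

theorem exists_curve {Ω : Type} [Field Ω] {p : ℕ} [Fact p.Prime] [CharP Ω p] {n : ℕ} (β : ℕ) (hn : 0 < n)
    (_hn' : (n : Ω) ≠ 0) (K : Type) [Field K] [Algebra Ω K] :
    ∃ (C N : Type) (_ : Field C) (_ : Algebra Ω C) (_ : Field N) (_ : Algebra Ω N)
      (v u : C) (a : K →ₐ[Ω] N) (b : C →ₐ[Ω] N),
      Transcendental Ω v ∧ u ^ n = v * (1 - v) ^ β ∧ adjoin Ω {v, u} = ⊤ ∧
      Transcendental a.fieldRange (b v) ∧
      adjoin Ω (Set.range a ∪ {b v, b u}) = ⊤ ∧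
      (∀ ζ : Ω, ζ ^ n = 1 → ∃ σ : C →ₐ[Ω] C, σ v = v ∧ σ u = algebraMap Ω C ζ * u) ∧
      (∀ e : ℕ, ∃ ψ : C →ₐ[Ω] C, ψ v = v ^ p ^ e ∧ ψ u = u ^ p ^ e) := by
  have hne : NeZero n := ⟨hn.ne'⟩
  have htr : ∀ (F : Type) [Field F] (P : Polynomial F),
      P.eval₂ ((AdjoinRoot.of (pol99 n β F)).comp (algebraMap F (RatFunc F)))
        (AdjoinRoot.of (pol99 n β F) RatFunc.X) = 0 → P = 0 := by
    intro F _ P hP
    rw [← Polynomial.hom_eval₂] at hP
    have h1 : P.eval₂ (algebraMap F (RatFunc F)) RatFunc.X = 0 :=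
      (AdjoinRoot.of (pol99 n β F)).injective (by rw [hP, map_zero])
    by_contra h0
    exact RatFunc.transcendental_X (K := F) ⟨P, h0, h1⟩
  have hvt : Transcendental Ω (AdjoinRoot.of (pol99 n β Ω) RatFunc.X) := by
    rintro ⟨P, hP0, hP⟩
    exact hP0 (htr Ω P hP)
  let a : K →ₐ[Ω] AdjoinRoot (pol99 n β K) :=
    { (AdjoinRoot.of (pol99 n β K)).comp (algebraMap K (RatFunc K)) with
      commutes' := fun r => by
        show AdjoinRoot.of (pol99 n β K) (algebraMap K (RatFunc K) (algebraMap Ω K r)) = _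
        rw [← IsScalarTower.algebraMap_apply Ω K (RatFunc K)]
        rfl }
  have htrK : Transcendental Ω (AdjoinRoot.of (pol99 n β K) RatFunc.X) := by
    rintro ⟨P, hP0, hP⟩
    apply hP0
    have h1 : P.map (algebraMap Ω K) = 0 := by
      apply htr K
      have h4 : ((AdjoinRoot.of (pol99 n β K)).comp (algebraMap K (RatFunc K))).comp
          (algebraMap Ω K) = algebraMap Ω (AdjoinRoot (pol99 n β K)) := a.comp_algebraMap
      rw [Polynomial.eval₂_map, h4]
      exact hP
    exact (Polynomial.map_eq_zero _).1 h1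
  obtain ⟨b, hb1, hb2⟩ := hom99 (Ω := Ω) (n := n) (β := β) _ _ htrK (root99 K)
  refine ⟨AdjoinRoot (pol99 n β Ω), AdjoinRoot (pol99 n β K), inferInstance, inferInstance, inferInstance,
    inferInstance, AdjoinRoot.of _ RatFunc.X, AdjoinRoot.root _, a, b, hvt, root99 Ω, ?_, ?_, ?_, ?_, ?_⟩
  · refine gen99 Ω _ (fun k => ?_) (subset_adjoin Ω _ (by simp)) (subset_adjoin Ω _ (by simp))
    exact IntermediateField.algebraMap_mem _ k
  · rw [hb1]
    rintro ⟨P, hP0, hP⟩
    apply hP0
    let e : K ≃+* a.fieldRange := (AlgEquiv.ofInjectiveField a).toRingEquiv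
    have h1 : P.map (e.symm : a.fieldRange →+* K) = 0 := by
      apply htr K
      have h4 : ((AdjoinRoot.of (pol99 n β K)).comp (algebraMap K (RatFunc K))).comp
          (e.symm : a.fieldRange →+* K) = algebraMap a.fieldRange (AdjoinRoot (pol99 n β K)) := by
        ext x
        have h2 : ∀ k : K, ((e k : a.fieldRange) : AdjoinRoot (pol99 n β K)) = a k := fun k => rfl
        have h3 := h2 (e.symm x)
        rw [RingEquiv.apply_symm_apply] at h3
        exact h3.symm
      rw [Polynomial.eval₂_map, h4]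
      exact hP
    exact (Polynomial.map_eq_zero _).1 h1
  · rw [hb1, hb2]
    refine gen99 K _ (fun k => subset_adjoin Ω _ (Or.inl ⟨k, rfl⟩)) (subset_adjoin Ω _ (by simp))
      (subset_adjoin Ω _ (by simp))
  · intro ζ hζ
    refine hom99 (Ω := Ω) (n := n) (β := β) (AdjoinRoot.of (pol99 n β Ω) RatFunc.X)
      (algebraMap Ω _ ζ * AdjoinRoot.root (pol99 n β Ω)) hvt ?_
    rw [mul_pow, ← map_pow, hζ, map_one, one_mul, root99]
  · intro e
    have hchar : CharP (AdjoinRoot (pol99 n β Ω)) p :=
      charP_of_injective_algebraMap (algebraMap Ω (AdjoinRoot (pol99 n β Ω))).injective p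
    refine hom99 (Ω := Ω) (n := n) (β := β) (AdjoinRoot.of (pol99 n β Ω) RatFunc.X ^ p ^ e)
      (AdjoinRoot.root (pol99 n β Ω) ^ p ^ e) (hvt.pow (pow_pos (Fact.out : p.Prime).pos e)) ?_
    rw [← pow_mul, mul_comm, pow_mul, root99, mul_pow, ← pow_mul, mul_comm β,
      pow_mul, sub_pow_char_pow, one_pow]

end Pool.Agent.Helper75.QC
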