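import Pool.Agent.Helper75.QC.Quart

/-! Block QC-2. Through every point there is a line on which a quartic polynomial has a double root,
finite or at infinity.

Proof. `Fv c (x + α t) (y + β t) = ∑ gk(α, β) t^k`, `gk` a form of degree `k` in `(α, β)`
(explicit: expand with `Finset.sum_range_succ`, `ring`). `D(α, β) = disc4 (s1 g4) (s1 g3) (s1 g2)
(s1 g1) (s0 + s1 g0)` satisfies `D(l α, l β) = l^12 D(α, β)` (`disc4_weight`). If `D(0, 1) = 0` take
`(0, 1)`. Otherwise `P(β) = D(1, β)` (a polynomial in `β`) is not constant: if it were the constant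
`k`, then `R(α) = D(α, 1) = α^12 D(1, 1/α) = k α^12` for all `α ≠ 0`, so `R = k X^12` (infinite
field) and `D(0, 1) = R(0) = 0`. So `P` has a root `β`, take `(1, β)`. Then `quartic_double`. -/

set_option autoImplicit false

namespace Pool.Agent.Helper75.QC

open Polynomial

/-- the coefficients of `t^k` on the line, as forms in the direction, over any commutative ring -/
private def gA47 {R : Type} [CommRing R] (c : ℕ → ℕ → R) (a b : R) : R :=
  c 4 0 * a ^ 4 + c 3 1 * a ^ 3 * b + c 2 2 * a ^ 2 * b ^ 2 + c 1 3 * a * b ^ 3 + c 0 4 * b ^ 4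

private def gB47 {R : Type} [CommRing R] (c : ℕ → ℕ → R) (x y a b : R) : R :=
  c 4 0 * (4 * x * a ^ 3) + c 3 1 * (3 * x * a ^ 2 * b + y * a ^ 3)
    + c 2 2 * (2 * x * a * b ^ 2 + 2 * y * a ^ 2 * b)
    + c 1 3 * (x * b ^ 3 + 3 * y * a * b ^ 2) + c 0 4 * (4 * y * b ^ 3)
    + c 3 0 * a ^ 3 + c 2 1 * a ^ 2 * b + c 1 2 * a * b ^ 2 + c 0 3 * b ^ 3

private def gC47 {R : Type} [CommRing R] (c : ℕ → ℕ → R) (x y a b : R) : R :=
  c 4 0 * (6 * x ^ 2 * a ^ 2) + c 3 1 * (3 * x ^ 2 * a * b + 3 * x * y * a ^ 2)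
    + c 2 2 * (x ^ 2 * b ^ 2 + 4 * x * y * a * b + y ^ 2 * a ^ 2)
    + c 1 3 * (3 * x * y * b ^ 2 + 3 * y ^ 2 * a * b) + c 0 4 * (6 * y ^ 2 * b ^ 2)
    + c 3 0 * (3 * x * a ^ 2) + c 2 1 * (2 * x * a * b + y * a ^ 2)
    + c 1 2 * (x * b ^ 2 + 2 * y * a * b) + c 0 3 * (3 * y * b ^ 2)
    + c 2 0 * a ^ 2 + c 1 1 * a * b + c 0 2 * b ^ 2

private def gD47 {R : Type} [CommRing R] (c : ℕ → ℕ → R) (x y a b : R) : R :=
  c 4 0 * (4 * x ^ 3 * a) + c 3 1 * (x ^ 3 * b + 3 * x ^ 2 * y * a)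
    + c 2 2 * (2 * x ^ 2 * y * b + 2 * x * y ^ 2 * a)
    + c 1 3 * (3 * x * y ^ 2 * b + y ^ 3 * a) + c 0 4 * (4 * y ^ 3 * b)
    + c 3 0 * (3 * x ^ 2 * a) + c 2 1 * (x ^ 2 * b + 2 * x * y * a)
    + c 1 2 * (2 * x * y * b + y ^ 2 * a) + c 0 3 * (3 * y ^ 2 * b)
    + c 2 0 * (2 * x * a) + c 1 1 * (x * b + y * a) + c 0 2 * (2 * y * b)
    + c 1 0 * a + c 0 1 * b

private def gE47 {R : Type} [CommRing R] (c : ℕ → ℕ → R) (x y : R) : R :=
  c 4 0 * x ^ 4 + c 3 1 * x ^ 3 * y + c 2 2 * x ^ 2 * y ^ 2 + c 1 3 * x * y ^ 3 + c 0 4 * y ^ 4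
    + c 3 0 * x ^ 3 + c 2 1 * x ^ 2 * y + c 1 2 * x * y ^ 2 + c 0 3 * y ^ 3
    + c 2 0 * x ^ 2 + c 1 1 * x * y + c 0 2 * y ^ 2 + c 1 0 * x + c 0 1 * y + c 0 0

private def disc47 {R : Type} [CommRing R] (a4 a3 a2 a1 a0 : R) : R :=
  256 * a4 ^ 3 * a0 ^ 3 - 192 * a4 ^ 2 * a3 * a1 * a0 ^ 2 - 128 * a4 ^ 2 * a2 ^ 2 * a0 ^ 2
    + 144 * a4 ^ 2 * a2 * a1 ^ 2 * a0 - 27 * a4 ^ 2 * a1 ^ 4 + 144 * a4 * a3 ^ 2 * a2 * a0 ^ 2
    - 6 * a4 * a3 ^ 2 * a1 ^ 2 * a0 - 80 * a4 * a3 * a2 ^ 2 * a1 * a0 + 18 * a4 * a3 * a2 * a1 ^ 3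
    + 16 * a4 * a2 ^ 4 * a0 - 4 * a4 * a2 ^ 3 * a1 ^ 2 - 27 * a3 ^ 4 * a0 ^ 2
    + 18 * a3 ^ 3 * a2 * a1 * a0 - 4 * a3 ^ 3 * a1 ^ 3 - 4 * a3 ^ 2 * a2 ^ 3 * a0
    + a3 ^ 2 * a2 ^ 2 * a1 ^ 2

private theorem disc47_eq {E : Type} [Field E] (a4 a3 a2 a1 a0 : E) :
    disc47 a4 a3 a2 a1 a0 = disc4 a4 a3 a2 a1 a0 := rfl

private theorem map_gA47 {R S : Type} [CommRing R] [CommRing S] (f : R →+* S) (c : ℕ → ℕ → R)
    (a b : R) : f (gA47 c a b) = gA47 (fun i j => f (c i j)) (f a) (f b) := by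
  simp only [gA47, map_add, map_mul, map_pow]

private theorem map_gB47 {R S : Type} [CommRing R] [CommRing S] (f : R →+* S) (c : ℕ → ℕ → R)
    (x y a b : R) : f (gB47 c x y a b) = gB47 (fun i j => f (c i j)) (f x) (f y) (f a) (f b) := by
  simp only [gB47, map_add, map_mul, map_pow, map_ofNat]

private theorem map_gC47 {R S : Type} [CommRing R] [CommRing S] (f : R →+* S) (c : ℕ → ℕ → R)
    (x y a b : R) : f (gC47 c x y a b) = gC47 (fun i j => f (c i j)) (f x) (f y) (f a) (f b) := by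
  simp only [gC47, map_add, map_mul, map_pow, map_ofNat]

private theorem map_gD47 {R S : Type} [CommRing R] [CommRing S] (f : R →+* S) (c : ℕ → ℕ → R)
    (x y a b : R) : f (gD47 c x y a b) = gD47 (fun i j => f (c i j)) (f x) (f y) (f a) (f b) := by
  simp only [gD47, map_add, map_mul, map_pow, map_ofNat]

private theorem map_gE47 {R S : Type} [CommRing R] [CommRing S] (f : R →+* S) (c : ℕ → ℕ → R)
    (x y : R) : f (gE47 c x y) = gE47 (fun i j => f (c i j)) (f x) (f y) := by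
  simp only [gE47, map_add, map_mul, map_pow]

private theorem map_disc47 {R S : Type} [CommRing R] [CommRing S] (f : R →+* S)
    (a4 a3 a2 a1 a0 : R) :
    f (disc47 a4 a3 a2 a1 a0) = disc47 (f a4) (f a3) (f a2) (f a1) (f a0) := by
  simp only [disc47, map_add, map_sub, map_mul, map_pow, map_ofNat]

/-- the discriminant in the direction -/
private def DD47 {R : Type} [CommRing R] (c : ℕ → ℕ → R) (x y s0 s1 a b : R) : R :=
  disc47 (s1 * gA47 c a b) (s1 * gB47 c x y a b) (s1 * gC47 c x y a b) (s1 * gD47 c x y a b)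
    (s0 + s1 * gE47 c x y)

private theorem map_DD47 {R S : Type} [CommRing R] [CommRing S] (f : R →+* S) (c : ℕ → ℕ → R)
    (x y s0 s1 a b : R) : f (DD47 c x y s0 s1 a b) =
      DD47 (fun i j => f (c i j)) (f x) (f y) (f s0) (f s1) (f a) (f b) := by
  simp only [DD47, map_disc47, map_gA47, map_gB47, map_gC47, map_gD47, map_gE47, map_add, map_mul]

private theorem gA47_hom {R : Type} [CommRing R] (c : ℕ → ℕ → R) (l a b : R) :
    gA47 c (l * a) (l * b) = l ^ 4 * gA47 c a b := by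
  unfold gA47
  ring

private theorem gB47_hom {R : Type} [CommRing R] (c : ℕ → ℕ → R) (x y l a b : R) :
    gB47 c x y (l * a) (l * b) = l ^ 3 * gB47 c x y a b := by
  unfold gB47
  ring

private theorem gC47_hom {R : Type} [CommRing R] (c : ℕ → ℕ → R) (x y l a b : R) :
    gC47 c x y (l * a) (l * b) = l ^ 2 * gC47 c x y a b := by
  unfold gC47
  ring

private theorem gD47_hom {R : Type} [CommRing R] (c : ℕ → ℕ → R) (x y l a b : R) :
    gD47 c x y (l * a) (l * b) = l * gD47 c x y a b := by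
  unfold gD47
  ring

private theorem DD47_hom {E : Type} [Field E] (c : ℕ → ℕ → E) (x y s0 s1 l a b : E) :
    DD47 c x y s0 s1 (l * a) (l * b) = l ^ 12 * DD47 c x y s0 s1 a b := by
  unfold DD47
  rw [gA47_hom, gB47_hom, gC47_hom, gD47_hom, disc47_eq, disc47_eq, ← disc4_weight]
  congr 1 <;> ring

/-- a binary form has a zero -/
private theorem root47 {E : Type} [Field E] [IsAlgClosed E] (P R : E[X]) (n : ℕ) (hn : 0 < n)
    (h : ∀ a : E, a ≠ 0 → R.eval a = a ^ n * P.eval a⁻¹) :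
    R.eval 0 = 0 ∨ ∃ b, P.eval b = 0 := by
  by_cases hP : P.degree = 0
  · left
    have hC : P = C (P.coeff 0) := eq_C_of_degree_eq_zero hP
    have : Infinite E := IsAlgClosed.instInfinite
    have hR : R = X ^ n * C (P.coeff 0) := by
      have h1 : (R - X ^ n * C (P.coeff 0)) * X = 0 := by
        apply Polynomial.funext
        intro a
        by_cases ha : a = 0
        · simp [ha]
        · rw [hC] at h
          simp only [eval_mul, eval_sub, eval_X, eval_pow, eval_C, eval_zero] at h ⊢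
          rw [h a ha]
          ring
      rcases mul_eq_zero.1 h1 with h2 | h2
      · exact sub_eq_zero.1 h2
      · exact absurd h2 X_ne_zero
    rw [hR]
    simp [hn.ne']
  · right
    obtain ⟨b, hb⟩ := IsAlgClosed.exists_root P hP
    exact ⟨b, hb⟩

variable {Ω E : Type} [Field Ω] [Field E] [Algebra Ω E]

private theorem Fv_line47 (c : ℕ → ℕ → Ω) (x y a b t : E) :
    Fv c (x + a * t) (y + b * t) =
      gE47 (fun i j => algebraMap Ω E (c i j)) x y
        + gD47 (fun i j => algebraMap Ω E (c i j)) x y a b * t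
        + gC47 (fun i j => algebraMap Ω E (c i j)) x y a b * t ^ 2
        + gB47 (fun i j => algebraMap Ω E (c i j)) x y a b * t ^ 3
        + gA47 (fun i j => algebraMap Ω E (c i j)) a b * t ^ 4 := by
  simp only [Fv, Finset.sum_range_succ, Finset.sum_range_zero, gA47, gB47, gC47, gD47, gE47]
  ring

theorem direction [IsAlgClosed E] (c : ℕ → ℕ → Ω) (x y s0 s1 : E) :
    ∃ α β : E, (α = 1 ∨ (α = 0 ∧ β = 1)) ∧
      ((∃ A B C : E, ∀ t, s0 + s1 * Fv c (x + α * t) (y + β * t) = A + B * t + C * t ^ 2) ∨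
       (∃ t0 A B C : E, ∀ t, s0 + s1 * Fv c (x + α * t) (y + β * t) =
          (t - t0) ^ 2 * (A + B * t + C * t ^ 2))) := by
  set k : ℕ → ℕ → E := fun i j => algebraMap Ω E (c i j) with hk
  obtain ⟨α, β, hab, hD⟩ : ∃ α β : E, (α = 1 ∨ (α = 0 ∧ β = 1)) ∧ DD47 k x y s0 s1 α β = 0 := by
    have e : ∀ (p q : E[X]) (a : E), (DD47 (fun i j => Polynomial.C (k i j)) (Polynomial.C x)
        (Polynomial.C y) (Polynomial.C s0) (Polynomial.C s1) p q).eval a =
        DD47 k x y s0 s1 (p.eval a) (q.eval a) := by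
      intro p q a
      have := map_DD47 (evalRingHom a) (fun i j => Polynomial.C (k i j)) (Polynomial.C x)
        (Polynomial.C y) (Polynomial.C s0) (Polynomial.C s1) p q
      simpa only [coe_evalRingHom, eval_C] using this
    rcases root47 (DD47 (fun i j => Polynomial.C (k i j)) (Polynomial.C x)
        (Polynomial.C y) (Polynomial.C s0) (Polynomial.C s1) 1 X)
        (DD47 (fun i j => Polynomial.C (k i j)) (Polynomial.C x)
        (Polynomial.C y) (Polynomial.C s0) (Polynomial.C s1) X 1) 12 (by norm_num) (by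
          intro a ha
          rw [e, e, eval_X, eval_one, eval_X, eval_one, ← DD47_hom, mul_one, mul_inv_cancel₀ ha])
      with h | ⟨b, h⟩
    · rw [e, eval_X, eval_one] at h
      exact ⟨0, 1, Or.inr ⟨rfl, rfl⟩, h⟩
    · rw [e, eval_X, eval_one] at h
      exact ⟨1, b, Or.inl rfl, h⟩
  refine ⟨α, β, hab, ?_⟩
  unfold DD47 at hD
  rw [disc47_eq] at hD
  rcases quartic_double _ _ _ _ _ hD with ⟨h4, h3⟩ | ⟨t0, A, B, C, h⟩
  · left
    refine ⟨s0 + s1 * gE47 k x y, s1 * gD47 k x y α β, s1 * gC47 k x y α β, fun t => ?_⟩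
    rw [Fv_line47]
    linear_combination t ^ 4 * h4 + t ^ 3 * h3
  · right
    refine ⟨t0, A, B, C, fun t => ?_⟩
    rw [Fv_line47, ← h t]
    ring

/-- Through every point there is a line on which the coefficient of `t^3` is zero (form of degree
three in the direction, same argument). -/
theorem direction3 [IsAlgClosed E] (c : ℕ → ℕ → Ω) (x y : E) :
    ∃ α β : E, (α = 1 ∨ (α = 0 ∧ β = 1)) ∧ ∃ A0 A1 A2 A4 : E,
      ∀ t, Fv c (x + α * t) (y + β * t) = A0 + A1 * t + A2 * t ^ 2 + A4 * t ^ 4 := by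
  set k : ℕ → ℕ → E := fun i j => algebraMap Ω E (c i j) with hk
  obtain ⟨α, β, hab, hD⟩ : ∃ α β : E, (α = 1 ∨ (α = 0 ∧ β = 1)) ∧ gB47 k x y α β = 0 := by
    have e : ∀ (p q : E[X]) (a : E), (gB47 (fun i j => Polynomial.C (k i j)) (Polynomial.C x)
        (Polynomial.C y) p q).eval a = gB47 k x y (p.eval a) (q.eval a) := by
      intro p q a
      have := map_gB47 (evalRingHom a) (fun i j => Polynomial.C (k i j)) (Polynomial.C x)
        (Polynomial.C y) p q
      simpa only [coe_evalRingHom, eval_C] using this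
    rcases root47 (gB47 (fun i j => Polynomial.C (k i j)) (Polynomial.C x) (Polynomial.C y) 1 X)
        (gB47 (fun i j => Polynomial.C (k i j)) (Polynomial.C x) (Polynomial.C y) X 1) 3
        (by norm_num) (by
          intro a ha
          rw [e, e, eval_X, eval_one, eval_X, eval_one, ← gB47_hom, mul_one, mul_inv_cancel₀ ha])
      with h | ⟨b, h⟩
    · rw [e, eval_X, eval_one] at h
      exact ⟨0, 1, Or.inr ⟨rfl, rfl⟩, h⟩
    · rw [e, eval_X, eval_one] at h
      exact ⟨1, b, Or.inl rfl, h⟩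
  refine ⟨α, β, hab, gE47 k x y, gD47 k x y α β, gC47 k x y α β, gA47 k α β, fun t => ?_⟩
  rw [Fv_line47]
  linear_combination t ^ 3 * hD

end Pool.Agent.Helper75.QC
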