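import Pool.Agent.Helper75.QC.Base

/-! Block QC-10. Kummer theory.

`kummer_gal`: `K = N(w)`, `w^n ∈ N`, `N` contains the `n`-th roots of unity: `K` is the splitting
field of the separable polynomial `X^n - w^n` over `N` (or: `w` is integral, its minimal polynomial
divides `X^n - w^n`, separable, splits in `K`). `τ w` is a root of `X^n - w^n`, so
`τ w = ζ^j w`.
`kummer_sigma`: `K = Ω(x, y, w)` has degree `n` over `F0 = Ω(x, y)`, so the minimal polynomial of
`w` over `F0` is `X^n - f(x, y)`, `ζ w` is a root of it, so there is `σ : K → K` over `F0`. -/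

set_option autoImplicit false

namespace Pool.Agent.Helper75.QC

open IntermediateField Polynomial

variable {Ω : Type} [Field Ω]

/-- the field generated by one element over an intermediate field -/
private lemma adj_top {K : Type} [Field K] [Algebra Ω K] (N : IntermediateField Ω K) (w : K)
    (hK : ∀ M : IntermediateField Ω K, N ≤ M → w ∈ M → M = ⊤) : N⟮w⟯ = ⊤ := by
  have h := hK (N⟮w⟯.restrictScalars Ω) ?_ ?_
  · rw [eq_top_iff]
    intro a _
    have ha : a ∈ N⟮w⟯.restrictScalars Ω := by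
      rw [h]
      exact mem_top
    exact ha
  · intro a ha
    rw [mem_restrictScalars]
    exact (N⟮w⟯).algebraMap_mem (⟨a, ha⟩ : N)
  · rw [mem_restrictScalars]
    exact mem_adjoin_simple_self N w

theorem kummer_gal {K : Type} [Field K] [Algebra Ω K] (N : IntermediateField Ω K) {n : ℕ}
    (hn : 0 < n) (hn' : (n : Ω) ≠ 0) {ζ : Ω} (hζ : IsPrimitiveRoot ζ n) (w : K) (hw0 : w ≠ 0)
    (hw : w ^ n ∈ N) (hK : ∀ M : IntermediateField Ω K, N ≤ M → w ∈ M → M = ⊤) :
    FiniteDimensional N K ∧ IsGalois N K ∧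
      ∀ τ : K →ₐ[N] K, ∃ j : ℕ, τ w = algebraMap Ω K ζ ^ j * w := by
  have hζK : IsPrimitiveRoot (algebraMap Ω K ζ) n :=
    hζ.map_of_injective (algebraMap Ω K).injective
  obtain ⟨a, ha⟩ : ∃ a : N, a = ⟨w ^ n, hw⟩ := ⟨_, rfl⟩
  have haK : algebraMap N K a = w ^ n := by
    rw [ha]
    rfl
  have ha0 : a ≠ 0 := by
    intro h
    rw [h, map_zero] at haK
    exact hw0 (pow_eq_zero_iff hn.ne' |>.1 haK.symm)
  have hnN : (n : N) ≠ 0 := by
    intro h
    apply hn'
    apply (algebraMap Ω N).injective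
    rw [map_natCast, map_zero]
    exact h
  have hsep : (X ^ n - C a : N[X]).Separable := separable_X_pow_sub_C a hnN ha0
  have htop := adj_top N w hK
  have hmap : (X ^ n - C a : N[X]).map (algebraMap N K) = X ^ n - C (w ^ n) := by
    rw [Polynomial.map_sub, Polynomial.map_pow, Polynomial.map_X, Polynomial.map_C, haK]
  have hsplit : IsSplittingField N K (X ^ n - C a : N[X]) := by
    constructor
    · rw [hmap]
      exact X_pow_sub_C_splits_of_isPrimitiveRoot hζK rfl
    · rw [eq_top_iff]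
      have hwr : w ∈ (X ^ n - C a : N[X]).rootSet K := by
        rw [Polynomial.mem_rootSet]
        refine ⟨X_pow_sub_C_ne_zero hn a, ?_⟩
        rw [map_sub, map_pow, aeval_X, aeval_C, haK, sub_self]
      have hint : IsIntegral N w := by
        refine ⟨X ^ n - C a, monic_X_pow_sub_C a hn.ne', ?_⟩
        rw [← aeval_def, map_sub, map_pow, aeval_X, aeval_C, haK, sub_self]
      have h1 : (N⟮w⟯).toSubalgebra = Algebra.adjoin N {w} :=
        adjoin_simple_toSubalgebra_of_isAlgebraic hint.isAlgebraic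
      have h2 : (⊤ : Subalgebra N K) = Algebra.adjoin N {w} := by
        rw [← h1, htop]
        rfl
      rw [h2]
      exact Algebra.adjoin_mono (Set.singleton_subset_iff.2 hwr)
  have := hsplit
  have hfin : FiniteDimensional N K := IsSplittingField.finiteDimensional K (X ^ n - C a : N[X])
  refine ⟨hfin, IsGalois.of_separable_splitting_field hsep, ?_⟩
  intro τ
  have : NeZero n := ⟨hn.ne'⟩
  have h1 : (τ w / w) ^ n = 1 := by
    rw [div_pow, ← map_pow, ← haK, AlgHom.commutes, haK]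
    exact div_self (pow_ne_zero n hw0)
  obtain ⟨j, _, hj⟩ := hζK.eq_pow_of_pow_eq_one h1
  refine ⟨j, ?_⟩
  rw [hj]
  exact (div_mul_cancel₀ _ hw0).symm

theorem kummer_sigma {K : Type} [Field K] [Algebra Ω K] {n : ℕ} (hn : 0 < n) (hn' : (n : Ω) ≠ 0)
    {ζ : Ω} (hζ : ζ ^ n = 1) (x y w : K) (hK : adjoin Ω {x, y, w} = ⊤)
    (hw : w ^ n ∈ adjoin Ω {x, y}) (hdeg : Module.finrank (adjoin Ω {x, y}) K = n) :
    ∃ σ : K →ₐ[Ω] K, σ x = x ∧ σ y = y ∧ σ w = algebraMap Ω K ζ * w := by
  obtain ⟨N, hN⟩ : ∃ N : IntermediateField Ω K, N = adjoin Ω {x, y} := ⟨_, rfl⟩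
  rw [← hN] at hw hdeg
  have hx : x ∈ N := by
    rw [hN]
    exact subset_adjoin Ω _ (by simp)
  have hy : y ∈ N := by
    rw [hN]
    exact subset_adjoin Ω _ (by simp)
  have htop : N⟮w⟯ = ⊤ := by
    apply adj_top N w
    intro M hM hwM
    rw [eq_top_iff, ← hK, adjoin_le_iff]
    intro s hs
    rcases hs with h | h | h
    · rw [h]
      exact hM hx
    · rw [h]
      exact hM hy
    · rw [Set.mem_singleton_iff.1 h]
      exact hwM
  obtain ⟨a, ha⟩ : ∃ a : N, a = ⟨w ^ n, hw⟩ := ⟨_, rfl⟩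
  have haK : algebraMap N K a = w ^ n := by
    rw [ha]
    rfl
  have hev : ∀ z : K, z ^ n = w ^ n → aeval z (X ^ n - C a : N[X]) = 0 := by
    intro z hz
    rw [map_sub, map_pow, aeval_X, aeval_C, haK, hz, sub_self]
  have hint : IsIntegral N w :=
    ⟨X ^ n - C a, monic_X_pow_sub_C a hn.ne', by rw [← aeval_def]; exact hev w rfl⟩
  have hd : (minpoly N w).natDegree = n := by
    rw [← adjoin.finrank hint, htop, finrank_top', hdeg]
  have hdvd : minpoly N w ∣ (X ^ n - C a : N[X]) := minpoly.dvd N w (hev w rfl)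
  have heq : minpoly N w = X ^ n - C a := by
    refine (Polynomial.eq_of_monic_of_dvd_of_natDegree_le (minpoly.monic hint)
      (monic_X_pow_sub_C a hn.ne') hdvd ?_).symm
    rw [natDegree_X_pow_sub_C, hd]
  have hz : aeval (algebraMap Ω K ζ * w) (minpoly N w) = 0 := by
    rw [heq]
    apply hev
    rw [mul_pow, ← map_pow, hζ, map_one, one_mul]
  have hmem : algebraMap Ω K ζ * w ∈ (minpoly N w).aroots K := by
    rw [mem_aroots]
    exact ⟨minpoly.ne_zero hint, hz⟩
  obtain ⟨φ, hφ⟩ : ∃ φ : N⟮w⟯ →ₐ[N] K, φ (AdjoinSimple.gen N w) = algebraMap Ω K ζ * w :=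
    ⟨(algHomAdjoinIntegralEquiv N hint).symm ⟨_, hmem⟩,
      algHomAdjoinIntegralEquiv_symm_apply_gen N hint ⟨_, hmem⟩⟩
  have hall : ∀ z : K, z ∈ N⟮w⟯ := fun z => by
    rw [htop]
    exact mem_top
  obtain ⟨ψ, hψ⟩ : ∃ ψ : K →ₐ[N] N⟮w⟯, ∀ z, ψ z = ⟨z, hall z⟩ :=
    ⟨{ toFun := fun z => ⟨z, hall z⟩
       map_one' := rfl
       map_mul' := fun _ _ => rfl
       map_zero' := rfl
       map_add' := fun _ _ => rfl
       commutes' := fun _ => rfl }, fun _ => rfl⟩
  have hc : ∀ b : N, (φ.comp ψ) b = b := fun b => (φ.comp ψ).commutes b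
  refine ⟨(φ.comp ψ).restrictScalars Ω, ?_, ?_, ?_⟩
  · exact hc ⟨x, hx⟩
  · exact hc ⟨y, hy⟩
  · rw [AlgHom.restrictScalars_apply, AlgHom.comp_apply, hψ]
    exact hφ

/-- two homomorphisms which agree on generators are equal -/
theorem hom_ext {K K' : Type} [Field K] [Algebra Ω K] [Field K'] [Algebra Ω K'] (S : Set K)
    (hS : adjoin Ω S = ⊤) (g h : K →ₐ[Ω] K') (H : ∀ s ∈ S, g s = h s) : g = h := by
  apply AlgHom.ext
  intro a
  have ha : a ∈ adjoin Ω S := by
    rw [hS]
    exact mem_top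
  induction ha using adjoin_induction with
  | mem x hx => exact H x hx
  | algebraMap x => rw [AlgHom.commutes, AlgHom.commutes]
  | add x y _ _ hx hy => rw [map_add, map_add, hx, hy]
  | inv x _ hx => rw [map_inv₀, map_inv₀, hx]
  | mul x y _ _ hx hy => rw [map_mul, map_mul, hx, hy]

end Pool.Agent.Helper75.QC
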