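import Pool.Agent.Helper75.QC.Dir
import Pool.Agent.Helper75.QC.Dep

/-! Block QC-5. A line with a double root, direction `(1, β)`.

(i) Finite double root `t0`: `t0 ≠ 0` since the value at `t = 0` is `r^2 ≠ 0`. Let `a = x + t0`,
`b = y + β t0`, `μ = -t0`, so `x = a + μ`, `y = b + β μ`, and for all `t` (put `t + t0`)
`s0 + s1 Fv c (a + t) (b + β t) = t^2 (A' + B' t + C' t^2)`. Compare with `Fv_line` (two
polynomials of degree at most four which agree for all `t`, `E` is infinite, have the same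
coefficients): `s0 + s1 Fv c a b = 0`, `Fv (dvx c) a b + β Fv (dvy c) a b = 0` (`s1 ≠ 0`),
`A' = s1 G2`, `B' = s1 G3`, `C' = s1 G4`. At `t = μ`: `r^2 = μ^2 (A' + B' μ + C' μ^2)`.
(ii) Double root at infinity: `s0 + s1 Fv c (x + t) (y + β t) = A + B t + C t^2`. Let
`e = y - β x`: `s0 + s1 Fv c X (e + β X) = A + B (X - x) + C (X - x)^2` for all `X`, compare with
`Fv_line` for `a = 0`, `b = e`: the coefficients of `X^4`, `X^3` vanish. The coefficient of `X^4` is
`s1 ∑_(i+j=4) c i j β^j`. If `β` does not come from `Ω`, `c i j = 0` for `i + j = 4` (`root_const`);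
then the coefficient of `X^3` is `s1 ∑_(i+j=3) c i j β^j`, so `c i j = 0` for `i + j = 3`, and the
same holds with `β' = 0`, `e' = y`. So we may take `β = algebraMap b0`, and `r^2` (`X = x`) is
`s0 + s1 (Fv c 0 e + (..) x + G2 x^2)` with coefficients in every field which contains
`e, s0, s1` (`Fv_line`). -/

set_option autoImplicit false

namespace Pool.Agent.Helper75.QC

open IntermediateField

variable {Ω E : Type} [Field Ω] [Field E] [Algebra Ω E]

private theorem coef21 [Infinite E] {p0 p1 p2 p3 p4 : E}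
    (h : ∀ t : E, p0 + p1 * t + p2 * t ^ 2 + p3 * t ^ 3 + p4 * t ^ 4 = 0) :
    p0 = 0 ∧ p1 = 0 ∧ p2 = 0 ∧ p3 = 0 ∧ p4 = 0 := by
  set P : Polynomial E := Polynomial.C p0 + Polynomial.C p1 * Polynomial.X +
    Polynomial.C p2 * Polynomial.X ^ 2 + Polynomial.C p3 * Polynomial.X ^ 3 +
    Polynomial.C p4 * Polynomial.X ^ 4 with hP
  have h0 : P = 0 := by
    apply Polynomial.funext
    intro t
    simpa [hP] using h t
  have hc : ∀ k, P.coeff k = 0 := fun k => by rw [h0, Polynomial.coeff_zero]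
  refine ⟨?_, ?_, ?_, ?_, ?_⟩
  · simpa [hP, Polynomial.coeff_X, Polynomial.coeff_C] using hc 0
  · simpa [hP, Polynomial.coeff_X, Polynomial.coeff_C, Polynomial.coeff_X_pow] using hc 1
  · simpa [hP, Polynomial.coeff_X, Polynomial.coeff_C, Polynomial.coeff_X_pow] using hc 2
  · simpa [hP, Polynomial.coeff_X, Polynomial.coeff_C, Polynomial.coeff_X_pow] using hc 3
  · simpa [hP, Polynomial.coeff_X, Polynomial.coeff_C, Polynomial.coeff_X_pow] using hc 4

/-- the line with the direction `(1, b0)`, a double root at infinity -/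
private theorem inf21 [Infinite E] (c : ℕ → ℕ → Ω) (x y s0 s1 r : E) (b0 : Ω)
    (hs : s1 ≠ 0) (hrr : r ^ 2 = s0 + s1 * Fv c x y)
    (H : ∃ A B C : E, ∀ X, s0 + s1 * Fv c X (y - algebraMap Ω E b0 * x + algebraMap Ω E b0 * X) =
      A + B * X + C * X ^ 2) (M : IntermediateField Ω E) (he : y - algebraMap Ω E b0 * x ∈ M)
    (h0 : s0 ∈ M) (h1 : s1 ∈ M) :
    ∃ A ∈ M, ∃ B ∈ M, ∃ C ∈ M, r ^ 2 = A + B * x + C * x ^ 2 := by
  obtain ⟨A, B, C, H⟩ := H
  obtain ⟨G2, hG2, G3, hG3, G4, hG4, hG⟩ := Fv_line c M (zero_mem M) he (M.algebraMap_mem b0)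
  set e := y - algebraMap Ω E b0 * x with hedef
  set F1 := Fv (dvx c) 0 e + algebraMap Ω E b0 * Fv (dvy c) 0 e with hF1
  have hc := coef21 (E := E) (p0 := s0 + s1 * Fv c 0 e - A) (p1 := s1 * F1 - B) (p2 := s1 * G2 - C)
    (p3 := s1 * G3) (p4 := s1 * G4) (by
      intro t
      have e1 := H t
      have e2 := hG t
      rw [zero_add] at e2
      rw [e2] at e1
      linear_combination e1)
  obtain ⟨-, -, -, e3, e4⟩ := hc
  have e3' : G3 = 0 := (mul_eq_zero.1 e3).resolve_left hs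
  have e4' : G4 = 0 := (mul_eq_zero.1 e4).resolve_left hs
  refine ⟨s0 + s1 * Fv c 0 e, add_mem h0 (mul_mem h1 (Fv_mem c M (zero_mem M) he)), s1 * F1,
    mul_mem h1 (add_mem (Fv_mem _ M (zero_mem M) he) (mul_mem (M.algebraMap_mem b0)
      (Fv_mem _ M (zero_mem M) he))), s1 * G2, mul_mem h1 hG2, ?_⟩
  have e5 := hG x
  have e6 : e + algebraMap Ω E b0 * x = y := by rw [hedef]; ring
  rw [zero_add, e6, e3', e4'] at e5
  rw [hrr, e5]
  ring

private theorem Fv_expl21 (c : ℕ → ℕ → Ω) (e β X : E) : Fv c X (e + β * X) =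
    (algebraMap Ω E (c 0 0) + algebraMap Ω E (c 0 1) * e + algebraMap Ω E (c 0 2) * e ^ 2 +
      algebraMap Ω E (c 0 3) * e ^ 3 + algebraMap Ω E (c 0 4) * e ^ 4) +
    (algebraMap Ω E (c 0 1) * β + 2 * algebraMap Ω E (c 0 2) * e * β +
      3 * algebraMap Ω E (c 0 3) * e ^ 2 * β + 4 * algebraMap Ω E (c 0 4) * e ^ 3 * β +
      algebraMap Ω E (c 1 0) + algebraMap Ω E (c 1 1) * e + algebraMap Ω E (c 1 2) * e ^ 2 +
      algebraMap Ω E (c 1 3) * e ^ 3) * X +
    (algebraMap Ω E (c 0 2) * β ^ 2 + 3 * algebraMap Ω E (c 0 3) * e * β ^ 2 +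
      6 * algebraMap Ω E (c 0 4) * e ^ 2 * β ^ 2 + algebraMap Ω E (c 1 1) * β +
      2 * algebraMap Ω E (c 1 2) * e * β + 3 * algebraMap Ω E (c 1 3) * e ^ 2 * β +
      algebraMap Ω E (c 2 0) + algebraMap Ω E (c 2 1) * e + algebraMap Ω E (c 2 2) * e ^ 2) * X ^ 2 +
    (algebraMap Ω E (c 0 3) * β ^ 3 + 4 * algebraMap Ω E (c 0 4) * e * β ^ 3 +
      algebraMap Ω E (c 1 2) * β ^ 2 + 3 * algebraMap Ω E (c 1 3) * e * β ^ 2 +
      algebraMap Ω E (c 2 1) * β + 2 * algebraMap Ω E (c 2 2) * e * β + algebraMap Ω E (c 3 0) +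
      algebraMap Ω E (c 3 1) * e) * X ^ 3 +
    (algebraMap Ω E (c 0 4) * β ^ 4 + algebraMap Ω E (c 1 3) * β ^ 3 +
      algebraMap Ω E (c 2 2) * β ^ 2 + algebraMap Ω E (c 3 1) * β + algebraMap Ω E (c 4 0)) * X ^ 4 := by
  simp only [Fv, Finset.sum_range_succ, Finset.sum_range_zero]
  ring

theorem line_cases [IsAlgClosed Ω] [IsAlgClosed E] (c : ℕ → ℕ → Ω) (x y s0 s1 r β : E)
    (hs : s1 ≠ 0) (hr : r ≠ 0) (hrr : r ^ 2 = s0 + s1 * Fv c x y)
    (H : (∃ A B C : E, ∀ t, s0 + s1 * Fv c (x + t) (y + β * t) = A + B * t + C * t ^ 2) ∨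
      (∃ t0 A B C : E, ∀ t, s0 + s1 * Fv c (x + t) (y + β * t) =
        (t - t0) ^ 2 * (A + B * t + C * t ^ 2))) :
    (∃ a b μ : E, x = a + μ ∧ y = b + β * μ ∧ μ ≠ 0 ∧ s0 + s1 * Fv c a b = 0 ∧
      Fv (dvx c) a b + β * Fv (dvy c) a b = 0 ∧
      ∀ M : IntermediateField Ω E, a ∈ M → b ∈ M → β ∈ M → s1 ∈ M →
        ∃ A ∈ M, ∃ B ∈ M, ∃ C ∈ M, (r / μ) ^ 2 = A + B * μ + C * μ ^ 2) ∨
    (∃ b0 : Ω, ∀ M : IntermediateField Ω E, y - algebraMap Ω E b0 * x ∈ M → s0 ∈ M → s1 ∈ M →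
        ∃ A ∈ M, ∃ B ∈ M, ∃ C ∈ M, r ^ 2 = A + B * x + C * x ^ 2) := by
  have hinf : Infinite E := IsAlgClosed.instInfinite
  rcases H with ⟨A, B, C, H⟩ | ⟨t0, A, B, C, H⟩
  · right
    have H' : ∀ X, s0 + s1 * Fv c X (y - β * x + β * X) =
        (A - B * x + C * x ^ 2) + (B - 2 * C * x) * X + C * X ^ 2 := by
      intro X
      have e1 := H (X - x)
      have e2 : x + (X - x) = X := by ring
      have e3 : y + β * (X - x) = y - β * x + β * X := by ring
      rw [e2, e3] at e1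
      rw [e1]
      ring
    by_cases hβ : ∃ b0 : Ω, β = algebraMap Ω E b0
    · obtain ⟨b0, rfl⟩ := hβ
      exact ⟨b0, fun M he h0 h1 => inf21 c x y s0 s1 r b0 hs hrr ⟨_, _, _, H'⟩ M he h0 h1⟩
    · -- the coefficients of degree four and three vanish
      set e := y - β * x with hedef
      have hc := coef21 (E := E)
        (p0 := s0 + s1 * (algebraMap Ω E (c 0 0) + algebraMap Ω E (c 0 1) * e +
          algebraMap Ω E (c 0 2) * e ^ 2 + algebraMap Ω E (c 0 3) * e ^ 3 +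
          algebraMap Ω E (c 0 4) * e ^ 4) - (A - B * x + C * x ^ 2))
        (p1 := s1 * (algebraMap Ω E (c 0 1) * β + 2 * algebraMap Ω E (c 0 2) * e * β +
          3 * algebraMap Ω E (c 0 3) * e ^ 2 * β + 4 * algebraMap Ω E (c 0 4) * e ^ 3 * β +
          algebraMap Ω E (c 1 0) + algebraMap Ω E (c 1 1) * e + algebraMap Ω E (c 1 2) * e ^ 2 +
          algebraMap Ω E (c 1 3) * e ^ 3) - (B - 2 * C * x))
        (p2 := s1 * (algebraMap Ω E (c 0 2) * β ^ 2 + 3 * algebraMap Ω E (c 0 3) * e * β ^ 2 +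
          6 * algebraMap Ω E (c 0 4) * e ^ 2 * β ^ 2 + algebraMap Ω E (c 1 1) * β +
          2 * algebraMap Ω E (c 1 2) * e * β + 3 * algebraMap Ω E (c 1 3) * e ^ 2 * β +
          algebraMap Ω E (c 2 0) + algebraMap Ω E (c 2 1) * e + algebraMap Ω E (c 2 2) * e ^ 2) - C)
        (p3 := s1 * (algebraMap Ω E (c 0 3) * β ^ 3 + 4 * algebraMap Ω E (c 0 4) * e * β ^ 3 +
          algebraMap Ω E (c 1 2) * β ^ 2 + 3 * algebraMap Ω E (c 1 3) * e * β ^ 2 +
          algebraMap Ω E (c 2 1) * β + 2 * algebraMap Ω E (c 2 2) * e * β + algebraMap Ω E (c 3 0) +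
          algebraMap Ω E (c 3 1) * e))
        (p4 := s1 * (algebraMap Ω E (c 0 4) * β ^ 4 + algebraMap Ω E (c 1 3) * β ^ 3 +
          algebraMap Ω E (c 2 2) * β ^ 2 + algebraMap Ω E (c 3 1) * β + algebraMap Ω E (c 4 0))) (by
        intro t
        have e1 := H' t
        rw [Fv_expl21] at e1
        linear_combination e1)
      obtain ⟨-, -, -, e3, e4⟩ := hc
      have e3' := (mul_eq_zero.1 e3).resolve_left hs
      have e4' := (mul_eq_zero.1 e4).resolve_left hs
      have hroot : ∀ P : Polynomial Ω, Polynomial.aeval β P = 0 → P = 0 := by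
        intro P hP
        by_contra hP0
        exact hβ (root_const P hP0 β hP)
      have hP4 := hroot (Polynomial.C (c 0 4) * Polynomial.X ^ 4 + Polynomial.C (c 1 3) * Polynomial.X ^ 3 +
        Polynomial.C (c 2 2) * Polynomial.X ^ 2 + Polynomial.C (c 3 1) * Polynomial.X +
        Polynomial.C (c 4 0)) (by simpa using e4')
      have k4 : ∀ k, (Polynomial.C (c 0 4) * Polynomial.X ^ 4 + Polynomial.C (c 1 3) * Polynomial.X ^ 3 +
        Polynomial.C (c 2 2) * Polynomial.X ^ 2 + Polynomial.C (c 3 1) * Polynomial.X +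
        Polynomial.C (c 4 0)).coeff k = 0 := fun k => by rw [hP4, Polynomial.coeff_zero]
      have c04 : c 0 4 = 0 := by
        simpa [Polynomial.coeff_X, Polynomial.coeff_C, Polynomial.coeff_X_pow] using k4 4
      have c13 : c 1 3 = 0 := by
        simpa [Polynomial.coeff_X, Polynomial.coeff_C, Polynomial.coeff_X_pow] using k4 3
      have c22 : c 2 2 = 0 := by
        simpa [Polynomial.coeff_X, Polynomial.coeff_C, Polynomial.coeff_X_pow] using k4 2
      have c31 : c 3 1 = 0 := by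
        simpa [Polynomial.coeff_X, Polynomial.coeff_C, Polynomial.coeff_X_pow] using k4 1
      have c40 : c 4 0 = 0 := by
        simpa [Polynomial.coeff_X, Polynomial.coeff_C, Polynomial.coeff_X_pow] using k4 0
      rw [c04, c13, c22, c31] at e3'
      simp only [map_zero, mul_zero, zero_mul, add_zero] at e3'
      have hP3 := hroot (Polynomial.C (c 0 3) * Polynomial.X ^ 3 + Polynomial.C (c 1 2) * Polynomial.X ^ 2 +
        Polynomial.C (c 2 1) * Polynomial.X + Polynomial.C (c 3 0)) (by simpa using e3')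
      have k3 : ∀ k, (Polynomial.C (c 0 3) * Polynomial.X ^ 3 + Polynomial.C (c 1 2) * Polynomial.X ^ 2 +
        Polynomial.C (c 2 1) * Polynomial.X + Polynomial.C (c 3 0)).coeff k = 0 :=
        fun k => by rw [hP3, Polynomial.coeff_zero]
      have c03 : c 0 3 = 0 := by
        simpa [Polynomial.coeff_X, Polynomial.coeff_C, Polynomial.coeff_X_pow] using k3 3
      have c12 : c 1 2 = 0 := by
        simpa [Polynomial.coeff_X, Polynomial.coeff_C, Polynomial.coeff_X_pow] using k3 2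
      have c21 : c 2 1 = 0 := by
        simpa [Polynomial.coeff_X, Polynomial.coeff_C, Polynomial.coeff_X_pow] using k3 1
      have c30 : c 3 0 = 0 := by
        simpa [Polynomial.coeff_X, Polynomial.coeff_C, Polynomial.coeff_X_pow] using k3 0
      refine ⟨0, fun M he h0 h1 => inf21 c x y s0 s1 r 0 hs hrr ?_ M he h0 h1⟩
      refine ⟨s0 + s1 * (algebraMap Ω E (c 0 0) + algebraMap Ω E (c 0 1) * y +
        algebraMap Ω E (c 0 2) * y ^ 2), s1 * (algebraMap Ω E (c 1 0) + algebraMap Ω E (c 1 1) * y),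
        s1 * algebraMap Ω E (c 2 0), fun X => ?_⟩
      rw [Fv_expl21, c04, c13, c22, c31, c40, c03, c12, c21, c30]
      simp only [map_zero, zero_mul, sub_zero, mul_zero, add_zero, zero_add]
      ring
  · left
    have hr0 : r ^ 2 = t0 ^ 2 * A := by
      have e1 := H 0
      rw [add_zero, mul_zero, add_zero, ← hrr] at e1
      rw [e1]
      ring
    have ht0 : t0 ≠ 0 := by
      rintro rfl
      apply hr
      have : r ^ 2 = 0 := by rw [hr0]; ring
      exact pow_eq_zero_iff (two_ne_zero) |>.1 this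
    have H' : ∀ t, s0 + s1 * Fv c (x + t0 + t) (y + β * t0 + β * t) =
        t ^ 2 * (A + B * (t + t0) + C * (t + t0) ^ 2) := by
      intro t
      have e1 := H (t + t0)
      have e2 : x + (t + t0) = x + t0 + t := by ring
      have e3 : y + β * (t + t0) = y + β * t0 + β * t := by ring
      rw [e2, e3] at e1
      rw [e1]
      ring
    set a := x + t0 with ha
    set b := y + β * t0 with hb
    have hcmp : ∀ G2 G3 G4 : E, (∀ t : E, Fv c (a + t) (b + β * t) =
        Fv c a b + (Fv (dvx c) a b + β * Fv (dvy c) a b) * t + G2 * t ^ 2 + G3 * t ^ 3 +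
          G4 * t ^ 4) → s0 + s1 * Fv c a b = 0 ∧ Fv (dvx c) a b + β * Fv (dvy c) a b = 0 := by
      intro G2 G3 G4 hG
      have hc := coef21 (E := E) (p0 := s0 + s1 * Fv c a b)
        (p1 := s1 * (Fv (dvx c) a b + β * Fv (dvy c) a b))
        (p2 := s1 * G2 - (A + B * t0 + C * t0 ^ 2)) (p3 := s1 * G3 - (B + 2 * C * t0))
        (p4 := s1 * G4 - C) (by
          intro t
          have e1 := H' t
          rw [hG t] at e1
          linear_combination e1)
      exact ⟨hc.1, (mul_eq_zero.1 hc.2.1).resolve_left hs⟩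
    obtain ⟨h1, h2⟩ : s0 + s1 * Fv c a b = 0 ∧ Fv (dvx c) a b + β * Fv (dvy c) a b = 0 := by
      obtain ⟨G2, -, G3, -, G4, -, hG⟩ := Fv_line c (⊤ : IntermediateField Ω E)
        (a := a) (b := b) (β := β) IntermediateField.mem_top IntermediateField.mem_top
        IntermediateField.mem_top
      exact hcmp G2 G3 G4 hG
    refine ⟨a, b, -t0, by rw [ha]; ring, by rw [hb]; ring, neg_ne_zero.2 ht0, h1, h2, ?_⟩
    intro M haM hbM hβM hsM
    obtain ⟨G2, hG2, G3, hG3, G4, hG4, hG⟩ := Fv_line c M haM hbM hβM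
    refine ⟨s1 * G2, mul_mem hsM hG2, s1 * G3, mul_mem hsM hG3, s1 * G4, mul_mem hsM hG4, ?_⟩
    have e1 := hG (-t0)
    have e2 : a + -t0 = x := by rw [ha]; ring
    have e3 : b + β * -t0 = y := by rw [hb]; ring
    rw [e2, e3, h2] at e1
    have e4 : r ^ 2 = (-t0) ^ 2 * (s1 * G2 + s1 * G3 * -t0 + s1 * G4 * (-t0) ^ 2) := by
      rw [hrr, e1]
      linear_combination h1
    rw [div_pow, e4]
    field_simp

/-- exchange of the coordinates -/
theorem Fv_swap (c : ℕ → ℕ → Ω) (x y : E) : Fv c x y = Fv (fun i j => c j i) y x := by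
  simp only [Fv, Finset.sum_range_succ, Finset.sum_range_zero]
  ring

end Pool.Agent.Helper75.QC
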