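import Pool.Agent.Helper75.QC.Insep

/-! Project QC: the result, assembled from the blocks. -/

set_option autoImplicit false

namespace Pool.Agent.Helper75.QC

open IntermediateField

theorem main {p : ℕ} [Fact p.Prime] {Ω L : Type} [Field Ω] [CharP Ω p] [IsAlgClosed Ω] [Field L]
    [CharZero L] [IsAlgClosed L] (T : Theory p Ω L) (f : MvPolynomial (Fin 2) Ω)
    (hf : f.totalDegree ≤ 4) {n e : ℕ} (hn : 0 < n) (he : 0 < e) {K : Type}
    [Field K] [Algebra Ω K] (x y w : K) (hK : adjoin Ω {x, y, w} = ⊤)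
    (hw : w ^ n = MvPolynomial.aeval ![x, y] f)
    (hdeg : Module.finrank (adjoin Ω {x, y}) K = n) (φ : K →ₐ[Ω] K)
    (hφ : φ x = x ^ p ^ e ∧ φ y = y ^ p ^ e ∧ φ w = w ^ p ^ e) {V : Type} [AddCommGroup V]
    [Module L V] (Fr : Module.End L V) (r : V →ₗ[L] T.H 2 K) (hV : IsH2 T (p ^ e) φ Fr r) :
    Fr.IsSemisimple := by
  have h1 := all_n T f hf hn he x y w hK hw hdeg φ hφ
  obtain ⟨m, hm, hk⟩ := hV.classes
  refine semisimple_of_parts Fr (T.map 2 φ) r hV.comm h1 ((p ^ e : ℕ) : L) ?_ hm hk hV.compl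
  exact_mod_cast pow_ne_zero _ (Fact.out : p.Prime).ne_zero

end Pool.Agent.Helper75.QC
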