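import Pool.Agent.Helper75.QC.Base

/-! Block QC-1. A quartic with discriminant zero has a double root or degree at most two.

Proof. `a4 ≠ 0`: the polynomial splits, `a4 (X - t1)(X - t2)(X - t3)(X - t4)`; substitute the
coefficients (elementary symmetric functions), the discriminant is `a4^6 ∏ (ti - tj)^2` (`ring`), so
`ti = tj` for some `i < j`. `a4 = 0`, `a3 ≠ 0`: the cubic splits, the discriminant is
`a3^2 * a3^4 ∏ (ti - tj)^2`. All characteristics. -/

set_option autoImplicit false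

namespace Pool.Agent.Helper75.QC

/-- the discriminant of the binary quartic form with the coefficients `a4, ..., a0` -/
def disc4 {E : Type} [Field E] (a4 a3 a2 a1 a0 : E) : E :=
  256 * a4 ^ 3 * a0 ^ 3 - 192 * a4 ^ 2 * a3 * a1 * a0 ^ 2 - 128 * a4 ^ 2 * a2 ^ 2 * a0 ^ 2
    + 144 * a4 ^ 2 * a2 * a1 ^ 2 * a0 - 27 * a4 ^ 2 * a1 ^ 4 + 144 * a4 * a3 ^ 2 * a2 * a0 ^ 2
    - 6 * a4 * a3 ^ 2 * a1 ^ 2 * a0 - 80 * a4 * a3 * a2 ^ 2 * a1 * a0 + 18 * a4 * a3 * a2 * a1 ^ 3
    + 16 * a4 * a2 ^ 4 * a0 - 4 * a4 * a2 ^ 3 * a1 ^ 2 - 27 * a3 ^ 4 * a0 ^ 2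
    + 18 * a3 ^ 3 * a2 * a1 * a0 - 4 * a3 ^ 3 * a1 ^ 3 - 4 * a3 ^ 2 * a2 ^ 3 * a0
    + a3 ^ 2 * a2 ^ 2 * a1 ^ 2

/-- it is homogeneous of weight 12 -/
theorem disc4_weight {E : Type} [Field E] (l a4 a3 a2 a1 a0 : E) :
    disc4 (l ^ 4 * a4) (l ^ 3 * a3) (l ^ 2 * a2) (l * a1) a0 = l ^ 12 * disc4 a4 a3 a2 a1 a0 := by
  unfold disc4
  ring

private theorem h80_root4 {E : Type} [Field E] [IsAlgClosed E] (a4 a3 a2 a1 a0 : E) (h : a4 ≠ 0) :
    ∃ t : E, a4 * t ^ 4 + a3 * t ^ 3 + a2 * t ^ 2 + a1 * t + a0 = 0 := by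
  have hd : (Polynomial.C a4 * Polynomial.X ^ 4 + Polynomial.C a3 * Polynomial.X ^ 3
      + Polynomial.C a2 * Polynomial.X ^ 2 + Polynomial.C a1 * Polynomial.X
      + Polynomial.C a0 : Polynomial E).degree = 4 := by
    compute_degree!
  obtain ⟨t, ht⟩ := IsAlgClosed.exists_root (Polynomial.C a4 * Polynomial.X ^ 4
      + Polynomial.C a3 * Polynomial.X ^ 3 + Polynomial.C a2 * Polynomial.X ^ 2
      + Polynomial.C a1 * Polynomial.X + Polynomial.C a0 : Polynomial E) (by rw [hd]; decide)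
  refine ⟨t, ?_⟩
  simpa [Polynomial.IsRoot] using ht

private theorem h80_root3 {E : Type} [Field E] [IsAlgClosed E] (a3 a2 a1 a0 : E) (h : a3 ≠ 0) :
    ∃ t : E, a3 * t ^ 3 + a2 * t ^ 2 + a1 * t + a0 = 0 := by
  have hd : (Polynomial.C a3 * Polynomial.X ^ 3 + Polynomial.C a2 * Polynomial.X ^ 2
      + Polynomial.C a1 * Polynomial.X + Polynomial.C a0 : Polynomial E).degree = 3 := by
    compute_degree!
  obtain ⟨t, ht⟩ := IsAlgClosed.exists_root (Polynomial.C a3 * Polynomial.X ^ 3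
      + Polynomial.C a2 * Polynomial.X ^ 2
      + Polynomial.C a1 * Polynomial.X + Polynomial.C a0 : Polynomial E) (by rw [hd]; decide)
  refine ⟨t, ?_⟩
  simpa [Polynomial.IsRoot] using ht

private theorem h80_root2 {E : Type} [Field E] [IsAlgClosed E] (a2 a1 a0 : E) (h : a2 ≠ 0) :
    ∃ t : E, a2 * t ^ 2 + a1 * t + a0 = 0 := by
  have hd : (Polynomial.C a2 * Polynomial.X ^ 2
      + Polynomial.C a1 * Polynomial.X + Polynomial.C a0 : Polynomial E).degree = 2 := by
    compute_degree!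
  obtain ⟨t, ht⟩ := IsAlgClosed.exists_root (Polynomial.C a2 * Polynomial.X ^ 2
      + Polynomial.C a1 * Polynomial.X + Polynomial.C a0 : Polynomial E) (by rw [hd]; decide)
  refine ⟨t, ?_⟩
  simpa [Polynomial.IsRoot] using ht

/-- a cubic over an algebraically closed field splits, in coefficients -/
private theorem h80_split3 {E : Type} [Field E] [IsAlgClosed E] (a3 a2 a1 a0 : E) (h : a3 ≠ 0) :
    ∃ r s t : E, a2 = -a3 * (r + s + t) ∧ a1 = a3 * (r * s + r * t + s * t)
      ∧ a0 = -a3 * (r * s * t) := by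
  obtain ⟨r, hr⟩ := h80_root3 a3 a2 a1 a0 h
  obtain ⟨s, hs⟩ := h80_root2 a3 (a2 + a3 * r) (a1 + a2 * r + a3 * r ^ 2) h
  refine ⟨r, s, -(a2 / a3) - r - s, ?_, ?_, ?_⟩
  · field_simp
    ring
  · field_simp
    linear_combination hs
  · field_simp
    linear_combination hr - r * hs

/-- a quartic over an algebraically closed field splits, in coefficients -/
private theorem h80_split4 {E : Type} [Field E] [IsAlgClosed E] (a4 a3 a2 a1 a0 : E)
    (h : a4 ≠ 0) :
    ∃ r s t u : E, a3 = -a4 * (r + s + t + u)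
      ∧ a2 = a4 * (r * s + r * t + r * u + s * t + s * u + t * u)
      ∧ a1 = -a4 * (r * s * t + r * s * u + r * t * u + s * t * u)
      ∧ a0 = a4 * (r * s * t * u) := by
  obtain ⟨r, hr⟩ := h80_root4 a4 a3 a2 a1 a0 h
  obtain ⟨s, t, u, h1, h2, h3⟩ := h80_split3 a4 (a3 + a4 * r) (a2 + a3 * r + a4 * r ^ 2)
    (a1 + a2 * r + a3 * r ^ 2 + a4 * r ^ 3) h
  refine ⟨r, s, t, u, ?_, ?_, ?_, ?_⟩
  · linear_combination h1
  · linear_combination h2 - r * h1
  · linear_combination h3 - r * h2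
  · linear_combination hr - r * h3

theorem quartic_double {E : Type} [Field E] [IsAlgClosed E] (a4 a3 a2 a1 a0 : E)
    (h : disc4 a4 a3 a2 a1 a0 = 0) :
    (a4 = 0 ∧ a3 = 0) ∨ ∃ t A B C : E, ∀ z : E,
      a4 * z ^ 4 + a3 * z ^ 3 + a2 * z ^ 2 + a1 * z + a0 = (z - t) ^ 2 * (A + B * z + C * z ^ 2) := by
  by_cases h4 : a4 = 0
  · by_cases h3 : a3 = 0
    · exact Or.inl ⟨h4, h3⟩
    · right
      obtain ⟨r, s, t, h1, h2, h5⟩ := h80_split3 a3 a2 a1 a0 h3
      have hd : a3 ^ 6 * ((r - s) * (r - t) * (s - t)) ^ 2 = 0 := by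
        rw [← h]
        subst h4 h1 h2 h5
        unfold disc4
        ring
      have hp : (r - s) * (r - t) * (s - t) = 0 := by
        rcases mul_eq_zero.mp hd with h6 | h6
        · exact absurd (pow_eq_zero_iff (by norm_num) |>.mp h6) h3
        · exact pow_eq_zero_iff (by norm_num) |>.mp h6
      have key : ∀ x y : E, (∀ z : E, a4 * z ^ 4 + a3 * z ^ 3 + a2 * z ^ 2 + a1 * z + a0
          = a3 * (z - x) ^ 2 * (z - y)) → ∃ t A B C : E, ∀ z : E,
          a4 * z ^ 4 + a3 * z ^ 3 + a2 * z ^ 2 + a1 * z + a0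
            = (z - t) ^ 2 * (A + B * z + C * z ^ 2) := by
        intro x y hxy
        refine ⟨x, -a3 * y, a3, 0, fun z => ?_⟩
        rw [hxy z]
        ring
      rcases mul_eq_zero.mp hp with h6 | h6
      · rcases mul_eq_zero.mp h6 with h7 | h7
        · refine key r t fun z => ?_
          have : s = r := (sub_eq_zero.mp h7).symm
          subst this
          rw [h4, h1, h2, h5]
          ring
        · refine key r s fun z => ?_
          have : t = r := (sub_eq_zero.mp h7).symm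
          subst this
          rw [h4, h1, h2, h5]
          ring
      · refine key s r fun z => ?_
        have : t = s := (sub_eq_zero.mp h6).symm
        subst this
        rw [h4, h1, h2, h5]
        ring
  · right
    obtain ⟨r, s, t, u, h1, h2, h3, h5⟩ := h80_split4 a4 a3 a2 a1 a0 h4
    have hd : a4 ^ 6 * ((r - s) * (r - t) * (r - u) * (s - t) * (s - u) * (t - u)) ^ 2 = 0 := by
      rw [← h, h1, h2, h3, h5]
      unfold disc4
      ring
    have hp : (r - s) * (r - t) * (r - u) * (s - t) * (s - u) * (t - u) = 0 := by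
      rcases mul_eq_zero.mp hd with h6 | h6
      · exact absurd (pow_eq_zero_iff (by norm_num) |>.mp h6) h4
      · exact pow_eq_zero_iff (by norm_num) |>.mp h6
    have key : ∀ x y w : E, (∀ z : E, a4 * z ^ 4 + a3 * z ^ 3 + a2 * z ^ 2 + a1 * z + a0
        = a4 * (z - x) ^ 2 * ((z - y) * (z - w))) → ∃ t A B C : E, ∀ z : E,
        a4 * z ^ 4 + a3 * z ^ 3 + a2 * z ^ 2 + a1 * z + a0
          = (z - t) ^ 2 * (A + B * z + C * z ^ 2) := by
      intro x y w hxy
      refine ⟨x, a4 * (y * w), -a4 * (y + w), a4, fun z => ?_⟩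
      rw [hxy z]
      ring
    have hz : ∀ z : E, a4 * z ^ 4 + a3 * z ^ 3 + a2 * z ^ 2 + a1 * z + a0
        = a4 * ((z - r) * (z - s) * (z - t) * (z - u)) := by
      intro z
      rw [h1, h2, h3, h5]
      ring
    rcases mul_eq_zero.mp hp with h6 | h6
    · rcases mul_eq_zero.mp h6 with h6 | h6
      · rcases mul_eq_zero.mp h6 with h6 | h6
        · rcases mul_eq_zero.mp h6 with h6 | h6
          · rcases mul_eq_zero.mp h6 with h6 | h6
            · refine key r t u fun z => ?_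
              rw [hz z, ← sub_eq_zero.mp h6]
              ring
            · refine key r s u fun z => ?_
              rw [hz z, ← sub_eq_zero.mp h6]
              ring
          · refine key r s t fun z => ?_
            rw [hz z, ← sub_eq_zero.mp h6]
            ring
        · refine key s r u fun z => ?_
          rw [hz z, ← sub_eq_zero.mp h6]
          ring
      · refine key s r t fun z => ?_
        rw [hz z, ← sub_eq_zero.mp h6]
        ring
    · refine key t r s fun z => ?_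
      rw [hz z, ← sub_eq_zero.mp h6]
      ring

end Pool.Agent.Helper75.QC
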