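import Pool.Agent.Helper75.QC.Line
import Pool.Agent.Helper75.QC.Conic

/-! Block QC-5A. The threefold `r^2 = s0(τ) + s1(τ) f(x, y)`, `deg f ≤ 4`, is uniruled
(characteristic not two).

Proof. `direction` gives `(α, β)` with `α = 1` or `(0, 1)`; prove the case `α = 1` in a lemma, the
case `(0, 1)` is the direction `(1, 0)` for `Fv_swap`. `line_cases`:
(i) `a, b, μ`: the field: `τ ∈ AF Ω {a, b}` by `hτ`, so `s0, s1 ∈ AF Ω {a, b}` too (`AF_le`). If
`Fv (dvy c) a b ≠ 0` then `β ∈ AF Ω {a, b}` (`Fv_mem`): `S = {a, b}`. Otherwise also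
`Fv (dvx c) a b = 0`; if `dvx c` or `dvy c` is not zero (for some `i + j ≤ 4`), `dep` gives `e` with
`a, b ∈ AF Ω {e}`: `S = {e, β}`. Then `conic` with `ρ = r / μ` gives `θ` with `μ, r / μ` in the field,
so `x, y, r`. If `dvx c` and `dvy c` are both zero: `(i : Ω) c i j = 0` and `(j : Ω) c i j = 0` for
`i + j ≤ 4`: `c i j = 0` for `1 ≤ i + j ≤ 4` unless the characteristic is three and
`(i, j) = (3, 0), (0, 3)`; then `f = (g0 + g1 x + g2 y)^3` with cube roots in `Ω`,
`ℓ = g0 + g1 x + g2 y`, `S = {ℓ, τ}`, `r ∈ AF` (`AF_root`), `θ = y` if `g1 ≠ 0`, `θ = x` if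
`g2 ≠ 0`; if `g1 = g2 = 0`: `S = {x, τ}`, `θ = y`. (If `c 3 0`, `c 0 3` are not both zero then
`(3 : Ω) = 0`.)
(ii) `b0`: `S = {y - b0 x, τ}`, `conic` with `μ = x`, `ρ = r`. -/

set_option autoImplicit false

namespace Pool.Agent.Helper75.QC

open IntermediateField

variable {Ω E : Type} [Field Ω] [Field E] [Algebra Ω E]

private theorem adj63 {S : Set E} {a : E} (ha : a ∈ AF Ω S) (θ : E) :
    a ∈ adjoin Ω (Acl Ω S ∪ {θ}) :=
  subset_adjoin Ω _ (Or.inl (mem_AF.1 ha))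

private theorem self63 (S : Set E) (θ : E) : θ ∈ adjoin Ω (Acl Ω S ∪ {θ}) :=
  subset_adjoin Ω _ (Or.inr rfl)

/-- the conclusion -/
private def Con63 (Ω : Type) {E : Type} [Field Ω] [Field E] [Algebra Ω E] (x y τ r : E) : Prop :=
  ∃ (S : Finset E) (θ : E), S.card ≤ 2 ∧ x ∈ adjoin Ω (Acl Ω (S : Set E) ∪ {θ}) ∧
      y ∈ adjoin Ω (Acl Ω (S : Set E) ∪ {θ}) ∧ τ ∈ adjoin Ω (Acl Ω (S : Set E) ∪ {θ}) ∧
      r ∈ adjoin Ω (Acl Ω (S : Set E) ∪ {θ})

private theorem con63 {x y τ r : E} (u v θ : E) (hx : x ∈ adjoin Ω (Acl Ω ({u, v} : Set E) ∪ {θ}))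
    (hy : y ∈ adjoin Ω (Acl Ω ({u, v} : Set E) ∪ {θ})) (hτ : τ ∈ AF Ω ({u, v} : Set E))
    (hr : r ∈ adjoin Ω (Acl Ω ({u, v} : Set E) ∪ {θ})) : Con63 Ω x y τ r := by
  classical
  have h : (({u, v} : Finset E) : Set E) = {u, v} := by simp
  refine ⟨{u, v}, θ, Finset.card_le_two, ?_, ?_, ?_, ?_⟩
  · rw [h]; exact hx
  · rw [h]; exact hy
  · rw [h]; exact adj63 hτ θ
  · rw [h]; exact hr

/-- the case of a point `(a, b)` of the curve, the field of `a, b, β` has transcendence degree two -/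
private theorem fin63 [IsAlgClosed E] (h2 : (2 : E) ≠ 0) {x y τ r a b μ β s1 : E} (u v : E)
    (hx : x = a + μ) (hy : y = b + β * μ) (hμ : μ ≠ 0)
    (hM : ∀ M : IntermediateField Ω E, a ∈ M → b ∈ M → β ∈ M → s1 ∈ M →
        ∃ A ∈ M, ∃ B ∈ M, ∃ C ∈ M, (r / μ) ^ 2 = A + B * μ + C * μ ^ 2)
    (ha : a ∈ AF Ω ({u, v} : Set E)) (hb : b ∈ AF Ω ({u, v} : Set E))
    (hβ : β ∈ AF Ω ({u, v} : Set E)) (hs : s1 ∈ AF Ω ({u, v} : Set E))
    (hτ : τ ∈ AF Ω ({u, v} : Set E)) : Con63 Ω x y τ r := by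
  obtain ⟨A, hA, B, hB, C, hC, h⟩ := hM _ ha hb hβ hs
  obtain ⟨θ, h1, h3⟩ := conic h2 ({u, v} : Set E) hA hB hC h
  refine con63 u v θ ?_ ?_ hτ ?_
  · rw [hx]
    exact add_mem (adj63 ha θ) h1
  · rw [hy]
    exact add_mem (adj63 hb θ) (mul_mem (adj63 hβ θ) h1)
  · have : r = r / μ * μ := by field_simp
    rw [this]
    exact mul_mem h3 h1

/-- the coefficients if all partial derivatives vanish -/
private theorem cube63 [IsAlgClosed Ω] (h2 : (2 : Ω) ≠ 0) (c : ℕ → ℕ → Ω)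
    (hx : ∀ i j, i + j ≤ 4 → dvx c i j = 0) (hy : ∀ i j, i + j ≤ 4 → dvy c i j = 0) :
    (∀ x y : E, Fv c x y = algebraMap Ω E (c 0 0)) ∨
      ∃ g0 g1 g2 : Ω, (g1 ≠ 0 ∨ g2 ≠ 0) ∧ ∀ x y : E, Fv c x y =
        (algebraMap Ω E g0 + algebraMap Ω E g1 * x + algebraMap Ω E g2 * y) ^ 3 := by
  have h4 : (4 : Ω) ≠ 0 := by
    have : (4 : Ω) = 2 * 2 := by norm_num
    rw [this]
    exact mul_ne_zero h2 h2
  have ex : ∀ i j : ℕ, i + j ≤ 3 → ((i : Ω) + 1) * c (i + 1) j = 0 := by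
    intro i j hij
    have := hx i j (by omega)
    rwa [dvx, if_pos hij] at this
  have ey : ∀ i j : ℕ, i + j ≤ 3 → ((j : Ω) + 1) * c i (j + 1) = 0 := by
    intro i j hij
    have := hy i j (by omega)
    rwa [dvy, if_pos hij] at this
  have x1 : ∀ j, j ≤ 3 → c 1 j = 0 := by
    intro j hj
    have := ex 0 j (by omega)
    simpa using this
  have x2 : ∀ j, j ≤ 2 → c 2 j = 0 := by
    intro j hj
    have := ex 1 j (by omega)
    norm_num at this
    exact this.resolve_left h2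
  have x4 : c 4 0 = 0 := by
    have := ex 3 0 (by omega)
    norm_num at this
    exact this.resolve_left h4
  have y1 : ∀ j, j ≤ 3 → c j 1 = 0 := by
    intro j hj
    have := ey j 0 (by omega)
    simpa using this
  have y2 : ∀ j, j ≤ 2 → c j 2 = 0 := by
    intro j hj
    have := ey j 1 (by omega)
    norm_num at this
    exact this.resolve_left h2
  have y4 : c 0 4 = 0 := by
    have := ey 0 3 (by omega)
    norm_num at this
    exact this.resolve_left h4
  have x3 : (3 : Ω) * c 3 0 = 0 := by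
    have := ex 2 0 (by omega)
    norm_num at this
    rcases this with h | h
    · rw [h, zero_mul]
    · rw [h, mul_zero]
  have y3 : (3 : Ω) * c 0 3 = 0 := by
    have := ey 0 2 (by omega)
    norm_num at this
    rcases this with h | h
    · rw [h, zero_mul]
    · rw [h, mul_zero]
  have hF : ∀ x y : E, Fv c x y = algebraMap Ω E (c 0 0) + algebraMap Ω E (c 3 0) * x ^ 3 +
      algebraMap Ω E (c 0 3) * y ^ 3 := by
    intro x y
    have e11 := x1 0 (by omega)
    have e12 := x1 1 (by omega)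
    have e13 := x1 2 (by omega)
    have e14 := x1 3 (by omega)
    have e21 := x2 0 (by omega)
    have e22 := x2 1 (by omega)
    have e23 := x2 2 (by omega)
    have f11 := y1 0 (by omega)
    have f14 := y1 3 (by omega)
    have f21 := y2 0 (by omega)
    simp [Fv, Finset.sum_range_succ, e11, e12, e13, e14, e21, e22, e23, f11, f14, f21, x4, y4]
    ring
  by_cases h0 : c 3 0 = 0 ∧ c 0 3 = 0
  · left
    intro x y
    rw [hF, h0.1, h0.2]
    simp
  · right
    have h3 : (3 : Ω) = 0 := by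
      rcases mul_eq_zero.1 x3 with h | h
      · exact h
      · rcases mul_eq_zero.1 y3 with h' | h'
        · exact h'
        · exact absurd ⟨h, h'⟩ h0
    obtain ⟨g0, hg0⟩ := IsAlgClosed.exists_pow_nat_eq (c 0 0) (n := 3) (by norm_num)
    obtain ⟨g1, hg1⟩ := IsAlgClosed.exists_pow_nat_eq (c 3 0) (n := 3) (by norm_num)
    obtain ⟨g2, hg2⟩ := IsAlgClosed.exists_pow_nat_eq (c 0 3) (n := 3) (by norm_num)
    refine ⟨g0, g1, g2, ?_, ?_⟩
    · by_contra h
      push Not at h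
      apply h0
      rw [← hg1, ← hg2, h.1, h.2]
      norm_num
    · intro x y
      have h3E : (3 : E) = 0 := by
        have := congrArg (algebraMap Ω E) h3
        rwa [map_zero, map_ofNat] at this
      rw [hF, ← hg0, ← hg1, ← hg2, map_pow, map_pow, map_pow]
      linear_combination (-(algebraMap Ω E g0 ^ 2 * (algebraMap Ω E g1 * x) +
        algebraMap Ω E g0 * (algebraMap Ω E g1 * x) ^ 2 +
        algebraMap Ω E g0 ^ 2 * (algebraMap Ω E g2 * y) +
        algebraMap Ω E g0 * (algebraMap Ω E g2 * y) ^ 2 +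
        (algebraMap Ω E g1 * x) ^ 2 * (algebraMap Ω E g2 * y) +
        (algebraMap Ω E g1 * x) * (algebraMap Ω E g2 * y) ^ 2 +
        2 * algebraMap Ω E g0 * (algebraMap Ω E g1 * x) * (algebraMap Ω E g2 * y))) * h3E

/-- direction `(1, β)` -/
private theorem one63 [IsAlgClosed Ω] [IsAlgClosed E] (h2 : (2 : E) ≠ 0) (c : ℕ → ℕ → Ω)
    (x y τ s0 s1 r β : E) (h0 : s0 ∈ AF Ω {τ}) (h1 : s1 ∈ AF Ω {τ}) (hs : s1 ≠ 0) (hr : r ≠ 0)
    (hrr : r ^ 2 = s0 + s1 * Fv c x y)
    (hτ : ∀ a b : E, s0 + s1 * Fv c a b = 0 → τ ∈ AF Ω {a, b})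
    (H : (∃ A B C : E, ∀ t, s0 + s1 * Fv c (x + t) (y + β * t) = A + B * t + C * t ^ 2) ∨
      (∃ t0 A B C : E, ∀ t, s0 + s1 * Fv c (x + t) (y + β * t) =
        (t - t0) ^ 2 * (A + B * t + C * t ^ 2))) : Con63 Ω x y τ r := by
  have hS1 : ∀ u v : E, τ ∈ AF Ω ({u, v} : Set E) → s1 ∈ AF Ω ({u, v} : Set E) := fun u v h =>
    AF_le (Set.singleton_subset_iff.2 h) h1
  have hS0 : ∀ u v : E, τ ∈ AF Ω ({u, v} : Set E) → s0 ∈ AF Ω ({u, v} : Set E) := fun u v h =>
    AF_le (Set.singleton_subset_iff.2 h) h0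
  have hl : ∀ u v : E, u ∈ AF Ω ({u, v} : Set E) := fun u v => subset_AF _ (Or.inl rfl)
  have hl' : ∀ u v : E, v ∈ AF Ω ({u, v} : Set E) := fun u v => subset_AF _ (Or.inr rfl)
  rcases line_cases c x y s0 s1 r β hs hr hrr H with
    ⟨a, b, μ, hx, hy, hμ, hab, hd, hM⟩ | ⟨b0, hM⟩
  · have hτab := hτ a b hab
    by_cases hdy : Fv (dvy c) a b = 0
    · have hdx : Fv (dvx c) a b = 0 := by
        rw [hdy, mul_zero, add_zero] at hd
        exact hd
      by_cases hcx : ∃ i j, i + j ≤ 4 ∧ dvx c i j ≠ 0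
      · obtain ⟨e, hae, hbe⟩ := dep _ hcx a b hdx
        have hle : AF Ω ({e} : Set E) ≤ AF Ω ({e, β} : Set E) :=
          AF_mono (Set.singleton_subset_iff.2 (Or.inl rfl))
        have hae' := hle hae
        have hbe' := hle hbe
        have hτe : τ ∈ AF Ω ({e, β} : Set E) :=
          AF_le (Set.insert_subset hae' (Set.singleton_subset_iff.2 hbe')) hτab
        exact fin63 h2 e β hx hy hμ hM hae' hbe' (hl' _ _) (hS1 _ _ hτe) hτe
      · by_cases hcy : ∃ i j, i + j ≤ 4 ∧ dvy c i j ≠ 0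
        · obtain ⟨e, hae, hbe⟩ := dep _ hcy a b hdy
          have hle : AF Ω ({e} : Set E) ≤ AF Ω ({e, β} : Set E) :=
            AF_mono (Set.singleton_subset_iff.2 (Or.inl rfl))
          have hae' := hle hae
          have hbe' := hle hbe
          have hτe : τ ∈ AF Ω ({e, β} : Set E) :=
            AF_le (Set.insert_subset hae' (Set.singleton_subset_iff.2 hbe')) hτab
          exact fin63 h2 e β hx hy hμ hM hae' hbe' (hl' _ _) (hS1 _ _ hτe) hτe
        · push Not at hcx hcy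
          have h2Ω : (2 : Ω) ≠ 0 := by
            intro h
            apply h2
            have := congrArg (algebraMap Ω E) h
            rwa [map_zero, map_ofNat] at this
          rcases cube63 (E := E) h2Ω c hcx hcy with hF | ⟨g0, g1, g2, hg, hF⟩
          · refine con63 x τ y (adj63 (hl _ _) _) (self63 _ _) (hl' _ _) (adj63 ?_ _)
            have hτ' := hl' x τ
            refine AF_root (n := 2) (by norm_num) ?_
            rw [hrr, hF]
            exact add_mem (hS0 _ _ hτ') (mul_mem (hS1 _ _ hτ') (IntermediateField.algebraMap_mem _ _))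
          · set l : E := algebraMap Ω E g0 + algebraMap Ω E g1 * x + algebraMap Ω E g2 * y with hl0
            have hτ' := hl' l τ
            have hrm : r ∈ AF Ω ({l, τ} : Set E) := by
              refine AF_root (n := 2) (by norm_num) ?_
              rw [hrr, hF]
              exact add_mem (hS0 _ _ hτ') (mul_mem (hS1 _ _ hτ') (pow_mem (hl _ _) 3))
            have hal : ∀ (g : Ω) (θ : E), algebraMap Ω E g ∈
                adjoin Ω (Acl Ω ({l, τ} : Set E) ∪ {θ}) := fun g θ =>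
              IntermediateField.algebraMap_mem _ _
            rcases hg with hg | hg
            · refine con63 l τ y ?_ (self63 _ _) hτ' (adj63 hrm _)
              have hgE : algebraMap Ω E g1 ≠ 0 := by
                rwa [Ne, map_eq_zero]
              have : x = (l - algebraMap Ω E g0 - algebraMap Ω E g2 * y) / algebraMap Ω E g1 := by
                rw [eq_div_iff hgE, hl0]; ring
              rw [this]
              exact div_mem (sub_mem (sub_mem (adj63 (hl _ _) _) (hal _ _))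
                (mul_mem (hal _ _) (self63 _ _))) (hal _ _)
            · refine con63 l τ x (self63 _ _) ?_ hτ' (adj63 hrm _)
              have hgE : algebraMap Ω E g2 ≠ 0 := by
                rwa [Ne, map_eq_zero]
              have : y = (l - algebraMap Ω E g0 - algebraMap Ω E g1 * x) / algebraMap Ω E g2 := by
                rw [eq_div_iff hgE, hl0]; ring
              rw [this]
              exact div_mem (sub_mem (sub_mem (adj63 (hl _ _) _) (hal _ _))
                (mul_mem (hal _ _) (self63 _ _))) (hal _ _)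
    · have hβ : β = -Fv (dvx c) a b / Fv (dvy c) a b := by
        rw [eq_div_iff hdy]
        linear_combination hd
      have hβm : β ∈ AF Ω ({a, b} : Set E) := by
        rw [hβ]
        exact div_mem (neg_mem (Fv_mem _ _ (hl _ _) (hl' _ _))) (Fv_mem _ _ (hl _ _) (hl' _ _))
      exact fin63 h2 a b hx hy hμ hM (hl _ _) (hl' _ _) hβm (hS1 _ _ hτab) hτab
  · have hτ' := hl' (y - algebraMap Ω E b0 * x) τ
    obtain ⟨A, hA, B, hB, C, hC, h⟩ := hM (AF Ω ({y - algebraMap Ω E b0 * x, τ} : Set E)) (hl _ _)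
      (hS0 _ _ hτ') (hS1 _ _ hτ')
    obtain ⟨θ, h3, h4⟩ := conic h2 _ hA hB hC h
    refine con63 (y - algebraMap Ω E b0 * x) τ θ h3 ?_ hτ' h4
    have h5 : (y - algebraMap Ω E b0 * x) + algebraMap Ω E b0 * x ∈
        adjoin Ω (Acl Ω ({y - algebraMap Ω E b0 * x, τ} : Set E) ∪ {θ}) :=
      add_mem (adj63 (hl _ _) θ) (mul_mem (IntermediateField.algebraMap_mem _ _) h3)
    rwa [sub_add_cancel] at h5

theorem uni_odd [IsAlgClosed Ω] [IsAlgClosed E] (h2 : (2 : E) ≠ 0) (c : ℕ → ℕ → Ω)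
    (x y τ s0 s1 r : E) (h0 : s0 ∈ AF Ω {τ}) (h1 : s1 ∈ AF Ω {τ}) (hs : s1 ≠ 0) (hr : r ≠ 0)
    (hrr : r ^ 2 = s0 + s1 * Fv c x y)
    (hτ : ∀ a b : E, s0 + s1 * Fv c a b = 0 → τ ∈ AF Ω {a, b}) :
    ∃ (S : Finset E) (θ : E), S.card ≤ 2 ∧ x ∈ adjoin Ω (Acl Ω (S : Set E) ∪ {θ}) ∧
      y ∈ adjoin Ω (Acl Ω (S : Set E) ∪ {θ}) ∧ τ ∈ adjoin Ω (Acl Ω (S : Set E) ∪ {θ}) ∧
      r ∈ adjoin Ω (Acl Ω (S : Set E) ∪ {θ}) := by
  obtain ⟨α, β, hαβ, H⟩ := direction c x y s0 s1
  rcases hαβ with hα | ⟨hα, hβ⟩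
  · subst hα
    simp only [one_mul] at H
    exact one63 h2 c x y τ s0 s1 r β h0 h1 hs hr hrr hτ H
  · subst hα hβ
    have H' : (∃ A B C : E, ∀ t, s0 + s1 * Fv (fun i j => c j i) (y + t) (x + 0 * t) =
        A + B * t + C * t ^ 2) ∨
      (∃ t0 A B C : E, ∀ t, s0 + s1 * Fv (fun i j => c j i) (y + t) (x + 0 * t) =
        (t - t0) ^ 2 * (A + B * t + C * t ^ 2)) := by
      simp only [← Fv_swap]
      simpa only [one_mul] using H
    obtain ⟨S, θ, hS, e1, e2, e3, e4⟩ := one63 h2 (fun i j => c j i) y x τ s0 s1 r 0 h0 h1 hs hr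
      (by rw [← Fv_swap]; exact hrr) (fun a b hab => by
        rw [← Fv_swap] at hab
        rw [Set.pair_comm]
        exact hτ b a hab) H'
    exact ⟨S, θ, hS, e2, e1, e3, e4⟩

end Pool.Agent.Helper75.QC
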